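import Mathlib

/-!
Alternating sums.
-/

set_option autoImplicit false

namespace Pool.Agent.MAL

open Equiv

variable {M G : Type} [AddCommGroup G] {K : ℕ}

/-- alternating sum of `f` over all orders of the arguments. -/
def alt (K : ℕ) (f : (Fin K → M) → G) (x : Fin K → M) : G :=
  ∑ σ : Perm (Fin K), (Perm.sign σ : ℤ) • f (fun i => x (σ i))

theorem alt_comp (f : (Fin K → M) → G) (x : Fin K → M) (τ : Perm (Fin K)) :
    alt K f (fun i => x (τ i)) = (Perm.sign τ : ℤ) • alt K f x := by
  unfold alt
  rw [Finset.smul_sum, ← Equiv.sum_comp (Equiv.mulLeft τ⁻¹)]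
  apply Finset.sum_congr rfl
  intro σ _
  have h : ∀ i, τ ((τ⁻¹ * σ) i) = σ i := by intro i; simp
  simp only [Equiv.coe_mulLeft, h, Perm.sign_mul, Perm.sign_inv,
    Units.val_mul, mul_smul]

theorem alt_precomp (f : (Fin K → M) → G) (x : Fin K → M) (τ : Perm (Fin K)) :
    alt K (fun z => f (fun i => z (τ i))) x = (Perm.sign τ : ℤ) • alt K f x := by
  unfold alt
  rw [Finset.smul_sum, ← Equiv.sum_comp (Equiv.mulRight τ⁻¹)]
  apply Finset.sum_congr rfl
  intro σ _
  have h : ∀ i, (σ * τ⁻¹) (τ i) = σ i := by intro i; simp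
  simp only [Equiv.coe_mulRight, h, Perm.sign_mul, Perm.sign_inv,
    Units.val_mul, ← mul_smul]
  rw [mul_comm]

theorem alt_add (f g : (Fin K → M) → G) (x : Fin K → M) :
    alt K (fun z => f z + g z) x = alt K f x + alt K g x := by
  simp only [alt, smul_add, Finset.sum_add_distrib]

theorem alt_sub (f g : (Fin K → M) → G) (x : Fin K → M) :
    alt K (fun z => f z - g z) x = alt K f x - alt K g x := by
  simp only [alt, smul_sub, Finset.sum_sub_distrib]

theorem alt_neg (f : (Fin K → M) → G) (x : Fin K → M) :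
    alt K (fun z => - f z) x = - alt K f x := by
  simp only [alt, smul_neg, Finset.sum_neg_distrib]

theorem alt_zsmul (n : ℤ) (f : (Fin K → M) → G) (x : Fin K → M) :
    alt K (fun z => n • f z) x = n • alt K f x := by
  unfold alt
  rw [Finset.smul_sum]
  exact Finset.sum_congr rfl fun σ _ => smul_comm _ _ _

theorem alt_smul {R : Type} [Ring R] [Module R G] (r : R) (f : (Fin K → M) → G)
    (x : Fin K → M) : alt K (fun z => r • f z) x = r • alt K f x := by
  unfold alt
  rw [Finset.smul_sum]
  exact Finset.sum_congr rfl fun σ _ => smul_comm _ _ _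

theorem alt_zero (x : Fin K → M) : alt K (fun _ => (0 : G)) x = 0 := by
  simp [alt]

theorem map_alt {G' : Type} [AddCommGroup G'] (φ : G →+ G') (f : (Fin K → M) → G)
    (x : Fin K → M) : φ (alt K f x) = alt K (fun z => φ (f z)) x := by
  simp only [alt, map_sum, map_zsmul]

theorem update_perm (x : Fin K → M) (σ : Perm (Fin K)) (i : Fin K) (v : M) :
    (fun k => Function.update x i v (σ k)) =
      Function.update (fun k => x (σ k)) (σ.symm i) v := by
  funext k
  by_cases h : σ k = i
  · have h' : k = σ.symm i := by rw [← h]; simp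
    rw [h, Function.update_self, h', Function.update_self]
  · have h' : k ≠ σ.symm i := by
      intro h'; apply h; rw [h']; simp
    rw [Function.update_of_ne h, Function.update_of_ne h']

theorem alt_update_add [Add M] (f : (Fin K → M) → G)
    (hf : ∀ z i a b, f (Function.update z i (a + b)) =
      f (Function.update z i a) + f (Function.update z i b))
    (x : Fin K → M) (i : Fin K) (a b : M) :
    alt K f (Function.update x i (a + b)) =
      alt K f (Function.update x i a) + alt K f (Function.update x i b) := by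
  unfold alt
  rw [← Finset.sum_add_distrib]
  refine Finset.sum_congr rfl fun σ _ => ?_
  rw [← smul_add, update_perm, update_perm, update_perm, hf]

theorem alt_update_smul {R : Type} [SMul R M] [Ring R] [Module R G] (f : (Fin K → M) → G)
    (hf : ∀ z i (c : R) a, f (Function.update z i (c • a)) = c • f (Function.update z i a))
    (x : Fin K → M) (i : Fin K) (c : R) (a : M) :
    alt K f (Function.update x i (c • a)) = c • alt K f (Function.update x i a) := by
  unfold alt
  rw [Finset.smul_sum]
  refine Finset.sum_congr rfl fun σ _ => ?_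
  rw [update_perm, update_perm, hf, smul_comm]

/-- the permutations of `K + 1` letters by the position of the letter `0` -/
def pe (q : Fin (K + 1) × Perm (Fin K)) : Perm (Fin (K + 1)) :=
  Perm.decomposeFin.symm (0, q.2) * q.1.cycleRange

theorem pe_self (q : Fin (K + 1) × Perm (Fin K)) : pe q q.1 = 0 := by
  simp [pe, Fin.cycleRange_self]

theorem pe_succAbove (q : Fin (K + 1) × Perm (Fin K)) (j : Fin K) :
    pe q (q.1.succAbove j) = (q.2 j).succ := by
  simp [pe, Fin.cycleRange_succAbove]

theorem pe_bij : Function.Bijective (pe : Fin (K + 1) × Perm (Fin K) → Perm (Fin (K + 1))) := by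
  rw [Fintype.bijective_iff_injective_and_card]
  constructor
  · rintro ⟨p, e⟩ ⟨p', e'⟩ h
    have h1 : p = p' := by
      have h2 := pe_self (p, e)
      rw [h] at h2
      have h3 := pe_self (p', e')
      rw [← h3] at h2
      exact (pe (p', e')).injective h2
    subst h1
    congr 1
    ext j
    have h2 := pe_succAbove (p, e) j
    rw [h, pe_succAbove] at h2
    simp only [Fin.succ_inj] at h2
    rw [h2]
  · simp [Fintype.card_perm, Nat.factorial_succ]

theorem pe_sign (q : Fin (K + 1) × Perm (Fin K)) :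
    (Perm.sign (pe q) : ℤ) = (-1) ^ (q.1 : ℕ) * Perm.sign q.2 := by
  unfold pe
  rw [Perm.sign_mul, Perm.decomposeFin.symm_sign, Fin.sign_cycleRange]
  simp [mul_comm]

/-- expansion by the position of the first letter -/
theorem alt_cons (f : (Fin (K + 1) → M) → G) (w : M) (x : Fin K → M) :
    alt (K + 1) f (Fin.cons w x : Fin (K + 1) → M) =
      ∑ p : Fin (K + 1), ((-1 : ℤ) ^ (p : ℕ)) •
        alt K (fun z => f (p.insertNth (α := fun _ => M) w z)) x := by
  unfold alt
  rw [← Function.Bijective.sum_comp pe_bij, Fintype.sum_prod_type]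
  refine Finset.sum_congr rfl fun p _ => ?_
  rw [Finset.smul_sum]
  refine Finset.sum_congr rfl fun e _ => ?_
  rw [pe_sign, mul_smul]
  congr 3
  funext i
  refine Fin.succAboveCases p ?_ (fun j => ?_) i
  · have := pe_self (p, e)
    simp only at this
    rw [this, Fin.cons_zero, Fin.insertNth_apply_same]
  · have := pe_succAbove (p, e) j
    simp only at this
    rw [this, Fin.cons_succ, Fin.insertNth_apply_succAbove]

theorem alt_cons5 (f : (Fin 5 → M) → G) (w : M) (x : Fin 4 → M) :
    alt 5 f (Fin.cons w x : Fin 5 → M) =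
      alt 4 (fun z => f ![w, z 0, z 1, z 2, z 3] - f ![z 0, w, z 1, z 2, z 3]
        + f ![z 0, z 1, w, z 2, z 3] - f ![z 0, z 1, z 2, w, z 3]
        + f ![z 0, z 1, z 2, z 3, w]) x := by
  rw [alt_cons, Fin.sum_univ_five, alt_add, alt_sub, alt_add, alt_sub]
  have h : ∀ z : Fin 4 → M, (∀ p : Fin 5, (p.insertNth (α := fun _ => M) w z : Fin 5 → M) =
      ![![w, z 0, z 1, z 2, z 3], ![z 0, w, z 1, z 2, z 3], ![z 0, z 1, w, z 2, z 3],
        ![z 0, z 1, z 2, w, z 3], ![z 0, z 1, z 2, z 3, w]] p) := by
    intro z p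
    fin_cases p <;> (funext i; fin_cases i <;> rfl)
  simp only [h]
  norm_num
  simp only [sub_eq_add_neg]
  rfl

theorem alt_cons4 (f : (Fin 4 → M) → G) (w : M) (x : Fin 3 → M) :
    alt 4 f (Fin.cons w x : Fin 4 → M) =
      alt 3 (fun z => f ![w, z 0, z 1, z 2] - f ![z 0, w, z 1, z 2]
        + f ![z 0, z 1, w, z 2] - f ![z 0, z 1, z 2, w]) x := by
  rw [alt_cons, Fin.sum_univ_four, alt_sub, alt_add, alt_sub]
  have h : ∀ z : Fin 3 → M, (∀ p : Fin 4, (p.insertNth (α := fun _ => M) w z : Fin 4 → M) =
      ![![w, z 0, z 1, z 2], ![z 0, w, z 1, z 2], ![z 0, z 1, w, z 2],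
        ![z 0, z 1, z 2, w]] p) := by
    intro z p
    fin_cases p <;> (funext i; fin_cases i <;> rfl)
  simp only [h]
  norm_num
  simp only [sub_eq_add_neg]
  rfl

theorem alt_cons3 (f : (Fin 3 → M) → G) (w : M) (x : Fin 2 → M) :
    alt 3 f (Fin.cons w x : Fin 3 → M) =
      alt 2 (fun z => f ![w, z 0, z 1] - f ![z 0, w, z 1] + f ![z 0, z 1, w]) x := by
  rw [alt_cons, Fin.sum_univ_three, alt_add, alt_sub]
  have h : ∀ z : Fin 2 → M, (∀ p : Fin 3, (p.insertNth (α := fun _ => M) w z : Fin 3 → M) =
      ![![w, z 0, z 1], ![z 0, w, z 1], ![z 0, z 1, w]] p) := by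
    intro z p
    fin_cases p <;> (funext i; fin_cases i <;> rfl)
  simp only [h]
  norm_num
  simp only [sub_eq_add_neg]
  rfl

theorem alt_cons2 (f : (Fin 2 → M) → G) (w : M) (x : Fin 1 → M) :
    alt 2 f (Fin.cons w x : Fin 2 → M) =
      alt 1 (fun z => f ![w, z 0] - f ![z 0, w]) x := by
  rw [alt_cons, Fin.sum_univ_two, alt_sub]
  have h : ∀ z : Fin 1 → M, (∀ p : Fin 2, (p.insertNth (α := fun _ => M) w z : Fin 2 → M) =
      ![![w, z 0], ![z 0, w]] p) := by
    intro z p
    fin_cases p <;> (funext i; fin_cases i <;> rfl)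
  simp only [h]
  norm_num
  simp only [sub_eq_add_neg]

theorem alt_one (f : (Fin 1 → M) → G) (x : Fin 1 → M) : alt 1 f x = f x := by
  unfold alt
  rw [Fintype.sum_unique]
  simp only [Perm.default_eq, Perm.sign_one, Units.val_one, one_smul, Perm.one_apply]

theorem alt_two (f : (Fin 2 → M) → G) (a b : M) : alt 2 f ![a, b] = f ![a, b] - f ![b, a] := by
  have := alt_cons2 f a ![b]
  rw [alt_one] at this
  exact this

theorem alt_three (f : (Fin 3 → M) → G) (a b c : M) : alt 3 f ![a, b, c] =
    f ![a, b, c] - f ![a, c, b] - (f ![b, a, c] - f ![c, a, b]) + (f ![b, c, a] - f ![c, b, a]) := by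
  have := alt_cons3 f a ![b, c]
  rw [alt_add, alt_sub, alt_two, alt_two, alt_two] at this
  exact this

end Pool.Agent.MAL
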