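import Pool.Agent.MAL.CertCore

/-! Soundness of the certificate checker. -/

namespace Pool.Agent.MAL.Cert

/-- code of a word -/
def codeOf : Tr → ℕ
  | .lf i => 2 * i
  | .nd a b => pr (codeOf a) (codeOf b)

/-- canonical words: larger child first -/
def Can : Tr → Prop
  | .lf _ => True
  | .nd a b => Can a ∧ Can b ∧ codeOf b ≤ codeOf a

theorem pr_eq' (a b : ℕ) : pr a b = 2 * (a * a + a + b) + 1 := by
  show Nat.succ (2 * (a * (a + 1) + b)) = _
  rw [Nat.succ_eq_add_one]; ring

theorem pr_inj {a b a' b' : ℕ} (h : b ≤ a) (h' : b' ≤ a') (e : pr a b = pr a' b') :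
    a = a' ∧ b = b' := by
  rw [pr_eq', pr_eq'] at e
  have e1 : a * a + a + b = a' * a' + a' + b' := by omega
  have h1 : ¬ a < a' := by
    intro hl
    have : (a + 1) * (a + 1) ≤ a' * a' := Nat.mul_le_mul hl hl
    nlinarith
  have h2 : ¬ a' < a := by
    intro hl
    have : (a' + 1) * (a' + 1) ≤ a * a := Nat.mul_le_mul hl hl
    nlinarith
  have h3 : a = a' := by omega
  subst h3
  exact ⟨rfl, by omega⟩

theorem codeOf_inj : ∀ {s t : Tr}, Can s → Can t → codeOf s = codeOf t → s = t
  | .lf i, .lf j, _, _, h => by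
    simp only [codeOf] at h
    have : i = j := by omega
    rw [this]
  | .lf i, .nd a b, _, _, h => by simp only [codeOf, pr_eq'] at h; omega
  | .nd a b, .lf i, _, _, h => by simp only [codeOf, pr_eq'] at h; omega
  | .nd a b, .nd a' b', hs, ht, h => by
    simp only [codeOf] at h
    obtain ⟨h1, h2⟩ := pr_inj hs.2.2 ht.2.2 h
    rw [codeOf_inj hs.1 ht.1 h1, codeOf_inj hs.2.1 ht.2.1 h2]

section
variable {S : Type*} [NonUnitalNonAssocRing S] (v : ℕ → S)

open Classical in
/-- value of a code -/
noncomputable def V (n : ℕ) : S :=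
  if h : ∃ t, Can t ∧ codeOf t = n then (Classical.choose h).val v else 0

theorem V_code {t : Tr} (ht : Can t) : V v (codeOf t) = t.val v := by
  have h : ∃ s, Can s ∧ codeOf s = codeOf t := ⟨t, ht, rfl⟩
  unfold V
  rw [dif_pos h]
  rw [codeOf_inj (Classical.choose_spec h).1 ht (Classical.choose_spec h).2]

/-- value of an element -/
noncomputable def ev (e : El) : S := e.c • V v e.code

def Good (P : ℕ → Bool) (e : El) : Prop :=
  e.c = 0 ∨ ∃ t, Can t ∧ codeOf t = e.code ∧ t.par P = e.par

variable {v} {P : ℕ → Bool} {H : Bool → AddSubgroup S}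

theorem val_mem (hS : SMal S H) (hv : ∀ i, v i ∈ H (P i)) : ∀ t : Tr, t.val v ∈ H (t.par P)
  | .lf i => hv i
  | .nd a b => hS.mul_mem (val_mem hS hv a) (val_mem hS hv b)

theorem ev_mem (hS : SMal S H) (hv : ∀ i, v i ∈ H (P i)) {e : El} (he : Good P e) :
    ev v e ∈ H e.par := by
  rcases he with h | ⟨t, h1, h2, h3⟩
  · rw [ev, h, zero_smul]; exact zero_mem _
  · rw [ev, ← h2, V_code v h1, ← h3]
    exact AddSubgroup.zsmul_mem _ (val_mem hS hv t) _

theorem neg1_eq (b : Bool) (c : ℤ) : neg1 b c = sg b * c := by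
  cases b
  · simp [neg1, sg]
  · simp only [neg1, sg, cond_true, neg_mul, one_mul]; rfl

theorem pr_eq (a b : ℕ) : pr a b = 2 * (a * a + a + b) + 1 := by
  show Nat.succ (2 * (a * (a + 1) + b)) = _
  rw [Nat.succ_eq_add_one]; ring

theorem mul_def (a b : El) : mul a b =
    (bif Nat.blt b.code a.code then ⟨a.c * b.c, pr a.code b.code, Bool.xor a.par b.par⟩
     else bif Nat.blt a.code b.code then
      ⟨neg1 (!(a.par && b.par)) (a.c * b.c), pr b.code a.code, Bool.xor a.par b.par⟩
     else bif a.par then ⟨a.c * b.c, pr a.code a.code, false⟩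
     else ⟨0, 0, false⟩) := rfl

theorem mul_spec (hS : SMal S H) (hv : ∀ i, v i ∈ H (P i)) {a b : El} (ha : Good P a)
    (hb : Good P b) : Good P (mul a b) ∧ ev v (mul a b) = ev v a * ev v b := by
  rcases ha with ha | ⟨s, hs1, hs2, hs3⟩
  · have h0 : ev v a = 0 := by rw [ev, ha, zero_smul]
    have h1 : (mul a b).c = 0 := by
      rw [mul_def]
      cases h1 : Nat.blt b.code a.code <;> cases h2 : Nat.blt a.code b.code <;>
        cases h3 : a.par <;> simp [ha, neg1_eq]
    refine ⟨Or.inl h1, ?_⟩
    rw [h0, zero_mul, ev, h1, zero_smul]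
  rcases hb with hb | ⟨t, ht1, ht2, ht3⟩
  · have h0 : ev v b = 0 := by rw [ev, hb, zero_smul]
    have h1 : (mul a b).c = 0 := by
      rw [mul_def]
      cases h1 : Nat.blt b.code a.code <;> cases h2 : Nat.blt a.code b.code <;>
        cases h3 : a.par <;> simp [hb, neg1_eq]
    refine ⟨Or.inl h1, ?_⟩
    rw [h0, mul_zero, ev, h1, zero_smul]
  have hms := val_mem (P := P) hS hv s
  have hmt := val_mem (P := P) hS hv t
  have eva : ev v a = a.c • s.val v := by rw [ev, ← hs2, V_code v hs1]
  have evb : ev v b = b.c • t.val v := by rw [ev, ← ht2, V_code v ht1]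
  have hprod : ev v a * ev v b = (a.c * b.c) • (s.val v * t.val v) := by
    rw [eva, evb, smul_mul_smul_comm]
  rw [mul_def]
  cases h1 : Nat.blt b.code a.code
  · cases h2 : Nat.blt a.code b.code
    · have hcode : codeOf s = codeOf t := by
        rw [hs2, ht2]
        rw [Bool.eq_false_iff, Ne, Nat.blt_eq] at h1 h2
        omega
      have hst : s = t := codeOf_inj hs1 ht1 hcode
      subst hst
      cases h3 : a.par
      · simp only [cond_false]
        refine ⟨Or.inl rfl, ?_⟩
        have hm : s.val v ∈ H false := by rw [← h3, ← hs3]; exact hms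
        rw [hprod, hS.sq hm, smul_zero, ev]
        exact zero_smul _ _
      · simp only [cond_false, cond_true]
        refine ⟨Or.inr ⟨.nd s s, ⟨hs1, hs1, le_refl _⟩, ?_, ?_⟩, ?_⟩
        · simp [codeOf, hs2]
        · simp [Tr.par]
        · rw [hprod]
          have : V v (pr a.code a.code) = s.val v * s.val v := by
            have := V_code v (t := .nd s s) ⟨hs1, hs1, le_refl _⟩
            simp only [codeOf, hs2, Tr.val] at this
            exact this
          simp only [ev, this]
    · simp only [cond_false, cond_true]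
      have hlt : codeOf s ≤ codeOf t := by
        rw [hs2, ht2]; rw [Nat.blt_eq] at h2; omega
      refine ⟨Or.inr ⟨.nd t s, ⟨ht1, hs1, hlt⟩, ?_, ?_⟩, ?_⟩
      · simp [codeOf, hs2, ht2]
      · simp only [Tr.par, hs3, ht3, Bool.xor_comm]
      · rw [hprod]
        have : V v (pr b.code a.code) = t.val v * s.val v := by
          have := V_code v (t := .nd t s) ⟨ht1, hs1, hlt⟩
          simp only [codeOf, hs2, ht2, Tr.val] at this
          exact this
        simp only [ev, this]
        rw [hS.anti hms hmt, hs3, ht3, neg1_eq, smul_smul, mul_comm]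
  · simp only [cond_true]
    have hlt : codeOf t ≤ codeOf s := by
      rw [hs2, ht2]; rw [Nat.blt_eq] at h1; omega
    refine ⟨Or.inr ⟨.nd s t, ⟨hs1, ht1, hlt⟩, ?_, ?_⟩, ?_⟩
    · simp [codeOf, hs2, ht2]
    · simp only [Tr.par, hs3, ht3]
    · rw [hprod]
      have : V v (pr a.code b.code) = s.val v * t.val v := by
        have := V_code v (t := .nd s t) ⟨hs1, ht1, hlt⟩
        simp only [codeOf, hs2, ht2, Tr.val] at this
        exact this
      simp only [ev, this]

theorem run_succ (P : ℕ → Bool) (f n : ℕ) (st : List El) : run P (f+1) (n+1) st =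
    bif Nat.beq ((n+1) % 16) 15 then
      (match st with
       | b :: a :: st' => run P f ((n+1) / 16) (mul a b :: st')
       | st' => run P f ((n+1) / 16) st')
    else run P f ((n+1) / 16) (⟨1, 2 * ((n+1) % 16), P ((n+1) % 16)⟩ :: st) := by
  match st with
  | [] => rfl
  | [a] => rfl
  | b :: a :: st' => rfl

theorem run_good (hS : SMal S H) (hv : ∀ i, v i ∈ H (P i)) :
    ∀ (f n : ℕ) (st : List El), (∀ e ∈ st, Good P e) → ∀ e ∈ run P f n st, Good P e
  | 0, _, st, h => h
  | f+1, 0, st, h => h
  | f+1, n+1, st, h => by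
    intro e he
    rw [run_succ] at he
    cases hb : Nat.beq ((n+1) % 16) 15
    · simp only [hb, cond_false] at he
      refine run_good hS hv f _ _ ?_ e he
      intro e' he'
      rcases List.mem_cons.1 he' with rfl | h'
      · exact Or.inr ⟨.lf ((n+1) % 16), trivial, rfl, rfl⟩
      · exact h e' h'
    · simp only [hb, cond_true] at he
      match st, h, he with
      | [], h, he => exact run_good hS hv f _ _ h e he
      | [a], h, he => exact run_good hS hv f _ _ h e he
      | b :: a :: st', h, he =>
        refine run_good hS hv f _ _ ?_ e he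
        intro e' he'
        rcases List.mem_cons.1 he' with rfl | h'
        · exact (mul_spec hS hv (h a (by simp)) (h b (by simp))).1
        · exact h e' (by simp [h'])

/-- value of a polynomial -/
noncomputable def evP (v : ℕ → S) (p : Poly) : S := (p.map fun x => x.2 • V v x.1).sum

theorem evP_nil : evP v [] = 0 := rfl

theorem evP_cons (x : ℕ × ℤ) (p : Poly) : evP v (x :: p) = x.2 • V v x.1 + evP v p := by
  simp [evP]

theorem mergeAux_cons (x : ℕ × ℤ) (m : Poly → Poly) (xs : Poly) (y : ℕ × ℤ) (ys : Poly) :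
    mergeAux x m xs (y :: ys) =
    bif Nat.blt x.1 y.1 then x :: m (y :: ys)
    else bif Nat.blt y.1 x.1 then y :: mergeAux x m xs ys
    else bif (x.2 + y.2 == 0) then m ys else (x.1, x.2 + y.2) :: m ys := by
  rw [← Int.beq'_eq_beq]; rfl

theorem mergeAux_ev (x : ℕ × ℤ) (m : Poly → Poly) (xs : Poly)
    (hm : ∀ ys, evP v (m ys) = evP v xs + evP v ys) :
    ∀ ys, evP v (mergeAux x m xs ys) = evP v (x :: xs) + evP v ys
  | [] => by rw [evP_nil, add_zero]; rfl
  | y :: ys => by
    rw [mergeAux_cons]
    cases h1 : Nat.blt x.1 y.1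
    · cases h2 : Nat.blt y.1 x.1
      · have hxy : x.1 = y.1 := by
          rw [Bool.eq_false_iff, Ne, Nat.blt_eq] at h1 h2
          omega
        cases h3 : (x.2 + y.2 == 0)
        · simp only [cond_false, evP_cons, hm]
          rw [← hxy, add_smul]; abel
        · simp only [cond_false, cond_true, evP_cons, hm]
          rw [beq_iff_eq] at h3
          have : x.2 • V v x.1 + y.2 • V v y.1 = 0 := by
            rw [← hxy, ← add_smul, h3, zero_smul]
          calc evP v xs + evP v ys = (x.2 • V v x.1 + y.2 • V v y.1) + (evP v xs + evP v ys) := by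
                rw [this, zero_add]
            _ = _ := by abel
      · simp only [cond_false, cond_true, evP_cons, mergeAux_ev x m xs hm ys]
        abel
    · simp only [cond_true, evP_cons, hm]
      abel

theorem merge_ev : ∀ (xs ys : Poly), evP v (merge xs ys) = evP v xs + evP v ys
  | [], ys => by rw [evP_nil, zero_add]; rfl
  | x :: xs, ys => mergeAux_ev x (merge xs) xs (merge_ev xs) ys

theorem toPoly_ev (a : El) (d : ℤ) : evP v (toPoly a d) = d • ev v a := by
  unfold toPoly
  rw [Int.beq'_eq_beq]
  cases h : (a.c == 0)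
  · simp only [cond_false, evP_cons, evP_nil, add_zero, ev]
    rw [smul_smul, mul_comm]; rfl
  · rw [beq_iff_eq] at h
    simp [evP_nil, ev, h]

theorem ctx_spec (hS : SMal S H) (hv : ∀ i, v i ∈ H (P i)) :
    ∀ (ts : List El) (a : El), Good P a → (∀ e ∈ ts, Good P e) →
      ev v (ctx a ts) = (ts.map (ev v)).foldl (· * ·) (ev v a)
  | [], a, _, _ => rfl
  | t :: ts, a, ha, h => by
    have h1 := mul_spec hS hv ha (h t (by simp))
    have := ctx_spec hS hv ts (mul a t) h1.1 (fun e he => h e (by simp [he]))
    show ev v (ctx (mul a t) ts) = _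
    simp only [List.foldl_cons, List.map_cons] at this ⊢
    rw [this, h1.2]

theorem foldl_add (l : List S) : ∀ (a b : S),
    l.foldl (· * ·) (a + b) = l.foldl (· * ·) a + l.foldl (· * ·) b := by
  induction l with
  | nil => intro a b; rfl
  | cons t l ih => intro a b; simp only [List.foldl_cons, add_mul, ih]

theorem foldl_zsmul (l : List S) : ∀ (n : ℤ) (a : S),
    l.foldl (· * ·) (n • a) = n • l.foldl (· * ·) a := by
  induction l with
  | nil => intro n a; rfl
  | cons t l ih => intro n a; simp only [List.foldl_cons, smul_mul_assoc, ih]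

theorem foldl_zero (l : List S) : l.foldl (· * ·) (0 : S) = 0 := by
  induction l with
  | nil => rfl
  | cons t l ih => simp only [List.foldl_cons, zero_mul, ih]

theorem sg_not (b : Bool) : sg (!b) = - sg b := by cases b <;> simp [sg]

theorem sagle_ev (hS : SMal S H) (hv : ∀ i, v i ∈ H (P i)) {p q r s : El} {ts : List El} (d : ℤ)
    (hp : Good P p) (hq : Good P q) (hr : Good P r) (hs : Good P s) (hts : ∀ e ∈ ts, Good P e) :
    evP v (sagle p q r s ts d) = 0 := by
  have hpq := mul_spec hS hv hp hq
  have hpqr := mul_spec hS hv hpq.1 hr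
  have hpqrs := mul_spec hS hv hpqr.1 hs
  have hqr := mul_spec hS hv hq hr
  have hqrs := mul_spec hS hv hqr.1 hs
  have hqrsp := mul_spec hS hv hqrs.1 hp
  have hrs := mul_spec hS hv hr hs
  have hrsp := mul_spec hS hv hrs.1 hp
  have hrspq := mul_spec hS hv hrsp.1 hq
  have hsp := mul_spec hS hv hs hp
  have hspq := mul_spec hS hv hsp.1 hq
  have hspqr := mul_spec hS hv hspq.1 hr
  have hpr := mul_spec hS hv hp hr
  have hqs := mul_spec hS hv hq hs
  have hprqs := mul_spec hS hv hpr.1 hqs.1
  have hsag := hS.sagle (ev_mem hS hv hp) (ev_mem hS hv hq) (ev_mem hS hv hr) (ev_mem hS hv hs)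
  unfold sagle
  rw [merge_ev, merge_ev, merge_ev, merge_ev, toPoly_ev, toPoly_ev, toPoly_ev, toPoly_ev,
    toPoly_ev, ctx_spec hS hv ts _ hpqrs.1 hts, ctx_spec hS hv ts _ hqrsp.1 hts,
    ctx_spec hS hv ts _ hrspq.1 hts, ctx_spec hS hv ts _ hspqr.1 hts,
    ctx_spec hS hv ts _ hprqs.1 hts]
  rw [hpqrs.2, hpqr.2, hpq.2, hqrsp.2, hqrs.2, hqr.2, hrspq.2, hrsp.2, hrs.2, hspqr.2, hspq.2,
    hsp.2, hprqs.2, hpr.2, hqs.2]
  rw [neg1_eq, neg1_eq, neg1_eq, neg1_eq, sg_not]
  set L := ts.map (ev v)
  have key := congrArg (fun x => L.foldl (· * ·) x) hsag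
  simp only [foldl_add, foldl_zsmul] at key
  have key2 := congrArg (fun x => d • x) key
  simp only [smul_add] at key2
  simp only [mul_smul, smul_comm (_ : ℤ) d, neg_smul, smul_neg] at key2 ⊢
  rw [← add_assoc, ← add_assoc, ← add_assoc, key2]
  abel

theorem inst_ev (hS : SMal S H) (hv : ∀ i, v i ∈ H (P i)) (e : ℤ × ℕ) :
    evP v (inst P e) = 0 := by
  have hg := run_good (P := P) hS hv 120 e.2 [] (by simp)
  unfold inst
  match h : run P 120 e.2 [] with
  | [] => exact evP_nil
  | [_] => exact evP_nil
  | [_, _] => exact evP_nil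
  | [_, _, _] => exact evP_nil
  | p :: q :: r :: s :: ts =>
    rw [h] at hg
    exact sagle_ev hS hv e.1 (hg p (by simp)) (hg q (by simp)) (hg r (by simp)) (hg s (by simp))
      (fun e he => hg e (by simp [he]))

/-- `pairUp` with a pending element -/
noncomputable def pairUpAux (l : List Poly) : Option Poly → List Poly :=
  List.rec (motive := fun _ => Option Poly → List Poly)
    (fun o => Option.rec [] (fun a => [a]) o)
    (fun b _ ih o => Option.rec (ih (some b)) (fun a => merge a b :: ih none) o) l

theorem pairUpAux_ev : ∀ (l : List Poly) (o : Option Poly),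
    ((pairUpAux l o).map (evP v)).sum = (o.toList.map (evP v)).sum + (l.map (evP v)).sum
  | [], none => by simp [pairUpAux]
  | [], some a => by simp [pairUpAux]
  | b :: l, none => by
    show ((pairUpAux l (some b)).map (evP v)).sum = _
    rw [pairUpAux_ev l (some b)]
    simp
  | b :: l, some a => by
    show ((merge a b :: pairUpAux l none).map (evP v)).sum = _
    rw [List.map_cons, List.sum_cons, pairUpAux_ev l none, merge_ev]
    simp only [Option.toList_none, List.map_nil, List.sum_nil, Option.toList_some, List.map_cons,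
      List.sum_cons]
    abel

theorem pairUp_ev (l : List Poly) : ((pairUp l).map (evP v)).sum = (l.map (evP v)).sum := by
  have := pairUpAux_ev (v := v) l none
  rw [Option.toList_none, List.map_nil, List.sum_nil, zero_add] at this
  exact this

theorem sumAll_ev : ∀ (f : ℕ) (l : List Poly), sumAll f l = [] → (l.map (evP v)).sum = 0
  | 0, l, h => by exact absurd h (by show ¬ [(0,1)] = []; simp)
  | f+1, [], _ => by simp
  | f+1, [a], h => by have h' : a = [] := h; simp [h', evP_nil]
  | f+1, a :: b :: l, h => by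
    have h' : sumAll f (pairUp (a :: b :: l)) = [] := h
    rw [← pairUp_ev]
    exact sumAll_ev f _ h'

theorem mkEl_spec (hS : SMal S H) (hv : ∀ i, v i ∈ H (P i)) :
    ∀ t : Tr, Good P (mkEl P t) ∧ ev v (mkEl P t) = t.val v
  | .lf i => by
    refine ⟨Or.inr ⟨.lf i, trivial, rfl, rfl⟩, ?_⟩
    have := V_code v (t := .lf i) trivial
    simp only [codeOf, Tr.val] at this
    show (1 : ℤ) • V v (2 * i) = v i
    rw [this, one_smul]
  | .nd a b => by
    have ha := mkEl_spec hS hv a
    have hb := mkEl_spec hS hv b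
    have := mul_spec hS hv ha.1 hb.1
    refine ⟨this.1, ?_⟩
    show ev v (mul (mkEl P a) (mkEl P b)) = _
    rw [this.2, ha.2, hb.2, Tr.val]

theorem check_def (P : ℕ → Bool) (cert : List (ℤ × ℕ)) (d : ℤ) (target : List (ℤ × Tr)) :
    check P cert d target =
      ((!(d == 0)) && (sumAll 30 (cert.map (inst P) ++ target.map (tgt P d))).isEmpty) := by
  have h1 : ∀ l : List (ℤ × Tr), (List.rec (motive := fun _ => List Poly) []
      (fun e _ ih => tgt P d e :: ih) l : List Poly) = l.map (tgt P d) := by
    intro l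
    induction l with
    | nil => rfl
    | cons e l ih => rw [List.map_cons, ← ih]
  have h2 : ∀ l : List (ℤ × ℕ), (List.rec (motive := fun _ => List Poly) (target.map (tgt P d))
      (fun e _ ih => inst P e :: ih) l : List Poly) = l.map (inst P) ++ target.map (tgt P d) := by
    intro l
    induction l with
    | nil => rfl
    | cons e l ih => rw [List.map_cons, List.cons_append, ← ih]
  unfold check
  rw [h1, h2, Int.beq'_eq_beq]
  congr 1
  cases sumAll 30 (cert.map (inst P) ++ target.map (tgt P d)) <;> rfl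

/-- **soundness** -/
theorem check_sound (hS : SMal S H) (hv : ∀ i, v i ∈ H (P i))
    (htf : ∀ (n : ℤ) (s : S), n ≠ 0 → n • s = 0 → s = 0)
    {cert : List (ℤ × ℕ)} {d : ℤ} {target : List (ℤ × Tr)}
    (h : check P cert d target = true) :
    (target.map fun e => e.1 • e.2.val v).sum = 0 := by
  rw [check_def, Bool.and_eq_true] at h
  obtain ⟨h1, h2⟩ := h
  have hd : d ≠ 0 := by
    intro h0
    subst h0
    simp at h1
  rw [List.isEmpty_iff] at h2
  have h3 := sumAll_ev (v := v) _ _ h2
  rw [List.map_append, List.sum_append, List.map_map, List.map_map] at h3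
  have h4 : (cert.map (evP v ∘ inst P)).sum = 0 := by
    apply List.sum_eq_zero
    intro x hx
    rw [List.mem_map] at hx
    obtain ⟨e, _, rfl⟩ := hx
    exact inst_ev hS hv e
  rw [h4, zero_add] at h3
  have h5 : ∀ l : List (ℤ × Tr), (l.map (evP v ∘ tgt P d)).sum
      = (-d) • (l.map fun e => e.1 • e.2.val v).sum := by
    intro l
    induction l with
    | nil => simp
    | cons e l ih =>
      simp only [List.map_cons, List.sum_cons, ih, smul_add, Function.comp_apply]
      congr 1
      rw [tgt, toPoly_ev, (mkEl_spec hS hv e.2).2, ← mul_smul]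
      congr 1
      show -(d * e.1) = _
      ring
  rw [h5] at h3
  exact htf _ _ (neg_ne_zero.2 hd) h3

end

end Pool.Agent.MAL.Cert
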