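import Pool.Agent.MAL.Transfer
import Pool.Agent.MAL.CertSound
import Pool.Agent.MAL.Alt

/-!
Certified super-identities give alternating multilinear identities in every Malcev algebra.
-/

namespace Pool.Agent.MAL.Cert

variable {F : Type} [Field F] [CharZero F] {M : Type} [NonUnitalNonAssocRing M] [Module F M]
  [IsScalarTower F M M] [SMulCommClass F M M] {K : ℕ}

/-- soundness of the certificates, in every Malcev algebra -/
theorem cert_alt (F : Type) [Field F] [CharZero F] [Module F M] [IsScalarTower F M M]
    [SMulCommClass F M M] (hM : IsMalcev M) (P : ℕ → Bool) (cert : List (ℤ × ℕ)) (d : ℤ)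
    (target : List (ℤ × Tr)) (hc : check P cert d target = true)
    (hK : ∀ e ∈ target, e.2.no P = K) (kind : Fin K → ℕ) (l : ℕ → M) (x : Fin K → M) :
    (target.map fun e => e.1 • ∑ s : Equiv.Perm (Fin K),
      if List.ofFn (fun n => kind (s n)) = e.2.ol P then
        (Equiv.Perm.sign s : ℤ) • e.2.ev P l (ext0 (fun n => x (s n))) 0 else 0).sum = 0 := by
  apply transfer (F := F) P kind l x target hK
  exact check_sound (env_smal (F := F) (V := Fin K → F) hM) (envv_mem P kind l x)
    env_torsion hc

/-- the case of one odd letter -/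
theorem cert_alt_one (F : Type) [Field F] [CharZero F] [Module F M] [IsScalarTower F M M]
    [SMulCommClass F M M] (hM : IsMalcev M) (P : ℕ → Bool) (cert : List (ℤ × ℕ)) (d : ℤ)
    (target : List (ℤ × Tr)) (hc : check P cert d target = true) (j : ℕ)
    (hK : ∀ e ∈ target, e.2.ol P = List.replicate K j) (l : ℕ → M) (x : Fin K → M) :
    (target.map fun e => e.1 • ∑ s : Equiv.Perm (Fin K),
        (Equiv.Perm.sign s : ℤ) • e.2.ev P l (ext0 (fun n => x (s n))) 0).sum = 0 := by
  have h := cert_alt F hM P cert d target hc (fun e he => by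
    rw [← Tr.ol_length, hK e he, List.length_replicate]) (fun _ : Fin K => j) l x
  rw [← h]
  congr 1
  apply List.map_congr_left
  intro e he
  congr 1
  refine Finset.sum_congr rfl fun s _ => ?_
  rw [if_pos]
  rw [hK e he, List.ofFn_const]

/-- the case of one odd letter, in terms of `alt` -/
theorem cert_alt_one' (F : Type) [Field F] [CharZero F] [Module F M] [IsScalarTower F M M]
    [SMulCommClass F M M] (hM : IsMalcev M) (P : ℕ → Bool) (cert : List (ℤ × ℕ)) (d : ℤ)
    (target : List (ℤ × Tr)) (hc : check P cert d target = true) (j : ℕ)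
    (hK : ∀ e ∈ target, e.2.ol P = List.replicate K j) (l : ℕ → M) (x : Fin K → M) :
    alt K (fun z => (target.map fun e => e.1 • e.2.ev P l (ext0 z) 0).sum) x = 0 := by
  rw [← cert_alt_one F hM P cert d target hc j hK l x]
  unfold alt
  clear hK hc
  induction target with
  | nil => simp
  | cons e t ih =>
    simp only [List.map_cons, List.sum_cons, smul_add, Finset.sum_add_distrib] at ih ⊢
    rw [ih, Finset.smul_sum]
    congr 1
    exact Finset.sum_congr rfl fun s _ => smul_comm _ _ _

end Pool.Agent.MAL.Cert
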