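import Pool.Agent.MAL.CertDefs

/-! Computational core of the certificate checker for super-identities of Malcev algebras.
The recursive functions are written with recursors, for the kernel. -/

namespace Pool.Agent.MAL.Cert

/-- a scalar multiple of a canonical word: coefficient, code, parity -/
structure El where
  c : ℤ
  code : ℕ
  par : Bool

/-- pairing used for codes (`a ≥ b`) -/
def pr (a b : ℕ) : ℕ := Nat.succ (Nat.mul 2 (Nat.add (Nat.mul a (Nat.succ a)) b))

def neg1 (b : Bool) (c : ℤ) : ℤ := cond b (Int.neg c) c

def mulP (ac : ℤ) (acode : ℕ) (apar : Bool) (bc : ℤ) (bcode : ℕ) (bpar : Bool) : El :=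
  cond (Nat.blt bcode acode) ⟨Int.mul ac bc, pr acode bcode, Bool.xor apar bpar⟩
      (cond (Nat.blt acode bcode)
        ⟨neg1 (!(apar && bpar)) (Int.mul ac bc), pr bcode acode, Bool.xor apar bpar⟩
        (cond apar ⟨Int.mul ac bc, pr acode acode, false⟩ ⟨0, 0, false⟩))

/-- product, in canonical form -/
def mul (a b : El) : El := mulP a.c a.code a.par b.c b.code b.par

/-- run a postfix program (base 16 digits, least significant first) -/
noncomputable def run (P : ℕ → Bool) (f : ℕ) : ℕ → List El → List El :=
  Nat.rec (motive := fun _ => ℕ → List El → List El) (fun _ st => st)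
    (fun _ ih n st =>
      Nat.rec (motive := fun _ => List El) st (fun _ _ =>
        cond (Nat.beq (Nat.mod n 16) 15)
          (List.rec (motive := fun _ => List El) (ih (Nat.div n 16) st)
            (fun b st1 _ => List.rec (motive := fun _ => List El) (ih (Nat.div n 16) st)
              (fun a st2 _ => ih (Nat.div n 16) (mul a b :: st2)) st1) st)
          (ih (Nat.div n 16) (⟨1, Nat.mul 2 (Nat.mod n 16), P (Nat.mod n 16)⟩ :: st))) n) f

abbrev Poly := List (ℕ × ℤ)

noncomputable def mergeAux (x : ℕ × ℤ) (m : Poly → Poly) (xs : Poly) (l : Poly) : Poly :=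
  List.rec (motive := fun _ => Poly) (x :: xs) (fun y ys ih =>
    cond (Nat.blt x.1 y.1) (x :: m (y :: ys))
    (cond (Nat.blt y.1 x.1) (y :: ih)
    (cond (Int.beq' (Int.add x.2 y.2) 0) (m ys) ((x.1, Int.add x.2 y.2) :: m ys)))) l

noncomputable def merge (l : Poly) : Poly → Poly :=
  List.rec (motive := fun _ => Poly → Poly) (fun ys => ys) (fun x xs ih => mergeAux x ih xs) l

noncomputable def toPoly (a : El) (d : ℤ) : Poly := cond (Int.beq' a.c 0) [] [(a.code, Int.mul a.c d)]

noncomputable def ctx (a : El) (ts : List El) : El :=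
  List.rec (motive := fun _ => El → El) (fun a => a) (fun t _ ih a => ih (mul a t)) ts a

noncomputable def sagle (p q r s : El) (ts : List El) (d : ℤ) : Poly :=
  merge (toPoly (ctx (mul (mul (mul p q) r) s) ts) d)
  (merge (toPoly (ctx (mul (mul (mul q r) s) p) ts) (neg1 (p.par && (Bool.xor (Bool.xor q.par r.par) s.par)) d))
  (merge (toPoly (ctx (mul (mul (mul r s) p) q) ts) (neg1 ((Bool.xor p.par q.par) && (Bool.xor r.par s.par)) d))
  (merge (toPoly (ctx (mul (mul (mul s p) q) r) ts) (neg1 (s.par && (Bool.xor (Bool.xor p.par q.par) r.par)) d))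
   (toPoly (ctx (mul (mul p r) (mul q s)) ts) (neg1 (!(q.par && r.par)) d)))))

noncomputable def inst (P : ℕ → Bool) (e : ℤ × ℕ) : Poly :=
  List.rec (motive := fun _ => Poly) [] (fun p l _ =>
  List.rec (motive := fun _ => Poly) [] (fun q l _ =>
  List.rec (motive := fun _ => Poly) [] (fun r l _ =>
  List.rec (motive := fun _ => Poly) [] (fun s ts _ => sagle p q r s ts e.1) l) l) l)
   (run P 120 e.2 [])

/-- balanced sum of polynomials: `fuel`, list; sums pairs -/
noncomputable def pairUp (l : List Poly) : List Poly :=
  List.rec (motive := fun _ => Option Poly → List Poly)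
    (fun o => Option.rec [] (fun a => [a]) o)
    (fun b _ ih o => Option.rec (ih (some b)) (fun a => merge a b :: ih none) o) l none

noncomputable def sumAll (f : ℕ) : List Poly → Poly :=
  Nat.rec (motive := fun _ => List Poly → Poly) (fun _ => [(0,1)])
    (fun _ ih l => List.rec (motive := fun _ => Poly) []
      (fun a l1 _ => List.rec (motive := fun _ => Poly) a (fun _ _ _ => ih (pairUp l)) l1) l) f

/-- canonical form of a word -/
noncomputable def mkEl (P : ℕ → Bool) (t : Tr) : El :=
  Tr.rec (motive := fun _ => El) (fun i => ⟨1, Nat.mul 2 i, P i⟩) (fun _ _ a b => mul a b) t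

noncomputable def tgt (P : ℕ → Bool) (d : ℤ) (e : ℤ × Tr) : Poly :=
  toPoly (mkEl P e.2) (Int.neg (Int.mul d e.1))

/-- the certificate is a list of (coefficient, program); the program leaves the stack
`p, q, r, s, t₁, …, tₘ` and stands for the Sagle identity of `p,q,r,s` multiplied from the right by
`t₁, …, tₘ`.  The sum of all must be `d` times the target. -/
noncomputable def check (P : ℕ → Bool) (cert : List (ℤ × ℕ)) (d : ℤ) (target : List (ℤ × Tr)) : Bool :=
  (!(Int.beq' d 0)) && List.rec (motive := fun _ => Bool) true (fun _ _ _ => false)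
    (sumAll 30 (List.rec (motive := fun _ => List Poly)
      (List.rec (motive := fun _ => List Poly) [] (fun e _ ih => tgt P d e :: ih) target)
      (fun e _ ih => inst P e :: ih) cert))

end Pool.Agent.MAL.Cert
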