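import Mathlib

/-! Certificate checker for super-identities of Malcev algebras: common definitions. -/

namespace Pool.Agent.MAL.Cert

/-- nonassociative words in letters indexed by natural numbers -/
inductive Tr : Type
  | lf (i : ℕ) : Tr
  | nd (a b : Tr) : Tr

/-- value of a word -/
def Tr.val {S : Type*} [Mul S] (v : ℕ → S) : Tr → S
  | .lf i => v i
  | .nd a b => a.val v * b.val v

/-- parity of a word -/
def Tr.par (P : ℕ → Bool) : Tr → Bool
  | .lf i => P i
  | .nd a b => Bool.xor (a.par P) (b.par P)

/-- the sign `-1` for `true` -/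
def sg (b : Bool) : ℤ := bif b then -1 else 1

/-- a Malcev superalgebra: even part `H false`, odd part `H true` -/
structure SMal (S : Type*) [NonUnitalNonAssocRing S] (H : Bool → AddSubgroup S) : Prop where
  mul_mem : ∀ {p q : Bool} {a b : S}, a ∈ H p → b ∈ H q → a * b ∈ H (Bool.xor p q)
  anti : ∀ {p q : Bool} {a b : S}, a ∈ H p → b ∈ H q → a * b = sg (!(p && q)) • (b * a)
  sq : ∀ {a : S}, a ∈ H false → a * a = 0
  sagle : ∀ {p q r s : Bool} {a b c d : S}, a ∈ H p → b ∈ H q → c ∈ H r → d ∈ H s →
    ((a * b) * c) * d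
      + sg (p && Bool.xor (Bool.xor q r) s) • (((b * c) * d) * a)
      + sg (Bool.xor p q && Bool.xor r s) • (((c * d) * a) * b)
      + sg (s && Bool.xor (Bool.xor p q) r) • (((d * a) * b) * c)
      = sg (q && r) • ((a * c) * (b * d))

end Pool.Agent.MAL.Cert
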