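import Pool.Agent.MAL.TQ
import Pool.Agent.MAL.CertCORE

/-!
The CORE identity: `kap y ![x0, x1, x2, a * b, c * d] = 0` in every Malcev algebra.
-/

set_option autoImplicit false

namespace Pool.Agent.MAL

open Equiv Pool.Agent.MAL.Cert

variable {M : Type} [NonUnitalNonAssocRing M]

theorem list_sum_comm {ι A G : Type} [Fintype ι] [AddCommMonoid G] (L : List A) (f : A → ι → G) :
    (L.map fun e => ∑ s, f e s).sum = ∑ s, (L.map fun e => f e s).sum := by
  induction L with
  | nil => simp
  | cons a L ih => simp only [List.map_cons, List.sum_cons, ih, Finset.sum_add_distrib]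

/-- parities -/
def CP : ℕ → Bool := fun i => Nat.blt i 3 && Nat.blt 0 i

theorem cp1 : CP 1 = true := rfl
theorem cp2 : CP 2 = true := rfl
theorem cp3 : CP 3 = false := rfl
theorem cp4 : CP 4 = false := rfl

theorem core_point (y a : M) (p : Fin 5 → ℕ) (X : Fin 5 → M) (n : ℤ)
    (hp : ∀ i, p i = 1 ∨ p i = 2) (hc : ∑ i, (if p i = 2 then 1 else 0) = 2) :
    (CORE.target.map fun e => e.1 • if List.ofFn p = e.2.ol CP then
      n • e.2.ev CP (fun i => if i = 3 then a else y) (ext0 X) 0 else 0).sum =
      n • kl y (if p 0 = 2 then a * X 0 else X 0) (if p 1 = 2 then a * X 1 else X 1)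
        (if p 2 = 2 then a * X 2 else X 2) (if p 3 = 2 then a * X 3 else X 3)
        (if p 4 = 2 then a * X 4 else X 4) := by
  have h0 := hp 0
  have h1 := hp 1
  have h2 := hp 2
  have h3 := hp 3
  have h4 := hp 4
  have hl : List.ofFn p = [p 0, p 1, p 2, p 3, p 4] := by
    simp [List.ofFn_succ]
  rw [Fin.sum_univ_five] at hc
  rw [hl]
  generalize p 0 = q0 at *
  generalize p 1 = q1 at *
  generalize p 2 = q2 at *
  generalize p 3 = q3 at *
  generalize p 4 = q4 at *
  rcases h0 with rfl | rfl <;> rcases h1 with rfl | rfl <;> rcases h2 with rfl | rfl <;>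
    rcases h3 with rfl | rfl <;> rcases h4 with rfl | rfl <;> first
    | (exfalso; revert hc; decide)
    | (simp [CORE.target, Tr.ol, Tr.ev, Tr.no, cp1, cp2, cp3, cp4, ext0, kl, smul_add]; done)
    | (simp [CORE.target, Tr.ol, Tr.ev, Tr.no, cp1, cp2, cp3, cp4, ext0, kl, smul_add]
       exact add_comm _ _)

theorem core_super (F : Type) [Field F] [CharZero F] [Module F M] [IsScalarTower F M M]
    [SMulCommClass F M M] (hM : IsMalcev M) (y a x0 x1 x2 t0 t1 : M) :
    kap y ![x0, x1, x2, a * t0, a * t1] = 0 := by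
  have h := cert_alt F hM CP CORE.cert _ CORE.target CORE.check_ok (K := 5)
    (by decide) ![1, 1, 1, 2, 2] (fun i => if i = 3 then a else y) ![x0, x1, x2, t0, t1]
  rw [← h, kap_eq]
  unfold alt
  have h1 : ∀ e : ℤ × Tr, (e.1 • ∑ s : Perm (Fin 5),
      if List.ofFn (fun n => (![1, 1, 1, 2, 2] : Fin 5 → ℕ) (s n)) = e.2.ol CP then
        (Perm.sign s : ℤ) • e.2.ev CP (fun i => if i = 3 then a else y)
          (ext0 (fun n => (![x0, x1, x2, t0, t1] : Fin 5 → M) (s n))) 0 else 0) =
      ∑ s : Perm (Fin 5), e.1 • if List.ofFn (fun n => (![1, 1, 1, 2, 2] : Fin 5 → ℕ) (s n))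
          = e.2.ol CP then
        (Perm.sign s : ℤ) • e.2.ev CP (fun i => if i = 3 then a else y)
          (ext0 (fun n => (![x0, x1, x2, t0, t1] : Fin 5 → M) (s n))) 0 else 0 :=
    fun e => Finset.smul_sum
  simp only [h1]
  rw [list_sum_comm]
  refine Finset.sum_congr rfl fun s _ => ?_
  have hk : ∀ i : Fin 5, (![1, 1, 1, 2, 2] : Fin 5 → ℕ) i = 1 ∨
      (![1, 1, 1, 2, 2] : Fin 5 → ℕ) i = 2 := by decide
  have hc : ∑ i : Fin 5, (if (![1, 1, 1, 2, 2] : Fin 5 → ℕ) (s i) = 2 then 1 else 0) = 2 := by
    rw [Equiv.sum_comp s (fun i => if (![1, 1, 1, 2, 2] : Fin 5 → ℕ) i = 2 then 1 else 0)]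
    decide
  rw [core_point y a _ _ _ (fun i => hk (s i)) hc]
  have hz : ∀ i : Fin 5, (![x0, x1, x2, a * t0, a * t1] : Fin 5 → M) i =
      if (![1, 1, 1, 2, 2] : Fin 5 → ℕ) i = 2 then a * (![x0, x1, x2, t0, t1] : Fin 5 → M) i
      else (![x0, x1, x2, t0, t1] : Fin 5 → M) i := by
    intro i
    fin_cases i <;> rfl
  simp only [hz]

theorem kap_swap34 (y : M) (a b c d e : M) : kap y ![a, b, c, d, e] = - kap y ![a, b, c, e, d] := by
  have h := kap_comp y ![a, b, c, e, d] (swap 3 4)
  rw [Perm.sign_swap (by decide)] at h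
  simp only [Units.val_neg, Units.val_one, neg_smul, one_smul] at h
  rw [← h]
  congr 1
  funext i
  fin_cases i <;> rfl

theorem kl_update_add (y : M) (z : Fin 5 → M) (i : Fin 5) (a b : M) :
    (fun z : Fin 5 → M => kl y (z 0) (z 1) (z 2) (z 3) (z 4)) (Function.update z i (a + b)) =
      (fun z : Fin 5 → M => kl y (z 0) (z 1) (z 2) (z 3) (z 4)) (Function.update z i a) +
      (fun z : Fin 5 → M => kl y (z 0) (z 1) (z 2) (z 3) (z 4)) (Function.update z i b) := by
  fin_cases i <;>
    (simp [Function.update, kl, add_mul, mul_add]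
     abel)

theorem kap_update_add (y : M) (x : Fin 5 → M) (i : Fin 5) (a b : M) :
    kap y (Function.update x i (a + b)) =
      kap y (Function.update x i a) + kap y (Function.update x i b) := by
  rw [kap_eq, kap_eq, kap_eq]
  exact alt_update_add _ (kl_update_add y) x i a b

theorem kap_add3 (y : M) (a b c d d' e : M) :
    kap y ![a, b, c, d + d', e] = kap y ![a, b, c, d, e] + kap y ![a, b, c, d', e] := by
  have h : ∀ v, (![a, b, c, v, e] : Fin 5 → M) = Function.update ![a, b, c, d, e] 3 v := by
    intro v; funext i; fin_cases i <;> rfl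
  rw [h (d + d'), h d', kap_update_add, ← h d]

/-- **CORE**: `kap` vanishes if two of its alternating arguments are products -/
theorem core (F : Type) [Field F] [CharZero F] [Module F M] [IsScalarTower F M M]
    [SMulCommClass F M M] (hM : IsMalcev M) (y x0 x1 x2 a b c d : M) :
    kap y ![x0, x1, x2, a * b, c * d] = 0 := by
  have h0 : ∀ a t s : M, kap y ![x0, x1, x2, a * t, a * s] = 0 := fun a t s =>
    core_super F hM y a x0 x1 x2 t s
  have add4 : ∀ u v w : M, kap y ![x0, x1, x2, u, v + w] =
      kap y ![x0, x1, x2, u, v] + kap y ![x0, x1, x2, u, w] := by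
    intro u v w
    rw [kap_swap34, kap_add3, kap_swap34 y x0 x1 x2 u v, kap_swap34 y x0 x1 x2 u w, neg_add]
  have neg3 : ∀ u v : M, kap y ![x0, x1, x2, -u, v] = - kap y ![x0, x1, x2, u, v] := by
    intro u v
    have h := kap_add3 y x0 x1 x2 u (-u) v
    rw [add_neg_cancel] at h
    have h2 := kap_add3 y x0 x1 x2 0 0 v
    rw [add_zero] at h2
    have h3 : kap y ![x0, x1, x2, 0, v] = 0 := by
      have := h2.symm
      rwa [add_eq_left] at this
    rw [h3] at h
    exact eq_neg_of_add_eq_zero_right h.symm
  have neg4 : ∀ u v : M, kap y ![x0, x1, x2, u, -v] = - kap y ![x0, x1, x2, u, v] := by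
    intro u v
    rw [kap_swap34, neg3, kap_swap34 y x0 x1 x2 u v]
  -- polarisation
  have h1 : ∀ a c t s : M, kap y ![x0, x1, x2, a * t, c * s] =
      - kap y ![x0, x1, x2, c * t, a * s] := by
    intro a c t s
    have h := h0 (a + c) t s
    rw [add_mul, add_mul, kap_add3, add4, add4, h0, h0, zero_add, add_zero] at h
    exact eq_neg_of_add_eq_zero_left h
  have h2 : kap y ![x0, x1, x2, a * b, c * d] = - kap y ![x0, x1, x2, c * d, a * b] :=
    kap_swap34 y x0 x1 x2 (a * b) (c * d)
  have h3 : kap y ![x0, x1, x2, c * d, a * b] = kap y ![x0, x1, x2, a * b, c * d] := by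
    -- (c d)(a b) -> exchange c and a, then d and b
    rw [h1 c a d b, hM.anti a d, neg3, hM.anti c b, neg4, h1 d b a c, hM.anti b a, neg3,
      hM.anti d c, neg4]
    simp
  rw [h3] at h2
  have h4 : kap y ![x0, x1, x2, a * b, c * d] + kap y ![x0, x1, x2, a * b, c * d] = 0 := by
    nth_rewrite 1 [h2]
    simp
  exact IsMalcev.cancel2 F h4

theorem exists_perm (i j : Fin 5) (h : i ≠ j) : ∃ τ : Perm (Fin 5), τ 3 = i ∧ τ 4 = j := by
  have h1 : swap 3 i j ≠ 3 := by
    intro h'
    apply h
    have := (swap (3 : Fin 5) i).injective (h'.trans (swap_apply_right 3 i).symm)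
    exact this.symm
  refine ⟨swap 3 i * swap 4 (swap 3 i j), ?_, ?_⟩
  · rw [Perm.mul_apply, swap_apply_of_ne_of_ne (by decide) h1.symm, swap_apply_left]
  · rw [Perm.mul_apply, swap_apply_left, swap_apply_self]

/-- `kap` vanishes if two of its alternating arguments are products -/
theorem core' (F : Type) [Field F] [CharZero F] [Module F M] [IsScalarTower F M M]
    [SMulCommClass F M M] (hM : IsMalcev M) (y : M) (x : Fin 5 → M) (i j : Fin 5) (hij : i ≠ j)
    (a b c d : M) (hi : x i = a * b) (hj : x j = c * d) : kap y x = 0 := by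
  obtain ⟨τ, h3, h4⟩ := exists_perm i j hij
  have h := kap_comp y x τ
  have hx : (fun k => x (τ k)) = ![x (τ 0), x (τ 1), x (τ 2), a * b, c * d] := by
    funext k
    fin_cases k
    · rfl
    · rfl
    · rfl
    · change x (τ 3) = a * b
      rw [h3, hi]
    · change x (τ 4) = c * d
      rw [h4, hj]
  rw [hx, core F hM] at h
  rcases Int.units_eq_one_or (Perm.sign τ) with hs | hs
  · rw [hs] at h
    simpa using h.symm
  · rw [hs] at h
    simpa using h.symm

theorem kl_update_smul {F : Type} [Field F] [Module F M] [IsScalarTower F M M]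
    [SMulCommClass F M M] (y : M) (z : Fin 5 → M) (i : Fin 5) (c : F) (a : M) :
    (fun z : Fin 5 → M => kl y (z 0) (z 1) (z 2) (z 3) (z 4)) (Function.update z i (c • a)) =
      c • (fun z : Fin 5 → M => kl y (z 0) (z 1) (z 2) (z 3) (z 4)) (Function.update z i a) := by
  fin_cases i <;>
    simp [Function.update, kl, smul_mul_assoc, mul_smul_comm, smul_add]

theorem kap_update_smul {F : Type} [Field F] [Module F M] [IsScalarTower F M M]
    [SMulCommClass F M M] (y : M) (x : Fin 5 → M) (i : Fin 5) (c : F) (a : M) :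
    kap y (Function.update x i (c • a)) = c • kap y (Function.update x i a) := by
  rw [kap_eq, kap_eq]
  exact alt_update_smul _ (kl_update_smul y) x i c a

theorem kap_update_zero (y : M) (x : Fin 5 → M) (i : Fin 5) :
    kap y (Function.update x i 0) = 0 := by
  have h := kap_update_add y x i 0 0
  rw [add_zero] at h
  exact (add_eq_left.mp h.symm)

/-- the square of an algebra -/
def sq2 (F M : Type) [Field F] [NonUnitalNonAssocRing M] [Module F M] : Submodule F M :=
  Submodule.span F {m : M | ∃ x y : M, x * y = m}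

/-- **CORE**: `kap` vanishes if two of its alternating arguments are in the square -/
theorem core_span (F : Type) [Field F] [CharZero F] [Module F M] [IsScalarTower F M M]
    [SMulCommClass F M M] (hM : IsMalcev M) (y : M) (x : Fin 5 → M) (i j : Fin 5) (hij : i ≠ j)
    (hi : x i ∈ sq2 F M) (hj : x j ∈ sq2 F M) : kap y x = 0 := by
  have key : ∀ u ∈ sq2 F M, ∀ v ∈ sq2 F M,
      kap y (Function.update (Function.update x i u) j v) = 0 := by
    intro u hu v hv
    unfold sq2 at hu hv
    induction hv using Submodule.span_induction with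
    | mem v hv =>
      obtain ⟨c, d, rfl⟩ := hv
      induction hu using Submodule.span_induction with
      | mem u hu =>
        obtain ⟨a, b, rfl⟩ := hu
        refine core' F hM y _ i j hij a b c d ?_ ?_
        · rw [Function.update_of_ne hij, Function.update_self]
        · rw [Function.update_self]
      | zero => rw [Function.update_comm hij, kap_update_zero]
      | add a b _ _ ha hb =>
        rw [Function.update_comm hij] at ha hb ⊢
        rw [kap_update_add, ha, hb, add_zero]
      | smul c a _ ha =>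
        rw [Function.update_comm hij] at ha ⊢
        rw [kap_update_smul, ha, smul_zero]
    | zero => rw [kap_update_zero]
    | add a b _ _ ha hb => rw [kap_update_add, ha, hb, add_zero]
    | smul c a _ ha => rw [kap_update_smul, ha, smul_zero]
  have h := key _ hi _ hj
  rwa [Function.update_eq_self, Function.update_eq_self] at h

end Pool.Agent.MAL
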