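import Pool.Agent.MAL.Nest
import Pool.Agent.MAL.Certs.I5
import Pool.Agent.MAL.Certs.I3
import Pool.Agent.MAL.Certs.I6
import Pool.Agent.MAL.Certs.I4
import Pool.Agent.MAL.Certs.I8
import Pool.Agent.MAL.Certs.I11
import Pool.Agent.MAL.Certs.R6

/-!
Alternating identities of degree `4`, .., `7` of Malcev algebras (the last ones modulo `kap`).
-/

set_option autoImplicit false

namespace Pool.Agent.MAL

open Equiv Pool.Agent.MAL.Cert

variable {M : Type} [NonUnitalNonAssocRing M]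

theorem zcancel (F : Type) [Field F] [CharZero F] [Module F M] (n : ℤ) (hn : n ≠ 0) {a : M}
    (h : n • a = 0) : a = 0 := by
  rw [← Int.cast_smul_eq_zsmul F] at h
  exact (smul_eq_zero.mp h).resolve_left (by exact_mod_cast hn)

/-- `T` of four different letters inside an alternating sum -/
theorem T_nest {K : ℕ} (a b c d : Fin K) (h : Function.Injective ![a, b, c, d])
    (u : (Fin K → M) → M)
    (hu : ∀ t t', (∀ i, i ≠ a → i ≠ b → i ≠ c → i ≠ d → t i = t' i) → u t = u t')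
    (x : Fin K → M) :
    alt K (fun t => T ![t a, t b, t c, t d] (u t)) x =
      (24 : ℤ) • alt K (fun t => w5 (t a) (t b) (t c) (t d) (u t)) x :=
  nest4 a b c d h (fun p q r s t => w5 p q r s (u t)) (fun p q r s t t' h => by
    rw [hu t t' h]) x

set_option maxRecDepth 40000 in
set_option maxHeartbeats 4000000 in
theorem I5.form (F : Type) [Field F] [CharZero F] [Module F M] [IsScalarTower F M M]
    [SMulCommClass F M M] (hM : IsMalcev M) (x : Fin 4 → M) :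
    alt 4 (fun e =>
      ((3 : ℤ) • ((e 0 * e 1) * (e 2 * e 3)) + ((3 : ℤ) • ((e 1 * (e 2 * e 3)) * e 0) + ((3 : ℤ) • (((e 2 * e 3) * e 0) * e 1) + ((-2 : ℤ) • (((e 0 * e 1) * e 2) * e 3) + ((-2 : ℤ) • (((e 1 * e 2) * e 0) * e 3) + ((-2 : ℤ) • (((e 2 * e 0) * e 1) * e 3) + 0))))))) x = 0 :=
  cert_disp F hM I5.P I5.cert 1 I5.target I5.ok 1 (by decide)
    (lett []) x


theorem idI5 (F : Type) [Field F] [CharZero F] [Module F M] [IsScalarTower F M M]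
    [SMulCommClass F M M] (hM : IsMalcev M) (x : Fin 4 → M) :
    alt 4 (fun t => (3 : ℤ) • J3 (t 0) (t 1) (t 2 * t 3)
      - (2 : ℤ) • (J3 (t 0) (t 1) (t 2) * t 3)) x = 0 := by
  rw [← I5.form F hM x]
  congr 1
  funext t
  simp only [J3, add_mul, smul_add]
  abel

set_option maxRecDepth 40000 in
set_option maxHeartbeats 4000000 in
theorem I3.form (F : Type) [Field F] [CharZero F] [Module F M] [IsScalarTower F M M]
    [SMulCommClass F M M] (hM : IsMalcev M) (x : Fin 5 → M) :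
    alt 5 (fun e =>
      ((72 : ℤ) • ((((e 0 * e 1) * e 2) * e 3) * e 4) + ((72 : ℤ) • ((((e 1 * e 2) * e 0) * e 3) * e 4) + ((72 : ℤ) • ((((e 2 * e 0) * e 1) * e 3) * e 4) + ((360 : ℤ) • ((((e 0 * e 1) * e 2) * e 4) * e 3) + ((216 : ℤ) • (((e 0 * e 1) * e 2) * (e 4 * e 3)) + ((216 : ℤ) • ((e 0 * (e 4 * e 1)) * (e 2 * e 3)) + ((-216 : ℤ) • (((e 4 * e 0) * (e 1 * e 2)) * e 3) + ((72 : ℤ) • ((((e 4 * e 0) * e 1) * e 2) * e 3) + ((72 : ℤ) • ((e 0 * e 1) * ((e 4 * e 2) * e 3)) + ((-72 : ℤ) • ((e 0 * ((e 4 * e 1) * e 2)) * e 3) + 0))))))))))) x = 0 :=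
  cert_disp F hM I3.P I3.cert 1 I3.target I3.ok 1 (by decide)
    (lett []) x


theorem idI3 (F : Type) [Field F] [CharZero F] [Module F M] [IsScalarTower F M M]
    [SMulCommClass F M M] (hM : IsMalcev M) (x : Fin 5 → M) :
    alt 5 (fun t => (72 : ℤ) • ((J3 (t 0) (t 1) (t 2) * t 3) * t 4)
      + T ![t 0, t 1, t 2, t 3] (t 4)) x = 0 := by
  rw [← I3.form F hM x, alt_add, T_nest 0 1 2 3 (by decide) (fun t => t 4)
    (fun t t' h => h 4 (by decide) (by decide) (by decide) (by decide)), ← alt_zsmul, ← alt_add]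
  congr 1
  funext t
  simp only [J3, w5, add_mul, smul_add, smul_sub, smul_smul]
  abel

set_option maxRecDepth 40000 in
set_option maxHeartbeats 4000000 in
theorem I6.form (F : Type) [Field F] [CharZero F] [Module F M] [IsScalarTower F M M]
    [SMulCommClass F M M] (hM : IsMalcev M) (x : Fin 5 → M) :
    alt 5 (fun e =>
      ((108 : ℤ) • ((e 0 * e 1) * (e 2 * (e 3 * e 4))) + ((108 : ℤ) • ((e 1 * (e 2 * (e 3 * e 4))) * e 0) + ((108 : ℤ) • (((e 2 * (e 3 * e 4)) * e 0) * e 1) + ((-360 : ℤ) • ((((e 0 * e 1) * e 2) * e 4) * e 3) + ((-216 : ℤ) • (((e 0 * e 1) * e 2) * (e 4 * e 3)) + ((-216 : ℤ) • ((e 0 * (e 4 * e 1)) * (e 2 * e 3)) + ((216 : ℤ) • (((e 4 * e 0) * (e 1 * e 2)) * e 3) + ((-72 : ℤ) • ((((e 4 * e 0) * e 1) * e 2) * e 3) + ((-72 : ℤ) • ((e 0 * e 1) * ((e 4 * e 2) * e 3)) + ((72 : ℤ) • ((e 0 * ((e 4 * e 1) * e 2)) * e 3) + 0))))))))))) x = 0 :=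
  cert_disp F hM I6.P I6.cert 1 I6.target I6.ok 1 (by decide)
    (lett []) x


theorem idI6 (F : Type) [Field F] [CharZero F] [Module F M] [IsScalarTower F M M]
    [SMulCommClass F M M] (hM : IsMalcev M) (x : Fin 5 → M) :
    alt 5 (fun t => (108 : ℤ) • J3 (t 0) (t 1) (t 2 * (t 3 * t 4))
      - T ![t 0, t 1, t 2, t 3] (t 4)) x = 0 := by
  rw [← I6.form F hM x, alt_sub, T_nest 0 1 2 3 (by decide) (fun t => t 4)
    (fun t t' h => h 4 (by decide) (by decide) (by decide) (by decide)), ← alt_zsmul, ← alt_sub]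
  congr 1
  funext t
  simp only [J3, w5, add_mul, smul_add, smul_sub, smul_smul]
  abel

set_option maxRecDepth 40000 in
set_option maxHeartbeats 4000000 in
theorem I4.form (F : Type) [Field F] [CharZero F] [Module F M] [IsScalarTower F M M]
    [SMulCommClass F M M] (hM : IsMalcev M) (v : M) (x : Fin 5 → M) :
    alt 5 (fun e =>
      ((90 : ℤ) • ((((e 0 * e 1) * e 2) * v) * (e 3 * e 4)) + ((54 : ℤ) • (((e 0 * e 1) * e 2) * (v * (e 3 * e 4))) + ((54 : ℤ) • ((e 0 * (v * e 1)) * (e 2 * (e 3 * e 4))) + ((-54 : ℤ) • (((v * e 0) * (e 1 * e 2)) * (e 3 * e 4)) + ((18 : ℤ) • ((((v * e 0) * e 1) * e 2) * (e 3 * e 4)) + ((18 : ℤ) • ((e 0 * e 1) * ((v * e 2) * (e 3 * e 4))) + ((-18 : ℤ) • ((e 0 * ((v * e 1) * e 2)) * (e 3 * e 4)) + ((-90 : ℤ) • ((((e 0 * e 1) * (e 3 * e 4)) * v) * e 2) + ((-54 : ℤ) • (((e 0 * e 1) * (e 3 * e 4)) * (v * e 2)) + ((-54 : ℤ) • ((e 0 * (v * e 1)) *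 ((e 3 * e 4) * e 2)) + ((54 : ℤ) • (((v * e 0) * (e 1 * (e 3 * e 4))) * e 2) + ((-18 : ℤ) • ((((v * e 0) * e 1) * (e 3 * e 4)) * e 2) + ((-18 : ℤ) • ((e 0 * e 1) * ((v * (e 3 * e 4)) * e 2)) + ((18 : ℤ) • ((e 0 * ((v * e 1) * (e 3 * e 4))) * e 2) + ((90 : ℤ) • ((((e 0 * (e 3 * e 4)) * e 1) * v) * e 2) + ((54 : ℤ) • (((e 0 * (e 3 * e 4)) * e 1) * (v * e 2)) + ((54 : ℤ) • ((e 0 * (v * (e 3 * e 4))) * (e 1 * e 2)) + ((-54 : ℤ) • (((v * e 0) * ((e 3 * e 4) * e 1)) * e 2) + ((18 : ℤ) • ((((v * e 0) * (e 3 * e 4)) * e 1) * e 2) + ((18 : ℤ) • ((e 0 * (e 3 * e 4)) * ((v * e 1) * e 2)) + ((-18 : ℤ) • ((e 0 * ((v * (e 3 * e 4)) * e 1)) * e 2) + ((-90 : ℤ) • (((((e 3 * e 4) * e 0) * e 1) * v) * e 2) + ((-54 : ℤ) • ((((e 3 * e 4) * e 0) * e 1) * (v * e 2)) + ((-54 : ℤ) • (((e 3 * e 4) * (v * e 0)) * (e 1 * e 2)) + ((54 : ℤ) • (((v * (e 3 * e 4)) * (e 0 * e 1)) * e 2) + ((-18 : ℤ)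 • ((((v * (e 3 * e 4)) * e 0) * e 1) * e 2) + ((-18 : ℤ) • (((e 3 * e 4) * e 0) * ((v * e 1) * e 2)) + ((18 : ℤ) • (((e 3 * e 4) * ((v * e 0) * e 1)) * e 2) + ((-144 : ℤ) • ((v * e 0) * (((e 1 * e 2) * e 3) * e 4)) + ((-144 : ℤ) • ((v * (((e 0 * e 1) * e 2) * e 3)) * e 4) + 0))))))))))))))))))))))))))))))) x = 0 :=
  cert_disp F hM I4.P I4.cert 1 I4.target I4.ok 1 (by decide)
    (lett [v]) x


theorem idI4 (F : Type) [Field F] [CharZero F] [Module F M] [IsScalarTower F M M]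
    [SMulCommClass F M M] (hM : IsMalcev M) (hk : ∀ (y : M) (x : Fin 5 → M), kap y x = 0) (v : M) (x : Fin 5 → M) :
    alt 5 (fun t => T ![t 0, t 1, t 2, t 3 * t 4] v) x = 0 := by
  have h1 : ∀ t : Fin 5 → M, T ![t 0, t 1, t 2, t 3 * t 4] v =
      alt 3 (fun s => w5 (s 0) (s 1) (s 2) (t 3 * t 4) v - w5 (s 0) (s 1) (t 3 * t 4) (s 2) v
        + w5 (s 0) (t 3 * t 4) (s 1) (s 2) v - w5 (t 3 * t 4) (s 0) (s 1) (s 2) v)
        ![t 0, t 1, t 2] := by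
    intro t
    have h2 : T ![t 0, t 1, t 2, t 3 * t 4] v = - T ![t 3 * t 4, t 0, t 1, t 2] v := by
      have h := T_comp ![t 3 * t 4, t 0, t 1, t 2] v (finRotate 4)
      have h3 : ((Perm.sign (finRotate 4)) : ℤ) = -1 := by rw [sign_finRotate]; norm_num
      rw [h3, neg_smul, one_smul] at h
      rw [← h]
      congr 1
      funext i
      fin_cases i <;> rfl
    have h4 : T ![t 3 * t 4, t 0, t 1, t 2] v = alt 4 (fun z => w5 (z 0) (z 1) (z 2) (z 3) v)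
      (Fin.cons (t 3 * t 4) ![t 0, t 1, t 2]) := rfl
    rw [h2, h4, alt_cons4, ← alt_neg]
    congr 1
    funext s
    simp only [Matrix.cons_val]
    abel
  simp only [h1]
  rw [nest3 0 1 2 (by decide) (fun a b c t => w5 a b c (t 3 * t 4) v - w5 a b (t 3 * t 4) c v
        + w5 a (t 3 * t 4) b c v - w5 (t 3 * t 4) a b c v) (fun a b c t t' h => by
    rw [h 3 (by decide) (by decide) (by decide), h 4 (by decide) (by decide) (by decide)])]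
  have h2 := I4.form F hM v x
  have h3 : alt 5 (fun t => kl v (t 0) (t 1) (t 2) (t 3) (t 4)) x = 0 := by
    rw [← kap_eq, hk]
  rw [← h2]
  have h4 : ∀ u : M, u = u - (144 : ℤ) • alt 5 (fun t => kl v (t 0) (t 1) (t 2) (t 3) (t 4)) x := by
    intro u; rw [h3]; simp
  rw [h4 ((6 : ℤ) • _), ← alt_zsmul, ← alt_zsmul, ← alt_sub]
  congr 1
  funext t
  simp only [kl, w5, smul_add, smul_sub, smul_smul]
  abel

set_option maxRecDepth 40000 in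
set_option maxHeartbeats 4000000 in
theorem I8.form (F : Type) [Field F] [CharZero F] [Module F M] [IsScalarTower F M M]
    [SMulCommClass F M M] (hM : IsMalcev M) (x : Fin 6 → M) :
    alt 6 (fun e =>
      ((312 : ℤ) • ((e 0 * e 1) * (((e 2 * e 3) * e 4) * e 5)) + ((24 : ℤ) • ((e 0 * e 1) * (((e 3 * e 4) * e 2) * e 5)) + ((24 : ℤ) • ((e 0 * e 1) * (((e 4 * e 2) * e 3) * e 5)) + ((24 : ℤ) • ((e 1 * (((e 2 * e 3) * e 4) * e 5)) * e 0) + ((24 : ℤ) • ((e 1 * (((e 3 * e 4) * e 2) * e 5)) * e 0) + ((24 : ℤ) • ((e 1 * (((e 4 * e 2) * e 3) * e 5)) * e 0) + ((24 : ℤ) • (((((e 2 * e 3) * e 4) * e 5) * e 0) * e 1) + ((24 : ℤ) • (((((e 3 * e 4) * e 2) * e 5) * e 0) * e 1) + ((24 : ℤ) • (((((e 4 * e 2) * e 3) * e 5) * e 0) * e 1) + ((360 : ℤ) • ((((e 0 * e 1) * e 2) * (e 4 * e 5)) * e 3) + ((216 : ℤ) • (((e 0 * e 1) * e 2) * ((e 4 * e 5) * e 3)) + ((216 : ℤ) • ((e 0 * ((e 4 * e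 5) * e 1)) * (e 2 * e 3)) + ((-216 : ℤ) • ((((e 4 * e 5) * e 0) * (e 1 * e 2)) * e 3) + ((72 : ℤ) • (((((e 4 * e 5) * e 0) * e 1) * e 2) * e 3) + ((72 : ℤ) • ((e 0 * e 1) * (((e 4 * e 5) * e 2) * e 3)) + ((-72 : ℤ) • ((e 0 * (((e 4 * e 5) * e 1) * e 2)) * e 3) + ((288 : ℤ) • ((e 0 * (((e 1 * e 2) * e 3) * e 4)) * e 5) + 0)))))))))))))))))) x = 0 :=
  cert_disp F hM I8.P I8.cert 1 I8.target I8.ok 1 (by decide)
    (lett []) x


theorem idI8 (F : Type) [Field F] [CharZero F] [Module F M] [IsScalarTower F M M]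
    [SMulCommClass F M M] (hM : IsMalcev M) (hk : ∀ (y : M) (x : Fin 5 → M), kap y x = 0) (x : Fin 6 → M) :
    alt 6 (fun t => (24 : ℤ) • J3 (t 0) (t 1) (J3 (t 2) (t 3) (t 4) * t 5)
      + T ![t 0, t 1, t 2, t 3] (t 4 * t 5)) x = 0 := by
  have h5 : alt 6 (fun t => kap (t 0) ![t 1, t 2, t 3, t 4, t 5]) x = 0 := by
    simp only [hk]; exact alt_zero _
  simp only [kap_eq] at h5
  rw [nest5 1 2 3 4 5 (by decide) (fun a b c d e t => kl (t 0) a b c d e)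
    (fun a b c d e t t' h => by
      rw [h 0 (by decide) (by decide) (by decide) (by decide) (by decide)])] at h5
  have h6 : alt 6 (fun t => kl (t 0) (t 1) (t 2) (t 3) (t 4) (t 5)) x = 0 :=
    zcancel F 120 (by norm_num) h5
  rw [alt_add, T_nest 0 1 2 3 (by decide) (fun t => t 4 * t 5)
    (fun t t' h => by rw [h 4 (by decide) (by decide) (by decide) (by decide),
      h 5 (by decide) (by decide) (by decide) (by decide)]), ← alt_zsmul, ← alt_add]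
  have h2 := I8.form F hM x
  rw [← h2]
  have h4 : ∀ u : M, u = u + (288 : ℤ) •
      alt 6 (fun t => kl (t 0) (t 1) (t 2) (t 3) (t 4) (t 5)) x := by
    intro u; rw [h6]; simp
  rw [h4 (alt 6 _ x), ← alt_zsmul, ← alt_add]
  congr 1
  funext t
  simp only [kl, w5, J3, add_mul, mul_add, smul_add, smul_sub, smul_smul]
  abel

set_option maxRecDepth 40000 in
set_option maxHeartbeats 4000000 in
theorem I11.form (F : Type) [Field F] [CharZero F] [Module F M] [IsScalarTower F M M]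
    [SMulCommClass F M M] (hM : IsMalcev M) (x : Fin 7 → M) :
    alt 7 (fun e =>
      ((360 : ℤ) • ((((e 0 * e 1) * e 2) * ((e 4 * e 5) * e 6)) * e 3) + ((216 : ℤ) • (((e 0 * e 1) * e 2) * (((e 4 * e 5) * e 6) * e 3)) + ((216 : ℤ) • ((e 0 * (((e 4 * e 5) * e 6) * e 1)) * (e 2 * e 3)) + ((-216 : ℤ) • (((((e 4 * e 5) * e 6) * e 0) * (e 1 * e 2)) * e 3) + ((72 : ℤ) • ((((((e 4 * e 5) * e 6) * e 0) * e 1) * e 2) * e 3) + ((72 : ℤ) • ((e 0 * e 1) * ((((e 4 * e 5) * e 6) * e 2) * e 3)) + ((-72 : ℤ) • ((e 0 * ((((e 4 * e 5) * e 6) * e 1) * e 2)) * e 3) + ((216 : ℤ) • (((e 0 * e 1) * e 2) * (((e 3 * e 4) * e 5) * e 6)) + ((216 : ℤ) • (((e 0 * e 1) * (((e 2 * e 3) * e 4) * e 5)) * e 6) + ((-72 : ℤ) • ((e 0 * (e 1 * e 2)) * (((e 3 * e 4) * e 5) * e 6)) + ((-72 : ℤ) • ((e 0 * ((((e 1 * e 2) * e 3) * e 4) * e 5)) * e 6) + ((72 : ℤ) • ((e 0 * e 3) * ((((e 1 * e 2) * e 4) * e 5) *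 e 6)) + ((72 : ℤ) • ((e 0 * (((e 3 * (e 1 * e 2)) * e 4) * e 5)) * e 6) + ((-72 : ℤ) • ((e 0 * e 3) * (((e 4 * (e 1 * e 2)) * e 5) * e 6)) + ((-72 : ℤ) • ((e 0 * (((e 3 * e 4) * (e 1 * e 2)) * e 5)) * e 6) + ((72 : ℤ) • ((e 0 * e 3) * (((e 4 * e 5) * (e 1 * e 2)) * e 6)) + ((72 : ℤ) • ((e 0 * (((e 3 * e 4) * e 5) * (e 1 * e 2))) * e 6) + ((-72 : ℤ) • ((e 0 * e 3) * (((e 4 * e 5) * e 6) * (e 1 * e 2))) + ((-72 : ℤ) • ((e 0 * (((e 3 * e 4) * e 5) * e 6)) * (e 1 * e 2)) + 0)))))))))))))))))))) x = 0 :=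
  cert_disp F hM I11.P I11.cert 1 I11.target I11.ok 1 (by decide)
    (lett []) x


theorem idI11 (F : Type) [Field F] [CharZero F] [Module F M] [IsScalarTower F M M]
    [SMulCommClass F M M] (hM : IsMalcev M) (hk : ∀ (y : M) (x : Fin 5 → M), kap y x = 0) (x : Fin 7 → M) :
    alt 7 (fun t => T ![t 0, t 1, t 2, t 3] ((t 4 * t 5) * t 6)) x = 0 := by
  have h5 : alt 7 (fun t => kap (t 0 * t 1) ![t 2, t 3, t 4, t 5, t 6]) x = 0 := by
    simp only [hk]; exact alt_zero _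
  simp only [kap_eq] at h5
  rw [nest5 2 3 4 5 6 (by decide) (fun a b c d e t => kl (t 0 * t 1) a b c d e)
    (fun a b c d e t t' h => by
      rw [h 0 (by decide) (by decide) (by decide) (by decide) (by decide),
        h 1 (by decide) (by decide) (by decide) (by decide) (by decide)])] at h5
  have h6 := zcancel F 120 (by norm_num) h5
  have h7 : alt 7 (fun t => kap (t 0) (Fin.cons (t 1 * t 2) ![t 3, t 4, t 5, t 6])) x = 0 := by
    simp only [hk]; exact alt_zero _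
  simp only [kap_eq, alt_cons5, Matrix.cons_val] at h7
  rw [nest4 3 4 5 6 (by decide) (fun a b c d t => kl (t 0) (t 1 * t 2) a b c d
    - kl (t 0) a (t 1 * t 2) b c d + kl (t 0) a b (t 1 * t 2) c d - kl (t 0) a b c (t 1 * t 2) d
    + kl (t 0) a b c d (t 1 * t 2))
    (fun a b c d t t' h => by
      rw [h 0 (by decide) (by decide) (by decide) (by decide),
        h 1 (by decide) (by decide) (by decide) (by decide),
        h 2 (by decide) (by decide) (by decide) (by decide)])] at h7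
  have h8 := zcancel F 24 (by norm_num) h7
  rw [T_nest 0 1 2 3 (by decide) (fun t => (t 4 * t 5) * t 6)
    (fun t t' h => by rw [h 4 (by decide) (by decide) (by decide) (by decide),
      h 5 (by decide) (by decide) (by decide) (by decide),
      h 6 (by decide) (by decide) (by decide) (by decide)])]
  have h2 := I11.form F hM x
  rw [← h2]
  have h4 : ∀ u : M, u = u + (216 : ℤ) •
      alt 7 (fun t => kl (t 0 * t 1) (t 2) (t 3) (t 4) (t 5) (t 6)) x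
      - (72 : ℤ) • alt 7 (fun t => kl (t 0) (t 1 * t 2) (t 3) (t 4) (t 5) (t 6)
    - kl (t 0) (t 3) (t 1 * t 2) (t 4) (t 5) (t 6) + kl (t 0) (t 3) (t 4) (t 1 * t 2) (t 5) (t 6)
    - kl (t 0) (t 3) (t 4) (t 5) (t 1 * t 2) (t 6)
    + kl (t 0) (t 3) (t 4) (t 5) (t 6) (t 1 * t 2)) x := by
    intro u; rw [h6, h8]; simp
  rw [h4 ((24 : ℤ) • _), ← alt_zsmul, ← alt_zsmul, ← alt_zsmul, ← alt_add, ← alt_sub]
  congr 1
  funext t
  simp only [kl, w5, add_mul, mul_add, smul_add, smul_sub, smul_smul]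
  abel

set_option maxRecDepth 40000 in
set_option maxHeartbeats 4000000 in
theorem R6.form (F : Type) [Field F] [CharZero F] [Module F M] [IsScalarTower F M M]
    [SMulCommClass F M M] (hM : IsMalcev M) (v : M) (x : Fin 5 → M) :
    alt 5 (fun e =>
      ((1080 : ℤ) • (((((e 0 * e 1) * e 2) * e 4) * e 3) * v) + ((648 : ℤ) • ((((e 0 * e 1) * e 2) * (e 4 * e 3)) * v) + ((648 : ℤ) • (((e 0 * (e 4 * e 1)) * (e 2 * e 3)) * v) + ((-648 : ℤ) • ((((e 4 * e 0) * (e 1 * e 2)) * e 3) * v) + ((216 : ℤ) • (((((e 4 * e 0) * e 1) * e 2) * e 3) * v) + ((216 : ℤ) • (((e 0 * e 1) * ((e 4 * e 2) * e 3)) * v) + ((-216 : ℤ) • (((e 0 * ((e 4 * e 1) * e 2)) * e 3) * v) + ((180 : ℤ) • ((((v * e 0) * e 1) * (e 3 * e 4)) * e 2) + ((108 : ℤ) • (((v * e 0) * e 1) * ((e 3 * e 4) * e 2)) + ((108 : ℤ) • ((v * ((e 3 * e 4) * e 0)) * (e 1 * e 2)) + ((-108 : ℤ) • ((((e 3 * e 4) * v) * (e 0 * e 1)) *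 e 2) + ((36 : ℤ) • (((((e 3 * e 4) * v) * e 0) * e 1) * e 2) + ((36 : ℤ) • ((v * e 0) * (((e 3 * e 4) * e 1) * e 2)) + ((-36 : ℤ) • ((v * (((e 3 * e 4) * e 0) * e 1)) * e 2) + ((-180 : ℤ) • ((((e 0 * v) * e 1) * (e 3 * e 4)) * e 2) + ((-108 : ℤ) • (((e 0 * v) * e 1) * ((e 3 * e 4) * e 2)) + ((-108 : ℤ) • ((e 0 * ((e 3 * e 4) * v)) * (e 1 * e 2)) + ((108 : ℤ) • ((((e 3 * e 4) * e 0) * (v * e 1)) * e 2) + ((-36 : ℤ) • (((((e 3 * e 4) * e 0) * v) * e 1) * e 2) + ((-36 : ℤ) • ((e 0 * v) * (((e 3 * e 4) * e 1) * e 2)) + ((36 : ℤ) • ((e 0 * (((e 3 * e 4) * v) * e 1)) * e 2) + ((180 : ℤ) • ((((e 0 * e 1) * v) * (e 3 * e 4)) * e 2) + ((108 : ℤ) • (((e 0 * e 1) * v) * ((e 3 * e 4) * e 2)) + ((108 : ℤ) • ((e 0 * ((e 3 * e 4) * e 1)) * (v * e 2)) + ((-108 : ℤ) • ((((e 3 * e 4) * e 0) * (e 1 * v)) * e 2) + ((36 : ℤ) • (((((e 3 * e 4) * e 0) * e 1) * v) * e 2) + ((36 : ℤ) • ((e 0 *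 e 1) * (((e 3 * e 4) * v) * e 2)) + ((-36 : ℤ) • ((e 0 * (((e 3 * e 4) * e 1) * v)) * e 2) + ((-180 : ℤ) • ((((e 0 * e 1) * e 2) * (e 3 * e 4)) * v) + ((-108 : ℤ) • (((e 0 * e 1) * e 2) * ((e 3 * e 4) * v)) + ((-108 : ℤ) • ((e 0 * ((e 3 * e 4) * e 1)) * (e 2 * v)) + ((108 : ℤ) • ((((e 3 * e 4) * e 0) * (e 1 * e 2)) * v) + ((-36 : ℤ) • (((((e 3 * e 4) * e 0) * e 1) * e 2) * v) + ((-36 : ℤ) • ((e 0 * e 1) * (((e 3 * e 4) * e 2) * v)) + ((36 : ℤ) • ((e 0 * (((e 3 * e 4) * e 1) * e 2)) * v) + ((360 : ℤ) • ((((e 0 * e 1) * e 2) * (v * e 4)) * e 3) + ((216 : ℤ) • (((e 0 * e 1) * e 2) * ((v * e 4) * e 3)) + ((216 : ℤ) • ((e 0 * ((v * e 4) * e 1)) * (e 2 * e 3)) + ((-216 : ℤ) • ((((v * e 4) * e 0) * (e 1 * e 2)) * e 3) + ((72 : ℤ) • (((((v * e 4) * e 0) * e 1) * e 2) * e 3) + ((72 : ℤ) • ((e 0 * e 1) * (((v * e 4) * e 2) * e 3)) + ((-72 : ℤ) • ((e 0 * (((v * e 4) * e 1) * e 2))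 * e 3) + ((360 : ℤ) • (((((v * e 1) * e 2) * e 0) * e 3) * e 4) + ((216 : ℤ) • ((((v * e 1) * e 2) * (e 0 * e 3)) * e 4) + ((216 : ℤ) • (((v * (e 0 * e 1)) * (e 2 * e 3)) * e 4) + ((-216 : ℤ) • ((((e 0 * v) * (e 1 * e 2)) * e 3) * e 4) + ((72 : ℤ) • (((((e 0 * v) * e 1) * e 2) * e 3) * e 4) + ((72 : ℤ) • (((v * e 1) * ((e 0 * e 2) * e 3)) * e 4) + ((-72 : ℤ) • (((v * ((e 0 * e 1) * e 2)) * e 3) * e 4) + ((-360 : ℤ) • (((((e 1 * v) * e 2) * e 0) * e 3) * e 4) + ((-216 : ℤ) • ((((e 1 * v) * e 2) * (e 0 * e 3)) * e 4) + ((-216 : ℤ) • (((e 1 * (e 0 * v)) * (e 2 * e 3)) * e 4) + ((216 : ℤ) • ((((e 0 * e 1) * (v * e 2)) * e 3) * e 4) + ((-72 : ℤ) • (((((e 0 * e 1) * v) * e 2) * e 3) * e 4) + ((-72 : ℤ) • (((e 1 * v) * ((e 0 * e 2) * e 3)) * e 4) + ((72 : ℤ) • (((e 1 * ((e 0 * v) * e 2)) * e 3) * e 4) + ((360 : ℤ) • (((((e 1 * e 2) * v) * e 0) * e 3) * e 4) + ((216 : ℤ) • ((((e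 1 * e 2) * v) * (e 0 * e 3)) * e 4) + ((216 : ℤ) • (((e 1 * (e 0 * e 2)) * (v * e 3)) * e 4) + ((-216 : ℤ) • ((((e 0 * e 1) * (e 2 * v)) * e 3) * e 4) + ((72 : ℤ) • (((((e 0 * e 1) * e 2) * v) * e 3) * e 4) + ((72 : ℤ) • (((e 1 * e 2) * ((e 0 * v) * e 3)) * e 4) + ((-72 : ℤ) • (((e 1 * ((e 0 * e 2) * v)) * e 3) * e 4) + ((-648 : ℤ) • (((((e 1 * e 2) * e 3) * e 0) * v) * e 4) + ((-216 : ℤ) • ((((e 1 * e 2) * e 3) * (e 0 * v)) * e 4) + ((-216 : ℤ) • (((e 1 * (e 0 * e 2)) * (e 3 * v)) * e 4) + ((216 : ℤ) • ((((e 0 * e 1) * (e 2 * e 3)) * v) * e 4) + ((-72 : ℤ) • (((((e 0 * e 1) * e 2) * e 3) * v) * e 4) + ((-72 : ℤ) • (((e 1 * e 2) * ((e 0 * e 3) * v)) * e 4) + ((72 : ℤ) • (((e 1 * ((e 0 * e 2) * e 3)) * v) * e 4) + ((-864 : ℤ) • ((v * (((e 1 * e 2) * e 3) * e 0)) * e 4) + ((-864 : ℤ) • ((v * (((e 2 * e 3) * e 1) * e 0)) * e 4) + ((-864 : ℤ) • ((v * (((e 3 * e 1) * e 2) *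 e 0)) * e 4) + ((-288 : ℤ) • (((v * ((e 1 * e 2) * e 3)) * e 0) * e 4) + ((-288 : ℤ) • (((v * ((e 2 * e 3) * e 1)) * e 0) * e 4) + ((-288 : ℤ) • (((v * ((e 3 * e 1) * e 2)) * e 0) * e 4) + ((-288 : ℤ) • (((((e 2 * e 3) * e 1) * e 0) * v) * e 4) + ((-288 : ℤ) • (((((e 3 * e 1) * e 2) * e 0) * v) * e 4) + ((-288 : ℤ) • (((e 0 * v) * ((e 1 * e 2) * e 3)) * e 4) + ((-288 : ℤ) • (((e 0 * v) * ((e 2 * e 3) * e 1)) * e 4) + ((-288 : ℤ) • (((e 0 * v) * ((e 3 * e 1) * e 2)) * e 4) + ((-720 : ℤ) • ((v * e 0) * (((e 1 * e 2) * e 3) * e 4)) + ((-720 : ℤ) • ((v * (((e 0 * e 1) * e 2) * e 3)) * e 4) + ((-360 : ℤ) • ((e 0 * v) * (((e 1 * e 2) * e 3) * e 4)) + ((-360 : ℤ) • ((e 0 * (((v * e 1) * e 2) * e 3)) * e 4) + ((360 : ℤ) • ((e 0 * e 1) * (((v * e 2) * e 3) * e 4)) + ((360 : ℤ) • ((e 0 * (((e 1 * v) * e 2) * e 3)) * e 4) + ((-360 : ℤ) • ((e 0 * e 1) * (((e 2 * v) * e 3) * e 4))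 + ((-360 : ℤ) • ((e 0 * (((e 1 * e 2) * v) * e 3)) * e 4) + ((360 : ℤ) • ((e 0 * e 1) * (((e 2 * e 3) * v) * e 4)) + ((360 : ℤ) • ((e 0 * (((e 1 * e 2) * e 3) * v)) * e 4) + ((-360 : ℤ) • ((e 0 * e 1) * (((e 2 * e 3) * e 4) * v)) + ((-360 : ℤ) • ((e 0 * (((e 1 * e 2) * e 3) * e 4)) * v) + 0)))))))))))))))))))))))))))))))))))))))))))))))))))))))))))))))))))))))))))))))))))))))))))))) x = 0 :=
  cert_disp F hM R6.P R6.cert 1 R6.target R6.ok 1 (by decide)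
    (lett [v]) x


/-- the alternating sum of `T ![v, t 0, t 1, t 2]` -/
theorem T_nest3 {K : ℕ} (v : M) (a b c : Fin K) (h : Function.Injective ![a, b, c])
    (u : (Fin K → M) → M) (hu : ∀ t t', (∀ i, i ≠ a → i ≠ b → i ≠ c → t i = t' i) → u t = u t')
    (x : Fin K → M) :
    alt K (fun t => T ![v, t a, t b, t c] (u t)) x =
      (6 : ℤ) • alt K (fun t => w5 v (t a) (t b) (t c) (u t) - w5 (t a) v (t b) (t c) (u t)
        + w5 (t a) (t b) v (t c) (u t) - w5 (t a) (t b) (t c) v (u t)) x := by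
  have h4 : ∀ t : Fin K → M, T ![v, t a, t b, t c] (u t) = alt 3 (fun s =>
      w5 v (s 0) (s 1) (s 2) (u t) - w5 (s 0) v (s 1) (s 2) (u t) + w5 (s 0) (s 1) v (s 2) (u t)
      - w5 (s 0) (s 1) (s 2) v (u t)) ![t a, t b, t c] := by
    intro t
    have h5 : T ![v, t a, t b, t c] (u t) = alt 4 (fun z => w5 (z 0) (z 1) (z 2) (z 3) (u t))
      (Fin.cons v ![t a, t b, t c]) := rfl
    rw [h5, alt_cons4]
    rfl
  simp only [h4]
  exact nest3 a b c h (fun a b c t => w5 v a b c (u t) - w5 a v b c (u t) + w5 a b v c (u t)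
      - w5 a b c v (u t)) (fun a b c t t' h => by rw [hu t t' h]) x

set_option maxRecDepth 40000 in
set_option maxHeartbeats 4000000 in
theorem idR6 (F : Type) [Field F] [CharZero F] [Module F M] [IsScalarTower F M M]
    [SMulCommClass F M M] (hM : IsMalcev M) (hk : ∀ (y : M) (x : Fin 5 → M), kap y x = 0) (v : M) (x : Fin 5 → M) :
    alt 5 (fun t => (3 : ℤ) • (T ![t 0, t 1, t 2, t 3] (t 4) * v)
      + (2 : ℤ) • T ![v, t 0, t 1, t 2] (t 3 * t 4) + T ![t 0, t 1, t 2, t 3] (v * t 4)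
      - (4 : ℤ) • (Q v (t 0) ![t 1, t 2, t 3] * t 4)) x = 0 := by
  have h6 : alt 5 (fun t => kl v (t 0) (t 1) (t 2) (t 3) (t 4)) x = 0 := by
    rw [← kap_eq, hk]
  have h7 : alt 5 (fun t => kap (t 0) (Fin.cons v ![t 1, t 2, t 3, t 4])) x = 0 := by
    simp only [hk]; exact alt_zero _
  simp only [kap_eq, alt_cons5, Matrix.cons_val] at h7
  rw [nest4 1 2 3 4 (by decide) (fun a b c d t => kl (t 0) v a b c d
    - kl (t 0) a v b c d + kl (t 0) a b v c d - kl (t 0) a b c v d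
    + kl (t 0) a b c d v)
    (fun a b c d t t' h => by
      rw [h 0 (by decide) (by decide) (by decide) (by decide)])] at h7
  have h8 := zcancel F 24 (by norm_num) h7
  have e1 : alt 5 (fun t => T ![t 0, t 1, t 2, t 3] (t 4) * v) x =
      (24 : ℤ) • alt 5 (fun t => w5 (t 0) (t 1) (t 2) (t 3) (t 4) * v) x := by
    simp only [T, mul_right_alt]
    exact nest4 0 1 2 3 (by decide) (fun p q r s t => w5 p q r s (t 4) * v)
      (fun p q r s t t' h => by rw [h 4 (by decide) (by decide) (by decide) (by decide)]) x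
  have e2 := T_nest3 v 0 1 2 (by decide) (fun t : Fin 5 → M => t 3 * t 4) (fun t t' h => by
    rw [h 3 (by decide) (by decide) (by decide), h 4 (by decide) (by decide) (by decide)]) x
  have e3 := T_nest 0 1 2 3 (by decide) (fun t : Fin 5 → M => v * t 4) (fun t t' h => by
    rw [h 4 (by decide) (by decide) (by decide) (by decide)]) x
  have e4 : alt 5 (fun t => T ![v, t 1, t 2, t 3] (t 0) * t 4) x =
      (6 : ℤ) • alt 5 (fun t => (w5 v (t 1) (t 2) (t 3) (t 0) - w5 (t 1) v (t 2) (t 3) (t 0)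
        + w5 (t 1) (t 2) v (t 3) (t 0) - w5 (t 1) (t 2) (t 3) v (t 0)) * t 4) x := by
    have h4 : ∀ t : Fin 5 → M, T ![v, t 1, t 2, t 3] (t 0) * t 4 = alt 3 (fun s =>
        (w5 v (s 0) (s 1) (s 2) (t 0) - w5 (s 0) v (s 1) (s 2) (t 0)
          + w5 (s 0) (s 1) v (s 2) (t 0) - w5 (s 0) (s 1) (s 2) v (t 0)) * t 4)
        ![t 1, t 2, t 3] := by
      intro t
      have h5 : T ![v, t 1, t 2, t 3] (t 0) = alt 4 (fun z => w5 (z 0) (z 1) (z 2) (z 3) (t 0))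
        (Fin.cons v ![t 1, t 2, t 3]) := rfl
      rw [h5, alt_cons4, mul_right_alt]
      rfl
    simp only [h4]
    exact nest3 1 2 3 (by decide) (fun a b c t => (w5 v a b c (t 0) - w5 a v b c (t 0)
      + w5 a b v c (t 0) - w5 a b c v (t 0)) * t 4) (fun a b c t t' h => by
        rw [h 0 (by decide) (by decide) (by decide), h 4 (by decide) (by decide) (by decide)]) x
  have e5 : ∀ t : Fin 5 → M, Q v (t 0) ![t 1, t 2, t 3] * t 4 =
      - (T ![v, t 1, t 2, t 3] (t 0) * t 4)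
      + ((216 : ℤ) • (v * (J3 (t 1) (t 2) (t 3) * t 0))
        + (72 : ℤ) • J3 v (J3 (t 1) (t 2) (t 3)) (t 0)) * t 4 := by
    intro t
    have e6 : Q v (t 0) ![t 1, t 2, t 3] = - T ![v, t 1, t 2, t 3] (t 0)
      + (216 : ℤ) • (v * (J3 (t 1) (t 2) (t 3) * t 0))
      + (72 : ℤ) • J3 v (J3 (t 1) (t 2) (t 3)) (t 0) := rfl
    rw [e6, add_assoc, add_mul, neg_mul]
  simp only [e5, smul_add, smul_neg]
  rw [alt_sub, alt_add, alt_add, alt_zsmul, alt_zsmul, alt_add, alt_neg, alt_zsmul, e1, e2, e3, e4]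
  have h2 := R6.form F hM v x
  rw [← h2]
  have h4 : ∀ u : M, u = u - (720 : ℤ) •
      alt 5 (fun t => kl v (t 0) (t 1) (t 2) (t 3) (t 4)) x
      - (360 : ℤ) • alt 5 (fun t => kl (t 0) v (t 1) (t 2) (t 3) (t 4)
    - kl (t 0) (t 1) v (t 2) (t 3) (t 4) + kl (t 0) (t 1) (t 2) v (t 3) (t 4)
    - kl (t 0) (t 1) (t 2) (t 3) v (t 4) + kl (t 0) (t 1) (t 2) (t 3) (t 4) v) x := by
    intro u; rw [h6, h8]; simp
  rw [h4 (_ - _)]
  simp only [← alt_zsmul, ← alt_add, ← alt_sub, ← alt_neg]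
  congr 1
  funext t
  simp only [kl, w5, J3, add_mul, sub_mul, mul_add, smul_add, smul_sub, smul_smul,
    smul_mul_assoc, mul_smul_comm]
  abel

end Pool.Agent.MAL
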