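import Mathlib

set_option autoImplicit false

/-!
The T*-extension of a Malcev algebra: `M ⊕ M*` is again a Malcev algebra and carries a symmetric
invariant bilinear form, and `M` embeds in it.
-/

namespace Pool.Agent.MAL

/-- Malcev algebras, as in the frozen statement. -/
structure IsMalcev (M : Type) [NonUnitalNonAssocRing M] : Prop where
  sq : ∀ x : M, x * x = 0
  mal : ∀ x y z : M,
    (x * y) * (x * z) = ((x * y) * z) * x + ((y * z) * x) * x + ((z * x) * x) * y

namespace IsMalcev

variable {M : Type} [NonUnitalNonAssocRing M]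

theorem anti (h : IsMalcev M) (x y : M) : x * y = -(y * x) := by
  have h1 := h.sq (x + y)
  rw [mul_add, add_mul, add_mul, h.sq, h.sq, zero_add, add_zero] at h1
  exact eq_neg_of_add_eq_zero_right h1

/-- the linearised Malcev identity (no division). -/
theorem lin (h : IsMalcev M) (x t y z : M) :
    (x * y) * (t * z) + (t * y) * (x * z) =
      ((x * y) * z) * t + ((t * y) * z) * x + (((y * z) * x) * t + ((y * z) * t) * x)
        + (((z * x) * t) * y + ((z * t) * x) * y) := by
  have h1 := h.mal (x + t) y z
  have h2 := h.mal x y z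
  have h3 := h.mal t y z
  simp only [add_mul, mul_add] at h1
  rw [h2, h3] at h1
  have h4 := sub_eq_zero.mpr h1
  rw [← sub_eq_zero, ← h4]
  abel

theorem cancel2 (F : Type) [Field F] [CharZero F] [Module F M] {x : M} (h : x + x = 0) :
    x = 0 := by
  have h2 : (2 : F) • x = 0 := by rw [two_smul, h]
  exact (smul_eq_zero.mp h2).resolve_left two_ne_zero

/-- Sagle's identity. -/
theorem sagle (F : Type) [Field F] [CharZero F] [Module F M] (h : IsMalcev M) (x y z t : M) :
    (x * z) * (y * t) =
      ((x * y) * z) * t + ((y * z) * t) * x + ((z * t) * x) * y + ((t * x) * y) * z := by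
  rw [← sub_eq_zero]
  apply cancel2 F
  have e1 := sub_eq_zero.mpr (h.lin x y z t)
  have e2 := sub_eq_zero.mpr (h.lin x z t y)
  have e3 := sub_eq_zero.mpr (h.lin x t y z)
  have key : ∀ A B C D : M, A = 0 → B = 0 → C = 0 → D = A - B + C → D = 0 := by
    intro A B C D hA hB hC hD
    rw [hD, hA, hB, hC]; simp
  refine key _ _ _ _ e1 e2 e3 ?_
  simp only [h.anti ((y * z) * t) x, h.anti (z * t) x, h.anti t x, h.anti (y * z) (x * t), h.anti (z * t) y, h.anti (y * (z * t)) x, h.anti t y, h.anti (y * t) x, h.anti z y, h.anti (z * t) (x * y), h.anti ((y * t) * z) x, h.anti y x, h.anti (y * z) x, h.anti t z, h.anti (y * t) (x * z), h.anti z x, neg_mul, mul_neg, neg_neg]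
  abel

theorem idF (F : Type) [Field F] [CharZero F] [Module F M] (h : IsMalcev M) (a b c d : M) :
    b * ((a * c) * d) - c * ((a * b) * d) =
      b * (c * (a * d)) - ((a * b) * c) * d - (b * c) * (a * d) - ((b * c) * a) * d
        - c * (a * (b * d)) - (c * a) * (b * d) := by
  have e1 := sub_eq_zero.mpr (h.sagle F a b c d)
  have e2 := sub_eq_zero.mpr (h.sagle F a b d c)
  have e3 := sub_eq_zero.mpr (h.sagle F a c b d)
  have e4 := sub_eq_zero.mpr (h.sagle F a d b c)
  rw [← sub_eq_zero]
  have key : ∀ A B C D E : M, A = 0 → B = 0 → C = 0 → D = 0 → E = - A - B - C - D → E = 0 := by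
    intro A B C D E hA hB hC hD hE
    rw [hE, hA, hB, hC, hD]; simp
  refine key _ _ _ _ _ e1 e2 e3 e4 ?_
  simp only [h.anti b ((a * c) * d), h.anti c ((a * b) * d), h.anti c (a * d), h.anti b ((a * d) * c), h.anti (b * c) (a * d), h.anti (b * c) a, h.anti c (a * (b * d)), h.anti c a, h.anti ((b * c) * d) a, h.anti (c * d) a, h.anti d a, h.anti ((b * d) * c) a, h.anti d c, h.anti c b, h.anti (b * d) a, h.anti d b, neg_mul, mul_neg, neg_neg]
  abel

theorem idH (h : IsMalcev M) (a b d : M) :
    a * ((a * b) * d) = - ((a * b) * (a * d)) - b * (a * (a * d)) + a * (a * (b * d)) := by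
  rw [h.mal a b d]
  simp only [h.anti (a * b * d) a, h.anti d a, h.anti (a * d) a, h.anti (a * (a * d)) b,
    h.anti (b * d) a, h.anti (a * (b * d)) a, neg_mul, mul_neg, neg_neg]
  abel

theorem idG (h : IsMalcev M) (a c d : M) :
    - (a * ((a * c) * d)) = - (a * (c * (a * d))) + c * (a * (a * d)) - ((c * a) * a) * d := by
  have e1 := h.mal a c d
  have e2 := h.mal a d c
  rw [h.anti (a * d) (a * c), e1] at e2
  simp only [h.anti d c, h.anti c a, h.anti d a, h.anti (a * c * d) a, h.anti (a * d) a,
    h.anti (a * (a * d)) c, h.anti (c * d) a, h.anti (a * (c * d)) a, h.anti (a * d) c,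
    h.anti (c * (a * d)) a, h.anti (a * c) a, h.anti (a * (a * c)) d,
    neg_mul, mul_neg, neg_neg] at e2 ⊢
  rw [← sub_eq_zero] at e2 ⊢
  rw [← neg_eq_zero, ← e2]
  abel

end IsMalcev

section TS

variable (F M : Type) [Field F] [NonUnitalNonAssocRing M] [Module F M]

/-- the T*-extension. -/
def TS : Type := M × Module.Dual F M

instance : AddCommGroup (TS F M) := inferInstanceAs (AddCommGroup (M × Module.Dual F M))
instance : Module F (TS F M) := inferInstanceAs (Module F (M × Module.Dual F M))

variable {F M}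

theorem TS.ext' {x y : TS F M} (h1 : x.1 = y.1) (h2 : ∀ d, x.2 d = y.2 d) : x = y :=
  Prod.ext h1 (LinearMap.ext h2)

@[simp] theorem TS.add_fst (x y : TS F M) : (x + y).1 = x.1 + y.1 := rfl
@[simp] theorem TS.add_snd (x y : TS F M) (d : M) : (x + y).2 d = x.2 d + y.2 d := rfl
@[simp] theorem TS.zero_fst : (0 : TS F M).1 = 0 := rfl
@[simp] theorem TS.zero_snd (d : M) : (0 : TS F M).2 d = 0 := rfl
@[simp] theorem TS.smul_fst (r : F) (x : TS F M) : (r • x).1 = r • x.1 := rfl
@[simp] theorem TS.smul_snd (r : F) (x : TS F M) (d : M) : (r • x).2 d = r * x.2 d := rfl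

variable [IsScalarTower F M M] [SMulCommClass F M M]

instance : Mul (TS F M) :=
  ⟨fun x y => (x.1 * y.1,
    x.2 ∘ₗ (LinearMap.mulLeft F y.1) - y.2 ∘ₗ (LinearMap.mulLeft F x.1))⟩

@[simp] theorem TS.mul_fst (x y : TS F M) : (x * y).1 = x.1 * y.1 := rfl
@[simp] theorem TS.mul_snd (x y : TS F M) (d : M) :
    (x * y).2 d = x.2 (y.1 * d) - y.2 (x.1 * d) := rfl

instance : NonUnitalNonAssocRing (TS F M) :=
  { (inferInstance : AddCommGroup (TS F M)), (inferInstance : Mul (TS F M)) with
    left_distrib := by
      intro a b c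
      apply TS.ext'
      · simp [mul_add]
      · intro d; simp [add_mul]; ring
    right_distrib := by
      intro a b c
      apply TS.ext'
      · simp [add_mul]
      · intro d; simp [add_mul]; ring
    zero_mul := by
      intro a
      apply TS.ext'
      · simp
      · intro d; simp
    mul_zero := by
      intro a
      apply TS.ext'
      · simp
      · intro d; simp }

instance : IsScalarTower F (TS F M) (TS F M) := ⟨by
  intro r x y
  apply TS.ext'
  · simp [smul_eq_mul, smul_mul_assoc]
  · intro d; simp [smul_eq_mul, smul_mul_assoc]; ring⟩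

instance : SMulCommClass F (TS F M) (TS F M) := ⟨by
  intro r x y
  apply TS.ext'
  · simp [smul_eq_mul, mul_smul_comm]
  · intro d; simp [smul_eq_mul, smul_mul_assoc]; ring⟩

/-- the invariant form. -/
def TS.form (x y : TS F M) : F := x.2 y.1 + y.2 x.1

theorem TS.form_comm (x y : TS F M) : TS.form x y = TS.form y x := by
  simp only [TS.form]; ring

theorem TS.form_add_left (x y z : TS F M) : TS.form (x + y) z = TS.form x z + TS.form y z := by
  simp only [TS.form, TS.add_fst, TS.add_snd, map_add]; ring

theorem TS.form_smul_left (r : F) (x z : TS F M) : TS.form (r • x) z = r * TS.form x z := by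
  simp only [TS.form, TS.smul_fst, TS.smul_snd, map_smul, smul_eq_mul]; ring

theorem TS.form_inv (h : IsMalcev M) (x y z : TS F M) :
    TS.form (x * y) z = TS.form x (y * z) := by
  simp only [TS.form, TS.mul_fst, TS.mul_snd]
  rw [h.anti z.1 x.1, h.anti y.1 x.1]
  simp only [map_neg]
  ring

/-- `T*`-extensions are Malcev. -/
theorem TS.isMalcev [CharZero F] (h : IsMalcev M) : IsMalcev (TS F M) where
  sq := by
    intro x
    apply TS.ext'
    · simp [h.sq]
    · intro d; simp
  mal := by
    intro x y z
    apply TS.ext'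
    · simp only [TS.mul_fst, TS.add_fst]
      exact h.mal _ _ _
    · intro d
      have eF := congrArg x.2 (IsMalcev.idF F h x.1 y.1 z.1 d)
      have eG := congrArg y.2 (IsMalcev.idG h x.1 z.1 d)
      have eH := congrArg z.2 (IsMalcev.idH h x.1 y.1 d)
      simp only [map_add, map_sub, map_neg] at eF eG eH
      simp only [TS.mul_fst, TS.mul_snd, TS.add_snd]
      linear_combination eF + eG + eH

/-- the embedding. -/
def TS.inj (a : M) : TS F M := (a, 0)

@[simp] theorem TS.inj_fst (a : M) : (TS.inj a : TS F M).1 = a := rfl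
@[simp] theorem TS.inj_snd (a d : M) : (TS.inj a : TS F M).2 d = 0 := rfl

theorem TS.inj_mul (a b : M) : (TS.inj (a * b) : TS F M) = TS.inj a * TS.inj b := by
  apply TS.ext'
  · simp
  · intro d; simp

theorem TS.inj_add (a b : M) : (TS.inj (a + b) : TS F M) = TS.inj a + TS.inj b := by
  apply TS.ext'
  · simp
  · intro d; simp

/-- the form separates the points of `M`. -/
theorem TS.sep (a : M) (h : ∀ z : TS F M, TS.form (TS.inj a) z = 0) : a = 0 := by
  rw [← Module.forall_dual_apply_eq_zero_iff F]
  intro f
  have h1 := h ((0, f) : M × Module.Dual F M)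
  simpa [TS.form] using h1

end TS

end Pool.Agent.MAL
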