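import Pool.Agent.MAL.CertDefs
import Pool.Agent.MAL.TStar

/-!
The Grassmann envelope-like tensor product `M ⊗ Λ(F^K)` of a Malcev algebra `M`: it is a Malcev
superalgebra.
-/

open scoped TensorProduct

namespace Pool.Agent.MAL.Cert

section Grass

variable {F : Type} [Field F] {V : Type} [AddCommGroup V] [Module F V]

/-- product of a list of vectors in the exterior algebra -/
noncomputable def wl (L : List V) : ExteriorAlgebra F V := (L.map (ExteriorAlgebra.ι F)).prod

theorem wl_nil : wl (F := F) ([] : List V) = 1 := rfl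

theorem wl_cons (v : V) (L : List V) : wl (F := F) (v :: L) = ExteriorAlgebra.ι F v * wl L := by
  simp [wl]

theorem wl_append (L L' : List V) : wl (F := F) (L ++ L') = wl L * wl L' := by
  simp [wl]

theorem sg_true : sg true = -1 := rfl
theorem sg_false : sg false = 1 := rfl

theorem sg_xor (a b : Bool) : sg (Bool.xor a b) = sg a * sg b := by
  cases a <;> cases b <;> rfl

theorem sg_mul_self (a : Bool) : sg a * sg a = 1 := by
  cases a <;> rfl

theorem sg_not' (b : Bool) : sg (!b) = - sg b := by cases b <;> rfl

theorem iota_wl (v : V) (L : List V) :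
    ExteriorAlgebra.ι F v * wl L = sg L.length.bodd • (wl L * ExteriorAlgebra.ι F v) := by
  induction L with
  | nil => simp [wl_nil, sg]
  | cons a L ih =>
    have h : ExteriorAlgebra.ι F v * ExteriorAlgebra.ι F a
        = - (ExteriorAlgebra.ι F a * ExteriorAlgebra.ι F v) :=
      eq_neg_of_add_eq_zero_left (ExteriorAlgebra.ι_add_mul_swap v a)
    rw [wl_cons, ← mul_assoc, h, neg_mul, mul_assoc, ih, List.length_cons, Nat.bodd_succ, sg_not',
      mul_smul_comm, neg_smul, mul_assoc]

theorem wl_comm (L L' : List V) :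
    wl L * wl L' = sg (L.length.bodd && L'.length.bodd) • (wl (F := F) L' * wl L) := by
  induction L with
  | nil => simp [wl_nil, sg]
  | cons a L ih =>
    rw [wl_cons, mul_assoc, ih, mul_smul_comm, ← mul_assoc, iota_wl, smul_mul_assoc, smul_smul,
      mul_assoc, List.length_cons, Nat.bodd_succ]
    congr 1
    cases L.length.bodd <;> cases L'.length.bodd <;> rfl

end Grass

section Env

variable (F : Type) [Field F] (M : Type) [NonUnitalNonAssocRing M] [Module F M]
  [IsScalarTower F M M] [SMulCommClass F M M] (V : Type) [AddCommGroup V] [Module F V]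

/-- the envelope -/
def Env : Type := M ⊗[F] ExteriorAlgebra F V

noncomputable instance : NonUnitalNonAssocRing (Env F M V) :=
  inferInstanceAs (NonUnitalNonAssocRing (M ⊗[F] ExteriorAlgebra F V))

noncomputable instance : Module F (Env F M V) :=
  inferInstanceAs (Module F (M ⊗[F] ExteriorAlgebra F V))

instance : IsScalarTower F (Env F M V) (Env F M V) :=
  inferInstanceAs (IsScalarTower F (M ⊗[F] ExteriorAlgebra F V) (M ⊗[F] ExteriorAlgebra F V))

instance : SMulCommClass F (Env F M V) (Env F M V) :=
  inferInstanceAs (SMulCommClass F (M ⊗[F] ExteriorAlgebra F V) (M ⊗[F] ExteriorAlgebra F V))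

variable {M V}

/-- pure tensors -/
noncomputable def tm (m : M) (u : ExteriorAlgebra F V) : Env F M V := m ⊗ₜ[F] u

variable {F}

theorem tm_mul (m n : M) (u w : ExteriorAlgebra F V) :
    tm F m u * tm F n w = tm F (m * n) (u * w) :=
  Algebra.TensorProduct.tmul_mul_tmul m n u w

omit [IsScalarTower F M M] [SMulCommClass F M M] in
theorem tm_add_left [IsScalarTower F M M] [SMulCommClass F M M] (m n : M)
    (u : ExteriorAlgebra F V) : tm F (m + n) u = tm F m u + tm F n u :=
  TensorProduct.add_tmul m n u

theorem tm_neg_left (m : M) (u : ExteriorAlgebra F V) : tm F (-m) u = - tm F m u :=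
  TensorProduct.neg_tmul m u

theorem tm_zero_left (u : ExteriorAlgebra F V) : tm F (0 : M) u = 0 :=
  TensorProduct.zero_tmul M u

theorem tm_add_right (m : M) (u w : ExteriorAlgebra F V) :
    tm F m (u + w) = tm F m u + tm F m w :=
  TensorProduct.tmul_add m u w

theorem tm_neg_right (m : M) (u : ExteriorAlgebra F V) : tm F m (-u) = - tm F m u :=
  TensorProduct.tmul_neg m u

theorem tm_zsmul_right (n : ℤ) (m : M) (u : ExteriorAlgebra F V) :
    tm F m (n • u) = n • tm F m u := by
  have h : ∀ k : ℕ, tm F m (k • u) = k • tm F m u := by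
    intro k
    induction k with
    | zero => simp only [zero_smul]; exact TensorProduct.tmul_zero _ m
    | succ k ih => rw [add_smul, one_smul, tm_add_right, ih, add_smul, one_smul]
  obtain ⟨k, rfl | rfl⟩ := n.eq_nat_or_neg
  · simpa using h k
  · rw [neg_smul, neg_smul, tm_neg_right]; simpa using h k

theorem tm_smul_left (c : F) (m : M) (u : ExteriorAlgebra F V) :
    tm F (c • m) u = c • tm F m u := TensorProduct.smul_tmul' c m u

variable (F M V)

/-- the even (`false`) and odd (`true`) part of the envelope -/
noncomputable def Hp (p : Bool) : AddSubgroup (Env F M V) :=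
  AddSubgroup.closure {s | ∃ (m : M) (L : List V), L.length.bodd = p ∧ s = tm F m (wl L)}

variable {F M V}

theorem mem_Hp {p : Bool} (m : M) (L : List V) (h : L.length.bodd = p) :
    tm F m (wl L) ∈ Hp F M V p :=
  AddSubgroup.subset_closure ⟨m, L, h, rfl⟩

theorem Hp_ind {p : Bool} {C : Env F M V → Prop}
    (h : ∀ (m : M) (L : List V), L.length.bodd = p → C (tm F m (wl L)))
    (h0 : C 0) (hadd : ∀ x y, C x → C y → C (x + y)) (hneg : ∀ x, C x → C (-x))
    {a : Env F M V} (ha : a ∈ Hp F M V p) : C a := by
  unfold Hp at ha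
  induction ha using AddSubgroup.closure_induction with
  | mem x hx => obtain ⟨m, L, hL, rfl⟩ := hx; exact h m L hL
  | zero => exact h0
  | add x y _ _ hx hy => exact hadd x y hx hy
  | neg x _ hx => exact hneg x hx

theorem env_mul_mem {p q : Bool} {a b : Env F M V} (ha : a ∈ Hp F M V p) (hb : b ∈ Hp F M V q) :
    a * b ∈ Hp F M V (Bool.xor p q) := by
  refine Hp_ind (C := fun a => a * b ∈ Hp F M V (Bool.xor p q)) ?_ ?_ ?_ ?_ ha
  · intro m L hL
    refine Hp_ind (C := fun b => tm F m (wl L) * b ∈ Hp F M V (Bool.xor p q)) ?_ ?_ ?_ ?_ hb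
    · intro m' L' hL'
      rw [tm_mul, ← wl_append]
      refine mem_Hp _ _ ?_
      rw [List.length_append, Nat.bodd_add, hL, hL']
    · rw [mul_zero]; exact zero_mem _
    · intro x y hx hy; rw [mul_add]; exact add_mem hx hy
    · intro x hx; rw [mul_neg]; exact neg_mem hx
  · rw [zero_mul]; exact zero_mem _
  · intro x y hx hy; rw [add_mul]; exact add_mem hx hy
  · intro x hx; rw [neg_mul]; exact neg_mem hx

theorem env_anti (hM : IsMalcev M) {p q : Bool} {a b : Env F M V} (ha : a ∈ Hp F M V p)
    (hb : b ∈ Hp F M V q) : a * b = sg (!(p && q)) • (b * a) := by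
  refine Hp_ind (C := fun a => a * b = sg (!(p && q)) • (b * a)) ?_ ?_ ?_ ?_ ha
  · intro m L hL
    refine Hp_ind (C := fun b => tm F m (wl L) * b = sg (!(p && q)) • (b * tm F m (wl L)))
      ?_ ?_ ?_ ?_ hb
    · intro m' L' hL'
      rw [tm_mul, tm_mul, wl_comm, hL, hL', hM.anti m m', sg_not', tm_neg_left, tm_zsmul_right,
        neg_smul]
    · simp
    · intro x y hx hy; rw [mul_add, add_mul, smul_add, hx, hy]
    · intro x hx; rw [mul_neg, neg_mul, smul_neg, hx]
  · simp
  · intro x y hx hy; rw [mul_add, add_mul, smul_add, hx, hy]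
  · intro x hx; rw [mul_neg, neg_mul, smul_neg, hx]

theorem env_torsion [CharZero F] (n : ℤ) (s : Env F M V) (hn : n ≠ 0) (h : n • s = 0) :
    s = 0 := by
  have h1 : (n : F) • s = 0 := by rw [Int.cast_smul_eq_zsmul]; exact h
  exact (smul_eq_zero.mp h1).resolve_left (by exact_mod_cast hn)

/-- Sagle's identity for pure tensors -/
theorem env_sagle_pure [CharZero F] (hM : IsMalcev M) (a b c d : M) (A B C D : List V) :
    ((tm F a (wl A) * tm F b (wl B)) * tm F c (wl C)) * tm F d (wl D)
      + sg (A.length.bodd && Bool.xor (Bool.xor B.length.bodd C.length.bodd) D.length.bodd) •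
        (((tm F b (wl B) * tm F c (wl C)) * tm F d (wl D)) * tm F a (wl A))
      + sg (Bool.xor A.length.bodd B.length.bodd && Bool.xor C.length.bodd D.length.bodd) •
        (((tm F c (wl C) * tm F d (wl D)) * tm F a (wl A)) * tm F b (wl B))
      + sg (D.length.bodd && Bool.xor (Bool.xor A.length.bodd B.length.bodd) C.length.bodd) •
        (((tm F d (wl D) * tm F a (wl A)) * tm F b (wl B)) * tm F c (wl C))
      = sg (B.length.bodd && C.length.bodd) •
        ((tm F a (wl A) * tm F c (wl C)) * (tm F b (wl B) * tm F d (wl D))) := by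
  simp only [tm_mul, ← wl_append]
  have e1 : wl (F := F) (B ++ C ++ D ++ A) =
      sg (A.length.bodd && Bool.xor (Bool.xor B.length.bodd C.length.bodd) D.length.bodd) •
        wl (F := F) (A ++ B ++ C ++ D) := by
    rw [wl_append (B ++ C ++ D) A, wl_comm, ← wl_append, ← List.append_assoc, ← List.append_assoc]
    simp only [List.length_append, Nat.bodd_add]
    congr 2
    rw [Bool.and_comm]
  have e2 : wl (F := F) (C ++ D ++ A ++ B) =
      sg (Bool.xor A.length.bodd B.length.bodd && Bool.xor C.length.bodd D.length.bodd) •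
        wl (F := F) (A ++ B ++ C ++ D) := by
    rw [List.append_assoc (C ++ D) A B, wl_append (C ++ D) (A ++ B), wl_comm, ← wl_append,
      ← List.append_assoc]
    simp only [List.length_append, Nat.bodd_add]
    congr 2
    rw [Bool.and_comm]
  have e3 : wl (F := F) (D ++ A ++ B ++ C) =
      sg (D.length.bodd && Bool.xor (Bool.xor A.length.bodd B.length.bodd) C.length.bodd) •
        wl (F := F) (A ++ B ++ C ++ D) := by
    rw [List.append_assoc D A B, List.append_assoc D (A ++ B) C, wl_append D (A ++ B ++ C),
      wl_comm, ← wl_append]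
    simp only [List.length_append, Nat.bodd_add]
  have e4 : wl (F := F) (A ++ C ++ (B ++ D)) =
      sg (B.length.bodd && C.length.bodd) • wl (F := F) (A ++ B ++ C ++ D) := by
    rw [List.append_assoc A C, wl_append A, ← List.append_assoc C B D, wl_append (C ++ B) D,
      wl_append C B, wl_comm, ← wl_append, smul_mul_assoc, mul_smul_comm, ← wl_append, ← wl_append]
    simp only [← List.append_assoc]
    congr 2
    rw [Bool.and_comm]
  rw [e1, e2, e3, e4]
  simp only [tm_zsmul_right, smul_smul, sg_mul_self, one_smul]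
  rw [← tm_add_left, ← tm_add_left, ← tm_add_left, hM.sagle F a b c d]

theorem env_smal [CharZero F] (hM : IsMalcev M) : SMal (Env F M V) (Hp F M V) where
  mul_mem := env_mul_mem
  anti := env_anti hM
  sq := by
    intro a ha
    have h := env_anti hM ha ha
    have h2 : (2 : ℤ) • (a * a) = 0 := by
      rw [two_smul]
      nth_rewrite 1 [h]
      simp [sg]
    exact env_torsion 2 _ (by norm_num) h2
  sagle := by
    intro p q r s a b c d ha hb hc hd
    refine Hp_ind (C := fun a => ((a * b) * c) * d
      + sg (p && Bool.xor (Bool.xor q r) s) • (((b * c) * d) * a)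
      + sg (Bool.xor p q && Bool.xor r s) • (((c * d) * a) * b)
      + sg (s && Bool.xor (Bool.xor p q) r) • (((d * a) * b) * c)
      = sg (q && r) • ((a * c) * (b * d))) ?_ ?_ ?_ ?_ ha
    · intro m1 L1 h1
      refine Hp_ind (C := fun b => ((tm F m1 (wl L1) * b) * c) * d
        + sg (p && Bool.xor (Bool.xor q r) s) • (((b * c) * d) * tm F m1 (wl L1))
        + sg (Bool.xor p q && Bool.xor r s) • (((c * d) * tm F m1 (wl L1)) * b)
        + sg (s && Bool.xor (Bool.xor p q) r) • (((d * tm F m1 (wl L1)) * b) * c)
        = sg (q && r) • ((tm F m1 (wl L1) * c) * (b * d))) ?_ ?_ ?_ ?_ hb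
      · intro m2 L2 h2
        refine Hp_ind (C := fun c => ((tm F m1 (wl L1) * tm F m2 (wl L2)) * c) * d
          + sg (p && Bool.xor (Bool.xor q r) s) • (((tm F m2 (wl L2) * c) * d) * tm F m1 (wl L1))
          + sg (Bool.xor p q && Bool.xor r s) • (((c * d) * tm F m1 (wl L1)) * tm F m2 (wl L2))
          + sg (s && Bool.xor (Bool.xor p q) r) • (((d * tm F m1 (wl L1)) * tm F m2 (wl L2)) * c)
          = sg (q && r) • ((tm F m1 (wl L1) * c) * (tm F m2 (wl L2) * d))) ?_ ?_ ?_ ?_ hc
        · intro m3 L3 h3
          refine Hp_ind (C := fun d => ((tm F m1 (wl L1) * tm F m2 (wl L2)) * tm F m3 (wl L3)) * d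
            + sg (p && Bool.xor (Bool.xor q r) s) •
              (((tm F m2 (wl L2) * tm F m3 (wl L3)) * d) * tm F m1 (wl L1))
            + sg (Bool.xor p q && Bool.xor r s) •
              (((tm F m3 (wl L3) * d) * tm F m1 (wl L1)) * tm F m2 (wl L2))
            + sg (s && Bool.xor (Bool.xor p q) r) •
              (((d * tm F m1 (wl L1)) * tm F m2 (wl L2)) * tm F m3 (wl L3))
            = sg (q && r) • ((tm F m1 (wl L1) * tm F m3 (wl L3)) * (tm F m2 (wl L2) * d)))
            ?_ ?_ ?_ ?_ hd
          · intro m4 L4 h4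
            have := env_sagle_pure (F := F) hM m1 m2 m3 m4 L1 L2 L3 L4
            rw [h1, h2, h3, h4] at this
            exact this
          · simp
          · intro x y hx hy
            simp only [mul_add, add_mul, smul_add] at hx hy ⊢
            rw [← hx, ← hy]; abel
          · intro x hx
            simp only [mul_neg, neg_mul, smul_neg] at hx ⊢
            rw [← hx]; abel
        · simp
        · intro x y hx hy
          simp only [mul_add, add_mul, smul_add] at hx hy ⊢
          rw [← hx, ← hy]; abel
        · intro x hx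
          simp only [mul_neg, neg_mul, smul_neg] at hx ⊢
          rw [← hx]; abel
      · simp
      · intro x y hx hy
        simp only [mul_add, add_mul, smul_add] at hx hy ⊢
        rw [← hx, ← hy]; abel
      · intro x hx
        simp only [mul_neg, neg_mul, smul_neg] at hx ⊢
        rw [← hx]; abel
    · simp
    · intro x y hx hy
      simp only [mul_add, add_mul, smul_add] at hx hy ⊢
      rw [← hx, ← hy]; abel
    · intro x hx
      simp only [mul_neg, neg_mul, smul_neg] at hx ⊢
      rw [← hx]; abel

end Env

end Pool.Agent.MAL.Cert
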