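import Pool.Agent.MAL.TStar

set_option autoImplicit false

/-!
The alternating function `kap` (the generator of the identities of degree 6 of the free Malcev
algebra which vanish in Lie algebras and in the simple Malcev algebra) and its metric version.
-/

namespace Pool.Agent.MAL

open Equiv

section Defs

variable {M : Type} [NonUnitalNonAssocRing M]

/-- the basic word: `y (R_a R_J + R_J R_a)`, `J = ((bc)d)e`. -/
def kw (y a b c d e : M) : M :=
  (y * a) * (((b * c) * d) * e) + (y * (((b * c) * d) * e)) * a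

/-- `kap y x`: the full alternating sum of `kw y` over the five arguments. -/
def kap (y : M) (x : Fin 5 → M) : M :=
  ∑ σ : Perm (Fin 5), (Perm.sign σ : ℤ) • kw y (x (σ 0)) (x (σ 1)) (x (σ 2)) (x (σ 3)) (x (σ 4))

/-- auxiliary word of the identity `IdS3`. -/
def ktw (u v a b c d : M) : M :=
  u * (v * (((a * b) * c) * d)) + v * (u * (((a * b) * c) * d))
    - (((((u * a) * v + (v * a) * u) * d) * c) * b)
    + (((((u * b) * v + (v * b) * u) * d) * c) * a)
    - (((u * c) * v + (v * c) * u) * d) * (a * b)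
    + ((u * d) * v + (v * d) * u) * ((a * b) * c)

/-- alternating sum of `ktw`. -/
def kt (u v : M) (x : Fin 4 → M) : M :=
  ∑ e : Perm (Fin 4), (Perm.sign e : ℤ) • ktw u v (x (e 0)) (x (e 1)) (x (e 2)) (x (e 3))

variable (M)

/-- identity of degree 6. -/
def IdS3 : Prop := ∀ (u v : M) (x : Fin 4 → M),
  kap v ![u, x 0, x 1, x 2, x 3] + kap u ![v, x 0, x 1, x 2, x 3] + kt u v x = 0

/-- identity of degree 7. -/
def IdR8 : Prop := ∀ (y u v a b c d : M),
  (5 : ℤ) • kap y ![u * v, a, b, c, d] =
    (3 : ℤ) • (kap (y * u) ![v, a, b, c, d] - kap y ![v, a, b, c, d] * u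
      - kap (y * v) ![u, a, b, c, d] + kap y ![u, a, b, c, d] * v)
    - (2 : ℤ) • ((kap (y * a) ![u, v, b, c, d] - kap y ![u, v, b, c, d] * a)
      - (kap (y * b) ![u, v, a, c, d] - kap y ![u, v, a, c, d] * b)
      + (kap (y * c) ![u, v, a, b, d] - kap y ![u, v, a, b, d] * c)
      - (kap (y * d) ![u, v, a, b, c] - kap y ![u, v, a, b, c] * d))

/-- identity of degree 8. -/
def IdA : Prop := ∀ (y a b : M) (x : Fin 5 → M), kap (y * a) x * b = 0

/-- identity of degree 8. -/
def IdC : Prop := ∀ (y a b : M) (x : Fin 5 → M), kap (y * (a * b)) x = kap y x * (a * b)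

end Defs

theorem perm_apply_inv {α : Type} (σ : Perm α) (a : α) : σ (σ⁻¹ a) = a := σ.apply_symm_apply a

theorem perm_inv_apply {α : Type} (σ : Perm α) (a : α) : σ⁻¹ (σ a) = a := σ.symm_apply_apply a

section Basic

variable {M : Type} [NonUnitalNonAssocRing M]

theorem kap_comp (y : M) (x : Fin 5 → M) (τ : Perm (Fin 5)) :
    kap y (fun i => x (τ i)) = (Perm.sign τ : ℤ) • kap y x := by
  unfold kap
  rw [Finset.smul_sum]
  rw [← Equiv.sum_comp (Equiv.mulLeft τ⁻¹)]
  apply Finset.sum_congr rfl
  intro σ _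
  simp only [Equiv.coe_mulLeft, Perm.mul_apply, perm_apply_inv, Perm.sign_mul, Perm.sign_inv,
    Units.val_mul, mul_smul]

theorem kw_add (y y' a b c d e : M) : kw (y + y') a b c d e = kw y a b c d e + kw y' a b c d e := by
  simp only [kw, add_mul]; abel

theorem kap_add (y y' : M) (x : Fin 5 → M) : kap (y + y') x = kap y x + kap y' x := by
  simp only [kap, kw_add, smul_add, Finset.sum_add_distrib]

variable {F : Type} [Field F] [Module F M] [IsScalarTower F M M] [SMulCommClass F M M]

theorem kw_smul (r : F) (y a b c d e : M) : kw (r • y) a b c d e = r • kw y a b c d e := by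
  simp only [kw, smul_mul_assoc, smul_add]

theorem kap_smul (r : F) (y : M) (x : Fin 5 → M) : kap (r • y) x = r • kap y x := by
  simp only [kap, kw_smul, Finset.smul_sum]
  apply Finset.sum_congr rfl
  intro σ _
  rw [smul_comm]

end Basic

/-- decomposition of a permutation of five letters by the position of the letter `0`. -/
def place {M : Type} (w : M) (y : Fin 4 → M) : Fin 5 → Fin 5 → M :=
  ![![w, y 0, y 1, y 2, y 3], ![y 0, w, y 1, y 2, y 3], ![y 1, y 0, w, y 2, y 3],
    ![y 2, y 0, y 1, w, y 3], ![y 3, y 0, y 1, y 2, w]]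

theorem place_eq {M : Type} (w : M) (x : Fin 4 → M) (p : Fin 5) (e : Perm (Fin 4)) (i : Fin 5) :
    (Fin.cons w x : Fin 5 → M) ((Perm.decomposeFin.symm (p, e))⁻¹ i) =
      place w (fun k => x (e⁻¹ k)) p i := by
  obtain ⟨k, rfl⟩ := (Perm.decomposeFin.symm (p, e)).surjective i
  rw [perm_inv_apply]
  refine Fin.cases ?_ (fun k => ?_) k
  · rw [Perm.decomposeFin_symm_apply_zero, Fin.cons_zero]
    fin_cases p <;> rfl
  · rw [Perm.decomposeFin_symm_apply_succ, Fin.cons_succ]
    have hx : x k = (fun k => x (e⁻¹ k)) (e k) := by simp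
    rw [hx]
    generalize (fun k => x (e⁻¹ k)) = y
    generalize e k = m
    fin_cases p <;> fin_cases m <;> rfl

/-- alternating sums over five letters, expanded by the position of the first letter. -/
theorem alt_expand {M G : Type} [AddCommGroup G] (w : M) (x : Fin 4 → M)
    (f : (Fin 5 → M) → G) :
    ∑ σ : Perm (Fin 5), (Perm.sign σ : ℤ) • f (fun i => (Fin.cons w x : Fin 5 → M) (σ i)) =
      ∑ e : Perm (Fin 4), (Perm.sign e : ℤ) •
        (f (place w (fun k => x (e k)) 0) - f (place w (fun k => x (e k)) 1)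
          - f (place w (fun k => x (e k)) 2) - f (place w (fun k => x (e k)) 3)
          - f (place w (fun k => x (e k)) 4)) := by
  rw [← Equiv.sum_comp (Equiv.inv (Perm (Fin 5)))]
  rw [← Equiv.sum_comp (Perm.decomposeFin.symm : Fin 5 × Perm (Fin 4) ≃ Perm (Fin 5))]
  rw [Fintype.sum_prod_type, Finset.sum_comm]
  rw [← Equiv.sum_comp (Equiv.inv (Perm (Fin 4)))]
  apply Finset.sum_congr rfl
  intro e _
  rw [Fin.sum_univ_five]
  have key : ∀ p : Fin 5, (fun i => (Fin.cons w x : Fin 5 → M)
      (((Equiv.inv (Perm (Fin 5))) (Perm.decomposeFin.symm (p, (Equiv.inv (Perm (Fin 4))) e))) i))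
      = place w (fun k => x (e k)) p := by
    intro p
    funext i
    have := place_eq w x p e⁻¹ i
    rw [inv_inv] at this
    simpa using this
  rw [key, key, key, key, key]
  simp only [Equiv.inv_apply, Perm.sign_inv, Perm.decomposeFin.symm_sign]
  simp [sub_eq_add_neg, smul_add]
  
end Pool.Agent.MAL
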