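import Pool.Agent.MAL.Kap

set_option autoImplicit false

/-!
Metric Malcev algebras: the function `S y z x = B (kap y x) z` and its properties.
-/

namespace Pool.Agent.MAL

open Equiv

/-- an invariant symmetric bilinear form. -/
structure Met (F M : Type) [Field F] [NonUnitalNonAssocRing M] [Module F M] where
  B : M → M → F
  add_left : ∀ x y z, B (x + y) z = B x z + B y z
  smul_left : ∀ (r : F) (x z), B (r • x) z = r * B x z
  symm : ∀ x y, B x y = B y x
  inv : ∀ x y z, B (x * y) z = B x (y * z)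

variable {F M : Type} [Field F] [NonUnitalNonAssocRing M] [Module F M]

namespace Met

variable (m : Met F M)

theorem add_right (x y z : M) : m.B x (y + z) = m.B x y + m.B x z := by
  rw [m.symm, m.add_left, m.symm y, m.symm z]

theorem smul_right (r : F) (x z : M) : m.B x (r • z) = r * m.B x z := by
  rw [m.symm, m.smul_left, m.symm z]

theorem zero_left (z : M) : m.B 0 z = 0 := by
  have := m.add_left 0 0 z
  rw [add_zero] at this
  linear_combination -this

theorem zero_right (z : M) : m.B z 0 = 0 := by rw [m.symm, m.zero_left]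

theorem neg_left (x z : M) : m.B (-x) z = - m.B x z := by
  have := m.add_left x (-x) z
  rw [add_neg_cancel, m.zero_left] at this
  linear_combination -this

theorem neg_right (x z : M) : m.B x (-z) = - m.B x z := by
  rw [m.symm, m.neg_left, m.symm z]

theorem sub_left (x y z : M) : m.B (x - y) z = m.B x z - m.B y z := by
  rw [sub_eq_add_neg, m.add_left, m.neg_left]; ring

/-- the form as an additive map in the first variable. -/
def toHom (z : M) : M →+ F where
  toFun x := m.B x z
  map_zero' := m.zero_left z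
  map_add' x y := m.add_left x y z

theorem toHom_apply (x z : M) : m.toHom z x = m.B x z := rfl

theorem zsmul_left (n : ℤ) (x z : M) : m.B (n • x) z = n * m.B x z := by
  rw [← m.toHom_apply, map_zsmul, m.toHom_apply, zsmul_eq_mul]

theorem sum_left {ι : Type} (s : Finset ι) (f : ι → M) (z : M) :
    m.B (∑ i ∈ s, f i) z = ∑ i ∈ s, m.B (f i) z := by
  rw [← m.toHom_apply, map_sum]; rfl

variable (h : IsMalcev M)

include h

theorem flip (q X y : M) : m.B q (X * y) = - m.B (q * y) X := by
  rw [h.anti X y, m.neg_right, m.inv]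

theorem form_kw (y z a b c d e : M) :
    m.B (kw y a b c d e) z = - m.B ((y * a) * z + (z * a) * y) (((b * c) * d) * e) := by
  unfold kw
  generalize ((b * c) * d) * e = J
  rw [m.add_left, m.add_left, m.inv, m.inv (y * J), h.anti J z, h.anti a z, m.neg_right,
    m.neg_right, ← m.inv, m.symm (y * J), ← m.inv]
  ring

theorem form_kw_symm (y z a b c d e : M) :
    m.B (kw y a b c d e) z = m.B (kw z a b c d e) y := by
  rw [m.form_kw h, m.form_kw h, add_comm]

theorem form_kap_symm (y z : M) (x : Fin 5 → M) : m.B (kap y x) z = m.B (kap z x) y := by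
  unfold kap
  rw [m.sum_left, m.sum_left]
  apply Finset.sum_congr rfl
  intro σ _
  rw [m.zsmul_left, m.zsmul_left, m.form_kw_symm h]

theorem root0 (u v w y0 y1 y2 y3 : M) : m.B (kw u w y0 y1 y2 y3) v =
    m.B (u * (v * (((y0 * y1) * y2) * y3)) + v * (u * (((y0 * y1) * y2) * y3))) w := by
  rw [m.form_kw h]
  generalize ((y0 * y1) * y2) * y3 = J
  rw [m.add_left, m.add_left, h.anti u w, h.anti v w, neg_mul, neg_mul,
    m.neg_left, m.neg_left, m.inv (w * u) v J, m.inv (w * v) u J, m.inv w u, m.inv w v,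
    m.symm w, m.symm w]
  ring

theorem root1 (u v w y0 y1 y2 y3 : M) : m.B (kw u y0 w y1 y2 y3) v =
    m.B (((((u * y0) * v + (v * y0) * u) * y3) * y2) * y1) w := by
  rw [m.form_kw h]
  generalize (u * y0) * v + (v * y0) * u = q
  rw [m.flip h, m.flip h, m.flip h]
  ring

theorem root2 (u v w y0 y1 y2 y3 : M) : m.B (kw u y1 y0 w y2 y3) v =
    - m.B (((((u * y1) * v + (v * y1) * u) * y3) * y2) * y0) w := by
  rw [m.form_kw h]
  generalize (u * y1) * v + (v * y1) * u = q
  rw [m.flip h, m.flip h, m.inv (q * y3 * y2) y0 w]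
  ring

theorem root3 (u v w y0 y1 y2 y3 : M) : m.B (kw u y2 y0 y1 w y3) v =
    m.B ((((u * y2) * v + (v * y2) * u) * y3) * (y0 * y1)) w := by
  rw [m.form_kw h]
  generalize (u * y2) * v + (v * y2) * u = q
  rw [m.flip h, m.inv (q * y3) (y0 * y1) w]
  ring

theorem root4 (u v w y0 y1 y2 y3 : M) : m.B (kw u y3 y0 y1 y2 w) v =
    - m.B (((u * y3) * v + (v * y3) * u) * ((y0 * y1) * y2)) w := by
  rw [m.form_kw h, m.inv]

theorem root (u v w : M) (x : Fin 4 → M) :
    m.B (kap u (Fin.cons w x)) v = m.B (kt u v x) w := by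
  unfold kap kt
  rw [m.sum_left, m.sum_left]
  have e1 := alt_expand w x (fun X => m.B (kw u (X 0) (X 1) (X 2) (X 3) (X 4)) v)
  simp only [m.zsmul_left]
  simp only [zsmul_eq_mul] at e1
  rw [e1]
  apply Finset.sum_congr rfl
  intro e _
  congr 1
  have hy : (fun k => x (e k)) = ![x (e 0), x (e 1), x (e 2), x (e 3)] := by
    funext k; fin_cases k <;> rfl
  rw [hy]
  generalize x (e 0) = y0
  generalize x (e 1) = y1
  generalize x (e 2) = y2
  generalize x (e 3) = y3
  have p0 : place w ![y0, y1, y2, y3] 0 = ![w, y0, y1, y2, y3] := rfl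
  have p1 : place w ![y0, y1, y2, y3] 1 = ![y0, w, y1, y2, y3] := rfl
  have p2 : place w ![y0, y1, y2, y3] 2 = ![y1, y0, w, y2, y3] := rfl
  have p3 : place w ![y0, y1, y2, y3] 3 = ![y2, y0, y1, w, y3] := rfl
  have p4 : place w ![y0, y1, y2, y3] 4 = ![y3, y0, y1, y2, w] := rfl
  rw [p0, p1, p2, p3, p4]
  simp only [ktw, m.add_left, m.sub_left]
  have g0 := m.root0 h u v w y0 y1 y2 y3
  have g1 := m.root1 h u v w y0 y1 y2 y3
  have g2 := m.root2 h u v w y0 y1 y2 y3
  have g3 := m.root3 h u v w y0 y1 y2 y3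
  have g4 := m.root4 h u v w y0 y1 y2 y3
  rw [m.add_left] at g0
  change m.B (kw u w y0 y1 y2 y3) v - m.B (kw u y0 w y1 y2 y3) v - m.B (kw u y1 y0 w y2 y3) v
    - m.B (kw u y2 y0 y1 w y3) v - m.B (kw u y3 y0 y1 y2 w) v = _
  rw [g0, g1, g2, g3, g4]
  ring

end Met

end Pool.Agent.MAL
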