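import Pool.Agent.MAL.TQ

/-!
Nested alternating sums and certified identities with arbitrary order of the letters.
-/

set_option autoImplicit false

namespace Pool.Agent.MAL

open Equiv Pool.Agent.MAL.Cert

section

variable {M G : Type} [AddCommGroup G] {K k : ℕ}

theorem alt_nest (g : (Fin k → M) → (Fin K → M) → G) (emb : Fin k ↪ Fin K)
    (hg : ∀ s t t', (∀ i, (∀ k, emb k ≠ i) → t i = t' i) → g s t = g s t') (x : Fin K → M) :
    alt K (fun t => alt k (fun s => g s t) (fun i => t (emb i))) x =
      (k.factorial : ℤ) • alt K (fun t => g (fun i => t (emb i)) t) x := by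
  classical
  have h1 : ∀ σ : Perm (Fin k), alt K (fun t => g (fun i => t (emb (σ i))) t) x =
      (Perm.sign σ : ℤ) • alt K (fun t => g (fun i => t (emb i)) t) x := by
    intro σ
    have h2 := alt_precomp (fun t => g (fun i => t (emb i)) t) x (σ.viaFintypeEmbedding emb)
    rw [Perm.viaFintypeEmbedding_sign] at h2
    rw [← h2]
    congr 1
    funext t
    have h3 : (fun i => t (emb (σ i))) =
        fun i => t ((σ.viaFintypeEmbedding emb) (emb i)) := by
      funext i
      rw [Perm.viaFintypeEmbedding_apply_image]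
    rw [h3]
    apply hg
    intro i hi
    have hi' : i ∉ Set.range emb := by
      rintro ⟨k, hk⟩
      exact hi k hk
    rw [Perm.viaFintypeEmbedding_apply_notMem_range _ _ hi']
  have h4 : alt K (fun t => alt k (fun s => g s t) (fun i => t (emb i))) x =
      ∑ σ : Perm (Fin k), (Perm.sign σ : ℤ) •
        alt K (fun t => g (fun i => t (emb (σ i))) t) x := by
    unfold alt
    simp only [Finset.smul_sum]
    rw [Finset.sum_comm]
    refine Finset.sum_congr rfl fun σ _ => Finset.sum_congr rfl fun τ _ => ?_
    rw [smul_comm]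
  rw [h4]
  have h5 : ∀ σ : Perm (Fin k), (Perm.sign σ : ℤ) •
      alt K (fun t => g (fun i => t (emb (σ i))) t) x =
      alt K (fun t => g (fun i => t (emb i)) t) x := by
    intro σ
    rw [h1, smul_smul]
    rcases Int.units_eq_one_or (Perm.sign σ) with h | h <;> rw [h] <;> simp
  rw [Finset.sum_congr rfl fun σ _ => h5 σ, Finset.sum_const, Finset.card_univ,
    Fintype.card_perm, Fintype.card_fin]
  simp

theorem nest3 (a b c : Fin K) (h : Function.Injective ![a, b, c])
    (g : M → M → M → (Fin K → M) → G)
    (hg : ∀ p q r t t', (∀ i, i ≠ a → i ≠ b → i ≠ c → t i = t' i) →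
      g p q r t = g p q r t') (x : Fin K → M) :
    alt K (fun t => alt 3 (fun s => g (s 0) (s 1) (s 2) t) ![t a, t b, t c]) x =
      (6 : ℤ) • alt K (fun t => g (t a) (t b) (t c) t) x := by
  have h1 := alt_nest (fun s t => g (s 0) (s 1) (s 2) t) ⟨![a, b, c], h⟩ (by
    intro s t t' h
    apply hg
    intro i h1 h2 h3
    apply h
    intro k
    fin_cases k
    · exact h1.symm
    · exact h2.symm
    · exact h3.symm) x
  have h2 : ∀ t : Fin K → M, ![t a, t b, t c] = fun i => t (![a, b, c] i) := by
    intro t; funext i; fin_cases i <;> rfl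
  simp only [h2]
  exact h1

theorem nest4 (a b c d : Fin K) (h : Function.Injective ![a, b, c, d])
    (g : M → M → M → M → (Fin K → M) → G)
    (hg : ∀ p q r s t t', (∀ i, i ≠ a → i ≠ b → i ≠ c → i ≠ d → t i = t' i) →
      g p q r s t = g p q r s t') (x : Fin K → M) :
    alt K (fun t => alt 4 (fun s => g (s 0) (s 1) (s 2) (s 3) t) ![t a, t b, t c, t d]) x =
      (24 : ℤ) • alt K (fun t => g (t a) (t b) (t c) (t d) t) x := by
  have h1 := alt_nest (fun s t => g (s 0) (s 1) (s 2) (s 3) t) ⟨![a, b, c, d], h⟩ (by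
    intro s t t' h
    apply hg
    intro i h1 h2 h3 h4
    apply h
    intro k
    fin_cases k
    · exact h1.symm
    · exact h2.symm
    · exact h3.symm
    · exact h4.symm) x
  have h2 : ∀ t : Fin K → M, ![t a, t b, t c, t d] = fun i => t (![a, b, c, d] i) := by
    intro t; funext i; fin_cases i <;> rfl
  simp only [h2]
  exact h1

theorem nest5 (a b c d e : Fin K) (h : Function.Injective ![a, b, c, d, e])
    (g : M → M → M → M → M → (Fin K → M) → G)
    (hg : ∀ p q r s u t t', (∀ i, i ≠ a → i ≠ b → i ≠ c → i ≠ d → i ≠ e → t i = t' i) →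
      g p q r s u t = g p q r s u t') (x : Fin K → M) :
    alt K (fun t => alt 5 (fun s => g (s 0) (s 1) (s 2) (s 3) (s 4) t)
      ![t a, t b, t c, t d, t e]) x =
      (120 : ℤ) • alt K (fun t => g (t a) (t b) (t c) (t d) (t e) t) x := by
  have h1 := alt_nest (fun s t => g (s 0) (s 1) (s 2) (s 3) (s 4) t) ⟨![a, b, c, d, e], h⟩ (by
    intro s t t' h
    apply hg
    intro i h1 h2 h3 h4 h5
    apply h
    intro k
    fin_cases k
    · exact h1.symm
    · exact h2.symm
    · exact h3.symm
    · exact h4.symm
    · exact h5.symm) x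
  have h2 : ∀ t : Fin K → M, ![t a, t b, t c, t d, t e] = fun i => t (![a, b, c, d, e] i) := by
    intro t; funext i; fin_cases i <;> rfl
  simp only [h2]
  exact h1

/-- product of transpositions -/
def pm (L : List (Fin K × Fin K)) : Perm (Fin K) := L.foldr (fun p σ => swap p.1 p.2 * σ) 1

theorem pm_sign (L : List (Fin K × Fin K)) (h : ∀ p ∈ L, p.1 ≠ p.2) :
    (Perm.sign (pm L) : ℤ) = (-1) ^ L.length := by
  induction L with
  | nil => simp [pm]
  | cons p L ih =>
    have h1 : pm (p :: L) = swap p.1 p.2 * pm L := rfl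
    rw [h1, Perm.sign_mul, Perm.sign_swap (h p (by simp)), List.length_cons, pow_succ]
    have := ih (fun q hq => h q (by simp [hq]))
    push_cast
    rw [this]
    ring

end

/-- certified identities with words in which the alternating letters appear in any order -/
theorem cert_disp {M : Type} [NonUnitalNonAssocRing M] {K : ℕ} (F : Type) [Field F] [CharZero F]
    [Module F M] [IsScalarTower F M M] [SMulCommClass F M M] (hM : IsMalcev M) (P : ℕ → Bool)
    (cert : List (ℤ × ℕ)) (d : ℤ) (target : List (ℤ × Tr × List (Fin K × Fin K)))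
    (hc : check P cert d (target.map fun e => ((-1) ^ e.2.2.length * e.1, e.2.1)) = true) (j : ℕ)
    (hK : ∀ e ∈ target, e.2.1.ol P = List.replicate K j ∧ ∀ p ∈ e.2.2, p.1 ≠ p.2)
    (l : ℕ → M) (x : Fin K → M) :
    alt K (fun z => (target.map fun e =>
      e.1 • e.2.1.ev P l (ext0 (fun i => z (pm e.2.2 i))) 0).sum) x = 0 := by
  have h := cert_alt_one' F hM P cert d _ hc j (by
    intro e he
    rw [List.mem_map] at he
    obtain ⟨e', he', rfl⟩ := he
    exact (hK e' he').1) l x
  rw [← h]
  clear h hc
  induction target with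
  | nil => rfl
  | cons e t ih =>
    simp only [List.map_cons, List.sum_cons]
    rw [alt_add, alt_add, ih (fun e' he' => hK e' (by simp [he']))]
    congr 1
    rw [alt_zsmul, alt_zsmul]
    have h1 := alt_precomp (fun z => e.2.1.ev P l (ext0 z) 0) x (pm e.2.2)
    rw [h1, pm_sign _ (hK e (by simp)).2, smul_smul, mul_comm]

end Pool.Agent.MAL
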