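import Pool.Agent.MAL.CertAlt
import Pool.Agent.MAL.Kap
import Pool.Agent.MAL.Certs.C1
import Pool.Agent.MAL.Certs.C2
import Pool.Agent.MAL.Certs.C3
import Pool.Agent.MAL.Certs.C4
import Pool.Agent.MAL.Certs.C5
import Pool.Agent.MAL.Certs.C6

/-!
The alternating functions `T` (`216` times the polynomial `T5`) and the identities of degree `5`
and `6`.
-/

set_option autoImplicit false

namespace Pool.Agent.MAL

open Equiv Pool.Agent.MAL.Cert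

variable {M : Type} [NonUnitalNonAssocRing M]

/-- the Jacobian -/
def J3 (a b c : M) : M := (a * b) * c + (b * c) * a + (c * a) * b

/-- the basic combination of words for `T` -/
def w5 (a b c d v : M) : M :=
  (15 : ℤ) • ((((a * b) * c) * v) * d) + (9 : ℤ) • (((a * b) * c) * (v * d))
    + (9 : ℤ) • ((a * (v * b)) * (c * d)) - (9 : ℤ) • (((v * a) * (b * c)) * d)
    + (3 : ℤ) • ((((v * a) * b) * c) * d) + (3 : ℤ) • ((a * b) * ((v * c) * d))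
    - (3 : ℤ) • ((a * ((v * b) * c)) * d)

/-- `216` times the polynomial `T5`: alternating in the four arguments `x`. -/
def T (x : Fin 4 → M) (v : M) : M := alt 4 (fun z => w5 (z 0) (z 1) (z 2) (z 3) v) x

/-- the words of `kap` with the letters from left to right -/
def kl (y a b c d e : M) : M :=
  (y * a) * (((b * c) * d) * e) + (y * (((a * b) * c) * d)) * e

theorem kap_eq (y : M) (x : Fin 5 → M) :
    kap y x = alt 5 (fun z => kl y (z 0) (z 1) (z 2) (z 3) (z 4)) x := by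
  have h1 : kap y x = alt 5 (fun z => kw y (z 0) (z 1) (z 2) (z 3) (z 4)) x := rfl
  have h2 := alt_precomp (fun z : Fin 5 → M => (y * (((z 0 * z 1) * z 2) * z 3)) * z 4) x
    (finRotate 5)
  have h3 : ((Perm.sign (finRotate 5)) : ℤ) = 1 := by rw [sign_finRotate]; norm_num
  rw [h3, one_smul] at h2
  rw [h1]
  unfold kw kl
  rw [alt_add, alt_add, ← h2]
  rfl

theorem mul_right_alt {K : ℕ} (f : (Fin K → M) → M) (x : Fin K → M) (v : M) :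
    alt K f x * v = alt K (fun z => f z * v) x :=
  map_alt (AddMonoidHom.mulRight v) f x

theorem mul_left_alt {K : ℕ} (f : (Fin K → M) → M) (x : Fin K → M) (v : M) :
    v * alt K f x = alt K (fun z => v * f z) x :=
  map_alt (AddMonoidHom.mulLeft v) f x

/-- letters -/
def lett {M : Type} [Zero M] (L : List M) : ℕ → M := fun i => L.getD (i - 2) 0

/-- the terms of `T` in which `b` comes before `c` -/
def U (p q b c v : M) : M :=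
      w5 p q b c v
    - w5 p b q c v
    + w5 p b c q v
    - w5 q p b c v
    + w5 q b p c v
    - w5 q b c p v
    + w5 b p q c v
    - w5 b p c q v
    - w5 b q p c v
    + w5 b q c p v
    + w5 b c p q v
    - w5 b c q p v

theorem T_expand (p q b c v : M) : T ![p, q, b, c] v = U p q b c v - U p q c b v := by
  have h1 : T ![p, q, b, c] v = alt 4 (fun z => w5 (z 0) (z 1) (z 2) (z 3) v)
    (Fin.cons p ![q, b, c]) := rfl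
  rw [h1, alt_cons4, alt_three]
  simp only [Matrix.cons_val, U]
  abel

theorem T_comp (x : Fin 4 → M) (v : M) (τ : Perm (Fin 4)) :
    T (fun i => x (τ i)) v = (Perm.sign τ : ℤ) • T x v := alt_comp _ _ _

/-- `216` times the polynomial `Q5` -/
def Q (y z : M) (x : Fin 3 → M) : M :=
  - T (Fin.cons y x) z + (216 : ℤ) • (y * (J3 (x 0) (x 1) (x 2) * z))
    + (72 : ℤ) • J3 y (J3 (x 0) (x 1) (x 2)) z

/-- `216` times the polynomial `Xi` -/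
def Xi (j z w v : M) : M :=
  - ((108 : ℤ) • ((j * z) * (w * v)) + (36 : ℤ) • J3 (j * z) w v)
    + ((108 : ℤ) • ((j * v) * (z * w)) + (36 : ℤ) • J3 (j * v) z w)
    - ((108 : ℤ) • ((j * w) * (v * z)) + (36 : ℤ) • J3 (j * w) v z)

theorem J3_alt (hM : IsMalcev M) (x : Fin 3 → M) :
    (2 : ℤ) • J3 (x 0) (x 1) (x 2) = alt 3 (fun z => (z 0 * z 1) * z 2) x := by
  have hx : x = ![x 0, x 1, x 2] := by funext i; fin_cases i <;> rfl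
  rw [hx, alt_three]
  simp only [Matrix.cons_val, J3]
  rw [hM.anti (x 2) (x 1), hM.anti (x 2) (x 0), hM.anti (x 1) (x 0)]
  simp only [neg_mul]
  abel

theorem J3_alt2 (hM : IsMalcev M) (m : M) (x : Fin 2 → M) :
    (2 : ℤ) • J3 m (x 0) (x 1) =
      alt 2 (fun z => (m * z 0) * z 1 + (z 0 * z 1) * m - (z 0 * m) * z 1) x := by
  have hx : x = ![x 0, x 1] := by funext i; fin_cases i <;> rfl
  rw [hx, alt_two]
  simp only [Matrix.cons_val, J3]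
  rw [hM.anti m (x 1), hM.anti (x 1) (x 0), hM.anti (x 0) m]
  simp only [neg_mul]
  abel

theorem Q_alt (hM : IsMalcev M) (y z : M) (x : Fin 3 → M) :
    Q y z x = alt 3 (fun t => - (w5 y (t 0) (t 1) (t 2) z - w5 (t 0) y (t 1) (t 2) z
      + w5 (t 0) (t 1) y (t 2) z - w5 (t 0) (t 1) (t 2) y z)
      + (108 : ℤ) • (y * (((t 0 * t 1) * t 2) * z)) + (36 : ℤ) • J3 y ((t 0 * t 1) * t 2) z) x := by
  have h1 : (216 : ℤ) • (y * (J3 (x 0) (x 1) (x 2) * z)) =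
      (108 : ℤ) • (y * (((2 : ℤ) • J3 (x 0) (x 1) (x 2)) * z)) := by
    rw [smul_mul_assoc, mul_smul_comm, smul_smul]; norm_num
  have h2 : (72 : ℤ) • J3 y (J3 (x 0) (x 1) (x 2)) z =
      (36 : ℤ) • J3 y ((2 : ℤ) • J3 (x 0) (x 1) (x 2)) z := by
    unfold J3
    simp only [smul_mul_assoc, mul_smul_comm, ← smul_add, smul_smul]
    norm_num
  unfold Q
  rw [h1, h2, J3_alt hM, T, alt_cons4]
  simp only [J3, mul_right_alt, mul_left_alt, ← alt_zsmul, ← alt_add, ← alt_neg]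
  rfl

set_option maxRecDepth 20000 in
set_option maxHeartbeats 1000000 in
theorem C3.form (F : Type) [Field F] [CharZero F] [Module F M] [IsScalarTower F M M]
    [SMulCommClass F M M] (hM : IsMalcev M) (u v : M) (s : Fin 4 → M) :
    alt 4 (fun e =>
      ((15 : ℤ) • ((((e 0 * e 1) * e 2) * (u * v)) * e 3) + ((9 : ℤ) • (((e 0 * e 1) * e 2) * ((u * v) * e 3)) + ((9 : ℤ) • ((e 0 * ((u * v) * e 1)) * (e 2 * e 3)) + ((-9 : ℤ) • ((((u * v) * e 0) * (e 1 * e 2)) * e 3) + ((3 : ℤ) • (((((u * v) * e 0) * e 1) * e 2) * e 3) + ((3 : ℤ) • ((e 0 * e 1) * (((u * v) * e 2) * e 3)) + ((-3 : ℤ) • ((e 0 * (((u * v) * e 1) * e 2)) * e 3) + ((-15 : ℤ) • (((((e 0 * e 1) * e 2) * u) * e 3) * v) + ((-9 : ℤ) • ((((e 0 * e 1) * e 2) * (u * e 3)) * v) + ((-9 : ℤ) • (((e 0 * (u * e 1)) * (e 2 * e 3)) * v) + ((9 : ℤ) • ((((u * e 0) * (e 1 * e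 2)) * e 3) * v) + ((-3 : ℤ) • (((((u * e 0) * e 1) * e 2) * e 3) * v) + ((-3 : ℤ) • (((e 0 * e 1) * ((u * e 2) * e 3)) * v) + ((3 : ℤ) • (((e 0 * ((u * e 1) * e 2)) * e 3) * v) + ((3 : ℤ) • ((u * v) * (((e 0 * e 1) * e 2) * e 3)) + ((3 : ℤ) • ((u * (((v * e 0) * e 1) * e 2)) * e 3) + ((-3 : ℤ) • ((u * e 0) * (((v * e 1) * e 2) * e 3)) + ((-3 : ℤ) • ((u * (((e 0 * v) * e 1) * e 2)) * e 3) + ((3 : ℤ) • ((u * e 0) * (((e 1 * v) * e 2) * e 3)) + ((3 : ℤ) • ((u * (((e 0 * e 1) * v) * e 2)) * e 3) + ((-3 : ℤ) • ((u * e 0) * (((e 1 * e 2) * v) * e 3)) + ((-3 : ℤ) • ((u * (((e 0 * e 1) * e 2) * v)) * e 3) + ((3 : ℤ) • ((u * e 0) * (((e 1 * e 2) * e 3) * v)) + ((3 : ℤ) • ((u * (((e 0 * e 1) * e 2) * e 3)) * v) + 0))))))))))))))))))))))))) s = 0 :=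
  cert_alt_one' F hM C3.P C3.cert 4 C3.target C3.ok 1 (K := 4) (by decide)
    (lett [u, v]) s


set_option maxRecDepth 20000 in
set_option maxHeartbeats 1000000 in
theorem idC3 (F : Type) [Field F] [CharZero F] [Module F M] [IsScalarTower F M M]
    [SMulCommClass F M M] (hM : IsMalcev M) (u v : M) (x : Fin 4 → M) :
    T x (u * v) = T x u * v - (3 : ℤ) • kap u (Fin.cons v x) := by
  have h := C3.form F hM u v x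
  rw [← sub_eq_zero, ← h]
  rw [kap_eq, alt_cons5, T, T, mul_right_alt, ← alt_zsmul, ← alt_sub, ← alt_sub]
  congr 1
  funext z
  simp only [w5, kl, add_mul, sub_mul, smul_mul_assoc, Matrix.cons_val]
  abel

set_option maxRecDepth 20000 in
set_option maxHeartbeats 1000000 in
theorem C1.form (F : Type) [Field F] [CharZero F] [Module F M] [IsScalarTower F M M]
    [SMulCommClass F M M] (hM : IsMalcev M) (y z : M) (s : Fin 3 → M) :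
    alt 3 (fun e =>
      ((-12 : ℤ) • ((((y * e 0) * e 1) * z) * e 2) + ((-9 : ℤ) • (((y * e 0) * e 1) * (z * e 2)) + ((-9 : ℤ) • ((y * (z * e 0)) * (e 1 * e 2)) + ((9 : ℤ) • (((z * y) * (e 0 * e 1)) * e 2) + ((-3 : ℤ) • ((((z * y) * e 0) * e 1) * e 2) + ((-3 : ℤ) • ((y * e 0) * ((z * e 1) * e 2)) + ((3 : ℤ) • ((y * ((z * e 0) * e 1)) * e 2) + ((15 : ℤ) • ((((e 0 * y) * e 1) * z) * e 2) + ((9 : ℤ) • (((e 0 * y) * e 1) * (z * e 2)) + ((9 : ℤ) • ((e 0 * (z * y)) * (e 1 * e 2)) + ((-9 : ℤ) • (((z * e 0) * (y * e 1)) * e 2) + ((3 : ℤ) • ((((z * e 0) * y) * e 1) * e 2) + ((3 : ℤ) • ((e 0 * y) * ((z * e 1) * e 2)) + ((-3 : ℤ) • ((e 0 * ((z * y) * e 1)) * e 2) + ((-15 : ℤ) • ((((e 0 * e 1) * y) * z) * e 2) + ((-9 : ℤ) • (((e 0 * e 1) * y) * (z * e 2)) + ((-9 : ℤ) • ((e 0 * (z * e 1)) * (y * e 2)) + ((9 : ℤ) • (((z * e 0) *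 (e 1 * y)) * e 2) + ((12 : ℤ) • ((((z * e 0) * e 1) * y) * e 2) + ((-3 : ℤ) • ((e 0 * e 1) * ((z * y) * e 2)) + ((3 : ℤ) • ((e 0 * ((z * e 1) * y)) * e 2) + ((51 : ℤ) • ((((e 0 * e 1) * e 2) * z) * y) + ((9 : ℤ) • (((e 0 * e 1) * e 2) * (z * y)) + ((9 : ℤ) • ((e 0 * (z * e 1)) * (e 2 * y)) + ((-9 : ℤ) • (((z * e 0) * (e 1 * e 2)) * y) + ((3 : ℤ) • ((((z * e 0) * e 1) * e 2) * y) + ((3 : ℤ) • ((e 0 * e 1) * ((z * e 2) * y)) + ((-3 : ℤ) • ((e 0 * ((z * e 1) * e 2)) * y) + ((108 : ℤ) • (y * (((e 0 * e 1) * e 2) * z)) + ((36 : ℤ) • ((y * ((e 0 * e 1) * e 2)) * z) + ((36 : ℤ) • ((z * y) * ((e 0 * e 1) * e 2)) + ((9 : ℤ) • (((z * e 0) * e 1) * (y * e 2)) + ((9 : ℤ) • ((z * (y * e 0)) * (e 1 * e 2)) + ((-9 : ℤ) • (((y * z) * (e 0 * e 1)) * e 2) + ((3 : ℤ) • ((((y * z) * e 0) * e 1) * e 2) + ((3 : ℤ) • ((z * e 0) * ((y * e 1)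 * e 2)) + ((-3 : ℤ) • ((z * ((y * e 0) * e 1)) * e 2) + ((-15 : ℤ) • ((((e 0 * z) * e 1) * y) * e 2) + ((-9 : ℤ) • (((e 0 * z) * e 1) * (y * e 2)) + ((-9 : ℤ) • ((e 0 * (y * z)) * (e 1 * e 2)) + ((9 : ℤ) • (((y * e 0) * (z * e 1)) * e 2) + ((-3 : ℤ) • ((((y * e 0) * z) * e 1) * e 2) + ((-3 : ℤ) • ((e 0 * z) * ((y * e 1) * e 2)) + ((3 : ℤ) • ((e 0 * ((y * z) * e 1)) * e 2) + ((15 : ℤ) • ((((e 0 * e 1) * z) * y) * e 2) + ((9 : ℤ) • (((e 0 * e 1) * z) * (y * e 2)) + ((9 : ℤ) • ((e 0 * (y * e 1)) * (z * e 2)) + ((-9 : ℤ) • (((y * e 0) * (e 1 * z)) * e 2) + ((3 : ℤ) • ((e 0 * e 1) * ((y * z) * e 2)) + ((-3 : ℤ) • ((e 0 * ((y * e 1) * z)) * e 2) + ((-51 : ℤ) • ((((e 0 * e 1) * e 2) * y) * z) + ((-9 : ℤ) • (((e 0 * e 1) * e 2) * (y * z)) + ((-9 : ℤ) • ((e 0 * (y * e 1)) * (e 2 * z)) + ((9 : ℤ) • (((y * e 0) * (e 1 * e 2)) *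 z) + ((-3 : ℤ) • ((((y * e 0) * e 1) * e 2) * z) + ((-3 : ℤ) • ((e 0 * e 1) * ((y * e 2) * z)) + ((3 : ℤ) • ((e 0 * ((y * e 1) * e 2)) * z) + ((-108 : ℤ) • (z * (((e 0 * e 1) * e 2) * y)) + ((-36 : ℤ) • ((z * ((e 0 * e 1) * e 2)) * y) + ((-36 : ℤ) • ((y * z) * ((e 0 * e 1) * e 2)) + 0))))))))))))))))))))))))))))))))))))))))))))))))))))))))))))) s = 0 :=
  cert_alt_one' F hM C1.P C1.cert 1 C1.target C1.ok 1 (K := 3) (by decide)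
    (lett [y, z]) s


set_option maxRecDepth 20000 in
set_option maxHeartbeats 1000000 in
theorem idC1 (F : Type) [Field F] [CharZero F] [Module F M] [IsScalarTower F M M]
    [SMulCommClass F M M] (hM : IsMalcev M) (y z : M) (x : Fin 3 → M) :
    Q y z x = Q z y x := by
  have h := C1.form F hM y z x
  rw [← sub_eq_zero, ← h, Q_alt hM, Q_alt hM, ← alt_sub]
  congr 1
  funext t
  simp only [w5, J3]
  abel

set_option maxRecDepth 20000 in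
set_option maxHeartbeats 1000000 in
theorem C2.form (F : Type) [Field F] [CharZero F] [Module F M] [IsScalarTower F M M]
    [SMulCommClass F M M] (hM : IsMalcev M) (a b c : M) (s : Fin 2 → M) :
    alt 2 (fun e =>
      ((108 : ℤ) • (((a * (b * c)) * e 0) * e 1) + ((108 : ℤ) • ((e 0 * e 1) * (a * (b * c))) + ((-108 : ℤ) • ((e 0 * (a * (b * c))) * e 1) + ((36 : ℤ) • ((((a * b) * c) * e 0) * e 1) + ((36 : ℤ) • ((e 0 * e 1) * ((a * b) * c)) + ((-36 : ℤ) • ((e 0 * ((a * b) * c)) * e 1) + ((39 : ℤ) • ((((b * c) * a) * e 0) * e 1) + ((39 : ℤ) • ((e 0 * e 1) * ((b * c) * a)) + ((-39 : ℤ) • ((e 0 * ((b * c) * a)) * e 1) + ((39 : ℤ) • ((((c * a) * b) * e 0) * e 1) + ((39 : ℤ) • ((e 0 * e 1) * ((c * a) * b)) + ((-39 : ℤ) • ((e 0 * ((c * a) * b)) * e 1) + ((-12 : ℤ) • ((((b * a) * e 0) * c) * e 1) + ((-9 : ℤ) • (((b * a) * e 0)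 * (c * e 1)) + ((-9 : ℤ) • ((b * (c * a)) * (e 0 * e 1)) + ((9 : ℤ) • (((c * b) * (a * e 0)) * e 1) + ((-3 : ℤ) • ((((c * b) * a) * e 0) * e 1) + ((33 : ℤ) • ((b * a) * ((c * e 0) * e 1)) + ((3 : ℤ) • ((b * ((c * a) * e 0)) * e 1) + ((12 : ℤ) • ((((b * e 0) * a) * c) * e 1) + ((9 : ℤ) • (((b * e 0) * a) * (c * e 1)) + ((9 : ℤ) • ((b * (c * e 0)) * (a * e 1)) + ((-9 : ℤ) • (((c * b) * (e 0 * a)) * e 1) + ((3 : ℤ) • ((((c * b) * e 0) * a) * e 1) + ((3 : ℤ) • ((b * e 0) * ((c * a) * e 1)) + ((-3 : ℤ) • ((b * ((c * e 0) * a)) * e 1) + ((-48 : ℤ) • ((((b * e 0) * e 1) * c) * a) + ((-9 : ℤ) • (((b * e 0) * e 1) * (c * a)) + ((-9 : ℤ) • ((b * (c * e 0)) * (e 1 * a)) + ((9 : ℤ) • (((c * b) * (e 0 * e 1)) * a) + ((-3 : ℤ) • ((((c * b) * e 0) * e 1) * a) + ((-3 : ℤ) • ((b * e 0) * ((c * e 1) * a)) + ((3 : ℤ) • ((b * ((c * e 0)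 * e 1)) * a) + ((15 : ℤ) • ((((a * b) * e 0) * c) * e 1) + ((9 : ℤ) • (((a * b) * e 0) * (c * e 1)) + ((9 : ℤ) • ((a * (c * b)) * (e 0 * e 1)) + ((-9 : ℤ) • (((c * a) * (b * e 0)) * e 1) + ((3 : ℤ) • ((a * b) * ((c * e 0) * e 1)) + ((-3 : ℤ) • ((a * ((c * b) * e 0)) * e 1) + ((-15 : ℤ) • ((((a * e 0) * b) * c) * e 1) + ((-9 : ℤ) • (((a * e 0) * b) * (c * e 1)) + ((-9 : ℤ) • ((a * (c * e 0)) * (b * e 1)) + ((9 : ℤ) • (((c * a) * (e 0 * b)) * e 1) + ((12 : ℤ) • ((((c * a) * e 0) * b) * e 1) + ((-3 : ℤ) • ((a * e 0) * ((c * b) * e 1)) + ((3 : ℤ) • ((a * ((c * e 0) * b)) * e 1) + ((15 : ℤ) • ((((a * e 0) * e 1) * c) * b) + ((9 : ℤ) • (((a * e 0) * e 1) * (c * b)) + ((9 : ℤ) • ((a * (c * e 0)) * (e 1 * b)) + ((-9 : ℤ) • (((c * a) * (e 0 * e 1)) * b) + ((3 : ℤ) • ((((c * a) * e 0) * e 1) * b) + ((3 : ℤ) • ((a * e 0) * ((c *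 e 1) * b)) + ((33 : ℤ) • ((a * ((c * e 0) * e 1)) * b) + ((-15 : ℤ) • ((((e 0 * b) * a) * c) * e 1) + ((-9 : ℤ) • (((e 0 * b) * a) * (c * e 1)) + ((-9 : ℤ) • ((e 0 * (c * b)) * (a * e 1)) + ((9 : ℤ) • (((c * e 0) * (b * a)) * e 1) + ((-3 : ℤ) • ((((c * e 0) * b) * a) * e 1) + ((-3 : ℤ) • ((e 0 * b) * ((c * a) * e 1)) + ((3 : ℤ) • ((e 0 * ((c * b) * a)) * e 1) + ((51 : ℤ) • ((((e 0 * b) * e 1) * c) * a) + ((9 : ℤ) • (((e 0 * b) * e 1) * (c * a)) + ((9 : ℤ) • ((e 0 * (c * b)) * (e 1 * a)) + ((-9 : ℤ) • (((c * e 0) * (b * e 1)) * a) + ((3 : ℤ) • ((((c * e 0) * b) * e 1) * a) + ((3 : ℤ) • ((e 0 * b) * ((c * e 1) * a)) + ((-3 : ℤ) • ((e 0 * ((c * b) * e 1)) * a) + ((15 : ℤ) • ((((e 0 * a) * b) * c) * e 1) + ((9 : ℤ) • (((e 0 * a) * b) * (c * e 1)) + ((9 : ℤ) • ((e 0 * (c * a)) * (b * e 1)) + ((-9 : ℤ) • (((c * e 0) * (a *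 b)) * e 1) + ((-12 : ℤ) • ((((c * e 0) * a) * b) * e 1) + ((3 : ℤ) • ((e 0 * a) * ((c * b) * e 1)) + ((-15 : ℤ) • ((((e 0 * a) * e 1) * c) * b) + ((-9 : ℤ) • (((e 0 * a) * e 1) * (c * b)) + ((-9 : ℤ) • ((e 0 * (c * a)) * (e 1 * b)) + ((9 : ℤ) • (((c * e 0) * (a * e 1)) * b) + ((-3 : ℤ) • ((((c * e 0) * a) * e 1) * b) + ((-3 : ℤ) • ((e 0 * a) * ((c * e 1) * b)) + ((3 : ℤ) • ((e 0 * ((c * a) * e 1)) * b) + ((-51 : ℤ) • ((((e 0 * e 1) * b) * c) * a) + ((-9 : ℤ) • (((e 0 * e 1) * b) * (c * a)) + ((-9 : ℤ) • ((e 0 * (c * e 1)) * (b * a)) + ((9 : ℤ) • (((c * e 0) * (e 1 * b)) * a) + ((48 : ℤ) • ((((c * e 0) * e 1) * b) * a) + ((-3 : ℤ) • ((e 0 * e 1) * ((c * b) * a)) + ((3 : ℤ) • ((e 0 * ((c * e 1) * b)) * a) + ((15 : ℤ) • ((((e 0 * e 1) * a) * c) * b) + ((9 : ℤ) • (((e 0 * e 1) * a) * (c * b)) + ((9 : ℤ) • ((e 0 * (c * e 1))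 * (a * b)) + ((-9 : ℤ) • (((c * e 0) * (e 1 * a)) * b) + ((3 : ℤ) • ((((c * e 0) * e 1) * a) * b) + ((-3 : ℤ) • ((e 0 * ((c * e 1) * a)) * b) + ((-108 : ℤ) • (a * (((b * e 0) * e 1) * c)) + ((-33 : ℤ) • ((a * ((b * e 0) * e 1)) * c) + ((-33 : ℤ) • ((c * a) * ((b * e 0) * e 1)) + ((-108 : ℤ) • (a * (((e 0 * e 1) * b) * c)) + ((-36 : ℤ) • ((a * ((e 0 * e 1) * b)) * c) + ((-36 : ℤ) • ((c * a) * ((e 0 * e 1) * b)) + ((108 : ℤ) • (a * (((e 0 * b) * e 1) * c)) + ((36 : ℤ) • ((a * ((e 0 * b) * e 1)) * c) + ((36 : ℤ) • ((c * a) * ((e 0 * b) * e 1)) + ((9 : ℤ) • (((c * a) * e 0) * (b * e 1)) + ((9 : ℤ) • ((c * (b * a)) * (e 0 * e 1)) + ((-9 : ℤ) • (((b * c) * (a * e 0)) * e 1) + ((-3 : ℤ) • ((c * ((b * a) * e 0)) * e 1) + ((-9 : ℤ) • (((c * e 0) * a) * (b * e 1)) + ((-9 : ℤ) • ((c * (b * e 0)) * (a * e 1)) + ((9 : ℤ) • (((b *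 c) * (e 0 * a)) * e 1) + ((-3 : ℤ) • ((((b * c) * e 0) * a) * e 1) + ((-3 : ℤ) • ((c * e 0) * ((b * a) * e 1)) + ((3 : ℤ) • ((c * ((b * e 0) * a)) * e 1) + ((9 : ℤ) • (((c * e 0) * e 1) * (b * a)) + ((9 : ℤ) • ((c * (b * e 0)) * (e 1 * a)) + ((-9 : ℤ) • (((b * c) * (e 0 * e 1)) * a) + ((3 : ℤ) • ((((b * c) * e 0) * e 1) * a) + ((3 : ℤ) • ((c * e 0) * ((b * e 1) * a)) + ((-3 : ℤ) • ((c * ((b * e 0) * e 1)) * a) + ((-15 : ℤ) • ((((a * c) * e 0) * b) * e 1) + ((-9 : ℤ) • (((a * c) * e 0) * (b * e 1)) + ((-9 : ℤ) • ((a * (b * c)) * (e 0 * e 1)) + ((9 : ℤ) • (((b * a) * (c * e 0)) * e 1) + ((-3 : ℤ) • ((((b * a) * c) * e 0) * e 1) + ((-3 : ℤ) • ((a * c) * ((b * e 0) * e 1)) + ((3 : ℤ) • ((a * ((b * c) * e 0)) * e 1) + ((15 : ℤ) • ((((a * e 0) * c) * b) * e 1) + ((9 : ℤ) • (((a * e 0) * c) * (b * e 1)) + ((9 : ℤ) • ((a * (b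 * e 0)) * (c * e 1)) + ((-9 : ℤ) • (((b * a) * (e 0 * c)) * e 1) + ((3 : ℤ) • ((a * e 0) * ((b * c) * e 1)) + ((-3 : ℤ) • ((a * ((b * e 0) * c)) * e 1) + ((-15 : ℤ) • ((((a * e 0) * e 1) * b) * c) + ((-9 : ℤ) • (((a * e 0) * e 1) * (b * c)) + ((-9 : ℤ) • ((a * (b * e 0)) * (e 1 * c)) + ((9 : ℤ) • (((b * a) * (e 0 * e 1)) * c) + ((-3 : ℤ) • ((((b * a) * e 0) * e 1) * c) + ((-3 : ℤ) • ((a * e 0) * ((b * e 1) * c)) + ((15 : ℤ) • ((((e 0 * c) * a) * b) * e 1) + ((9 : ℤ) • (((e 0 * c) * a) * (b * e 1)) + ((9 : ℤ) • ((e 0 * (b * c)) * (a * e 1)) + ((-9 : ℤ) • (((b * e 0) * (c * a)) * e 1) + ((3 : ℤ) • ((((b * e 0) * c) * a) * e 1) + ((3 : ℤ) • ((e 0 * c) * ((b * a) * e 1)) + ((-51 : ℤ) • ((((e 0 * c) * e 1) * b) * a) + ((-9 : ℤ) • (((e 0 * c) * e 1) * (b * a)) + ((-9 : ℤ) • ((e 0 * (b * c)) * (e 1 * a)) + ((9 : ℤ) • (((b *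 e 0) * (c * e 1)) * a) + ((-3 : ℤ) • ((((b * e 0) * c) * e 1) * a) + ((-3 : ℤ) • ((e 0 * c) * ((b * e 1) * a)) + ((3 : ℤ) • ((e 0 * ((b * c) * e 1)) * a) + ((-15 : ℤ) • ((((e 0 * a) * c) * b) * e 1) + ((-9 : ℤ) • (((e 0 * a) * c) * (b * e 1)) + ((-9 : ℤ) • ((e 0 * (b * a)) * (c * e 1)) + ((9 : ℤ) • (((b * e 0) * (a * c)) * e 1) + ((-3 : ℤ) • ((e 0 * a) * ((b * c) * e 1)) + ((3 : ℤ) • ((e 0 * ((b * a) * c)) * e 1) + ((15 : ℤ) • ((((e 0 * a) * e 1) * b) * c) + ((9 : ℤ) • (((e 0 * a) * e 1) * (b * c)) + ((9 : ℤ) • ((e 0 * (b * a)) * (e 1 * c)) + ((-9 : ℤ) • (((b * e 0) * (a * e 1)) * c) + ((3 : ℤ) • ((((b * e 0) * a) * e 1) * c) + ((3 : ℤ) • ((e 0 * a) * ((b * e 1) * c)) + ((-3 : ℤ) • ((e 0 * ((b * a) * e 1)) * c) + ((51 : ℤ) • ((((e 0 * e 1) * c) * b) * a) + ((9 : ℤ) • (((e 0 * e 1) * c) * (b * a)) + ((9 : ℤ) • ((e 0 *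 (b * e 1)) * (c * a)) + ((-9 : ℤ) • (((b * e 0) * (e 1 * c)) * a) + ((-3 : ℤ) • ((e 0 * ((b * e 1) * c)) * a) + ((-15 : ℤ) • ((((e 0 * e 1) * a) * b) * c) + ((-9 : ℤ) • (((e 0 * e 1) * a) * (b * c)) + ((-9 : ℤ) • ((e 0 * (b * e 1)) * (a * c)) + ((9 : ℤ) • (((b * e 0) * (e 1 * a)) * c) + ((-3 : ℤ) • ((((b * e 0) * e 1) * a) * c) + ((-3 : ℤ) • ((e 0 * e 1) * ((b * a) * c)) + ((3 : ℤ) • ((e 0 * ((b * e 1) * a)) * c) + ((108 : ℤ) • (a * (((c * e 0) * e 1) * b)) + ((108 : ℤ) • (a * (((e 0 * e 1) * c) * b)) + ((36 : ℤ) • ((a * ((e 0 * e 1) * c)) * b) + ((36 : ℤ) • ((b * a) * ((e 0 * e 1) * c)) + ((-108 : ℤ) • (a * (((e 0 * c) * e 1) * b)) + ((-36 : ℤ) • ((a * ((e 0 * c) * e 1)) * b) + ((-36 : ℤ) • ((b * a) * ((e 0 * c) * e 1)) + 0)))))))))))))))))))))))))))))))))))))))))))))))))))))))))))))))))))))))))))))))))))))))))))))))))))))))))))))))))))))))))))))))))))))))))))))))))))))))))))))))))))))))))))))))))))))))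 s = 0 :=
  cert_alt_one' F hM C2.P C2.cert 1 C2.target C2.ok 1 (K := 2) (by decide)
    (lett [a, b, c]) s


theorem Q_alt2 (hM : IsMalcev M) (y z g : M) (x : Fin 2 → M) :
    Q y z (Fin.cons g x) = alt 2 (fun t =>
      - ((w5 y g (t 0) (t 1) z - w5 g y (t 0) (t 1) z + w5 g (t 0) y (t 1) z
          - w5 g (t 0) (t 1) y z)
        - (w5 y (t 0) g (t 1) z - w5 (t 0) y g (t 1) z + w5 (t 0) g y (t 1) z
          - w5 (t 0) g (t 1) y z)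
        + (w5 y (t 0) (t 1) g z - w5 (t 0) y (t 1) g z + w5 (t 0) (t 1) y g z
          - w5 (t 0) (t 1) g y z))
      + (108 : ℤ) • (y * (((g * t 0) * t 1 + (t 0 * t 1) * g - (t 0 * g) * t 1) * z))
      + (36 : ℤ) • J3 y ((g * t 0) * t 1 + (t 0 * t 1) * g - (t 0 * g) * t 1) z) x := by
  have h1 : (216 : ℤ) • (y * (J3 g (x 0) (x 1) * z)) =
      (108 : ℤ) • (y * (((2 : ℤ) • J3 g (x 0) (x 1)) * z)) := by
    rw [smul_mul_assoc, mul_smul_comm, smul_smul]; norm_num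
  have h2 : (72 : ℤ) • J3 y (J3 g (x 0) (x 1)) z =
      (36 : ℤ) • J3 y ((2 : ℤ) • J3 g (x 0) (x 1)) z := by
    unfold J3
    simp only [smul_mul_assoc, mul_smul_comm, ← smul_add, smul_smul]
    norm_num
  have h3 : Q y z (Fin.cons g x) = - T (Fin.cons y (Fin.cons g x)) z
    + (216 : ℤ) • (y * (J3 g (x 0) (x 1) * z)) + (72 : ℤ) • J3 y (J3 g (x 0) (x 1)) z := rfl
  rw [h3, h1, h2, J3_alt2 hM, T, alt_cons4, alt_cons3]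
  simp only [J3, mul_right_alt, mul_left_alt, ← alt_zsmul, ← alt_add, ← alt_neg, Matrix.cons_val]

set_option maxHeartbeats 2000000 in
theorem idC2 (F : Type) [Field F] [CharZero F] [Module F M] [IsScalarTower F M M]
    [SMulCommClass F M M] (hM : IsMalcev M) (a b c : M) (x : Fin 2 → M) :
    (216 : ℤ) • J3 (a * (b * c)) (x 0) (x 1) - Q a c (Fin.cons b x) + Q a b (Fin.cons c x)
      + (72 : ℤ) • J3 (J3 a b c) (x 0) (x 1) = 0 := by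
  have h := C2.form F hM a b c x
  have h1 : (216 : ℤ) • J3 (a * (b * c)) (x 0) (x 1) =
      (108 : ℤ) • ((2 : ℤ) • J3 (a * (b * c)) (x 0) (x 1)) := by rw [smul_smul]; norm_num
  have h2 : (72 : ℤ) • J3 (J3 a b c) (x 0) (x 1) =
      (36 : ℤ) • ((2 : ℤ) • J3 (J3 a b c) (x 0) (x 1)) := by rw [smul_smul]; norm_num
  rw [← h, Q_alt2 hM, Q_alt2 hM, h1, h2, J3_alt2 hM, J3_alt2 hM]
  simp only [← alt_zsmul, ← alt_sub, ← alt_add]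
  congr 1
  funext t
  simp only [w5, J3, add_mul, sub_mul, mul_add, mul_sub]
  abel

theorem alt_rot (g : M → M → M → M) (x : Fin 3 → M) :
    alt 3 (fun t => g (t 1) (t 2) (t 0)) x = alt 3 (fun t => g (t 0) (t 1) (t 2)) x := by
  have h2 := alt_precomp (fun z : Fin 3 → M => g (z 0) (z 1) (z 2)) x (finRotate 3)
  have h3 : ((Perm.sign (finRotate 3)) : ℤ) = 1 := by rw [sign_finRotate]; norm_num
  rw [h3, one_smul] at h2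
  rw [← h2]
  rfl

theorem alt_J3m (c : M) (f : M →+ M) (x : Fin 3 → M) :
    alt 3 (fun t => f (J3 c (t 0) (t 1 * t 2))) x =
      alt 3 (fun t => f ((c * t 0) * (t 1 * t 2) + (t 0 * (t 1 * t 2)) * c
        + ((t 0 * t 1) * c) * t 2)) x := by
  have h := alt_rot (fun a b d => f (((a * b) * c) * d)) x
  simp only [J3, map_add]
  rw [alt_add, alt_add, alt_add, alt_add, ← h]

/-- the alternating sum of `T` with arguments `p, q, t 0, t 1 * t 2` -/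
theorem T_m (p q v : M) (x : Fin 3 → M) :
    alt 3 (fun t => T ![p, q, t 0, t 1 * t 2] v) x =
      alt 3 (fun t => U p q (t 0) (t 1 * t 2) v - U p q (t 0 * t 1) (t 2) v) x := by
  have h := alt_rot (fun a b d => U p q (a * b) d v) x
  simp only [T_expand]
  rw [alt_sub, alt_sub, ← h]

set_option maxRecDepth 40000 in
set_option maxHeartbeats 4000000 in
theorem C5.form (F : Type) [Field F] [CharZero F] [Module F M] [IsScalarTower F M M]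
    [SMulCommClass F M M] (hM : IsMalcev M) (a b v : M) (s : Fin 3 → M) :
    alt 3 (fun e =>
      ((-60 : ℤ) • (((((a * b) * e 0) * e 1) * v) * e 2) + ((-36 : ℤ) • ((((a * b) * e 0) * e 1) * (v * e 2)) + ((-36 : ℤ) • (((a * b) * (v * e 0)) * (e 1 * e 2)) + ((36 : ℤ) • (((v * (a * b)) * (e 0 * e 1)) * e 2) + ((-12 : ℤ) • ((((v * (a * b)) * e 0) * e 1) * e 2) + ((-12 : ℤ) • (((a * b) * e 0) * ((v * e 1) * e 2)) + ((12 : ℤ) • (((a * b) * ((v * e 0) * e 1)) * e 2) + ((60 : ℤ) • ((((e 0 * (a * b)) * e 1) * v) * e 2) + ((36 : ℤ) • (((e 0 * (a * b)) * e 1) * (v * e 2)) + ((36 : ℤ) • ((e 0 * (v * (a * b))) * (e 1 * e 2)) + ((-36 : ℤ) • (((v * e 0) * ((a * b) * e 1)) * e 2) + ((12 : ℤ) • ((((v * e 0) * (a * b)) * e 1) * e 2) + ((12 : ℤ) • ((e 0 * (a * b)) * ((v * e 1) * e 2)) + ((-12 : ℤ) • ((e 0 * ((v * (a * b)) * e 1)) * e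 2) + ((-60 : ℤ) • ((((e 0 * e 1) * (a * b)) * v) * e 2) + ((-36 : ℤ) • (((e 0 * e 1) * (a * b)) * (v * e 2)) + ((-36 : ℤ) • ((e 0 * (v * e 1)) * ((a * b) * e 2)) + ((36 : ℤ) • (((v * e 0) * (e 1 * (a * b))) * e 2) + ((-12 : ℤ) • ((((v * e 0) * e 1) * (a * b)) * e 2) + ((-12 : ℤ) • ((e 0 * e 1) * ((v * (a * b)) * e 2)) + ((12 : ℤ) • ((e 0 * ((v * e 1) * (a * b))) * e 2) + ((60 : ℤ) • ((((e 0 * e 1) * e 2) * v) * (a * b)) + ((36 : ℤ) • (((e 0 * e 1) * e 2) * (v * (a * b))) + ((36 : ℤ) • ((e 0 * (v * e 1)) * (e 2 * (a * b))) + ((-36 : ℤ) • (((v * e 0) * (e 1 * e 2)) * (a * b)) + ((12 : ℤ) • ((((v * e 0) * e 1) * e 2) * (a * b)) + ((12 : ℤ) • ((e 0 * e 1) * ((v * e 2) * (a * b))) + ((-12 : ℤ) • ((e 0 * ((v * e 1) * e 2)) * (a * b)) + ((15 : ℤ) • ((((a * e 0) * (e 1 * e 2)) * v) * b) + ((9 : ℤ) • (((a * e 0) * (e 1 * e 2))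 * (v * b)) + ((9 : ℤ) • ((a * (v * e 0)) * ((e 1 * e 2) * b)) + ((-9 : ℤ) • (((v * a) * (e 0 * (e 1 * e 2))) * b) + ((3 : ℤ) • ((((v * a) * e 0) * (e 1 * e 2)) * b) + ((3 : ℤ) • ((a * e 0) * ((v * (e 1 * e 2)) * b)) + ((-3 : ℤ) • ((a * ((v * e 0) * (e 1 * e 2))) * b) + ((-15 : ℤ) • ((((a * e 0) * b) * v) * (e 1 * e 2)) + ((-9 : ℤ) • (((a * e 0) * b) * (v * (e 1 * e 2))) + ((-9 : ℤ) • ((a * (v * e 0)) * (b * (e 1 * e 2))) + ((9 : ℤ) • (((v * a) * (e 0 * b)) * (e 1 * e 2)) + ((-3 : ℤ) • ((((v * a) * e 0) * b) * (e 1 * e 2)) + ((-3 : ℤ) • ((a * e 0) * ((v * b) * (e 1 * e 2))) + ((3 : ℤ) • ((a * ((v * e 0) * b)) * (e 1 * e 2)) + ((-15 : ℤ) • ((((a * (e 0 * e 1)) * e 2) * v) * b) + ((-9 : ℤ) • (((a * (e 0 * e 1)) * e 2) * (v * b)) + ((-9 : ℤ) • ((a * (v * (e 0 * e 1))) * (e 2 * b)) + ((9 : ℤ) • (((v * a) * ((e 0 * e 1) * e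 2)) * b) + ((-3 : ℤ) • ((((v * a) * (e 0 * e 1)) * e 2) * b) + ((-3 : ℤ) • ((a * (e 0 * e 1)) * ((v * e 2) * b)) + ((3 : ℤ) • ((a * ((v * (e 0 * e 1)) * e 2)) * b) + ((15 : ℤ) • ((((a * (e 0 * e 1)) * b) * v) * e 2) + ((9 : ℤ) • (((a * (e 0 * e 1)) * b) * (v * e 2)) + ((9 : ℤ) • ((a * (v * (e 0 * e 1))) * (b * e 2)) + ((-9 : ℤ) • (((v * a) * ((e 0 * e 1) * b)) * e 2) + ((3 : ℤ) • ((((v * a) * (e 0 * e 1)) * b) * e 2) + ((3 : ℤ) • ((a * (e 0 * e 1)) * ((v * b) * e 2)) + ((-3 : ℤ) • ((a * ((v * (e 0 * e 1)) * b)) * e 2) + ((15 : ℤ) • ((((a * b) * e 0) * v) * (e 1 * e 2)) + ((9 : ℤ) • (((a * b) * e 0) * (v * (e 1 * e 2))) + ((9 : ℤ) • ((a * (v * b)) * (e 0 * (e 1 * e 2))) + ((-9 : ℤ) • (((v * a) * (b * e 0)) * (e 1 * e 2)) + ((3 : ℤ) • ((((v * a) * b) * e 0) * (e 1 * e 2)) + ((3 : ℤ) • ((a * b) * ((v * e 0) * (e 1 * e 2)))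 + ((-3 : ℤ) • ((a * ((v * b) * e 0)) * (e 1 * e 2)) + ((-15 : ℤ) • ((((a * b) * (e 0 * e 1)) * v) * e 2) + ((-9 : ℤ) • (((a * b) * (e 0 * e 1)) * (v * e 2)) + ((-9 : ℤ) • ((a * (v * b)) * ((e 0 * e 1) * e 2)) + ((9 : ℤ) • (((v * a) * (b * (e 0 * e 1))) * e 2) + ((-3 : ℤ) • ((((v * a) * b) * (e 0 * e 1)) * e 2) + ((-3 : ℤ) • ((a * b) * ((v * (e 0 * e 1)) * e 2)) + ((3 : ℤ) • ((a * ((v * b) * (e 0 * e 1))) * e 2) + ((-15 : ℤ) • ((((e 0 * a) * (e 1 * e 2)) * v) * b) + ((-9 : ℤ) • (((e 0 * a) * (e 1 * e 2)) * (v * b)) + ((-9 : ℤ) • ((e 0 * (v * a)) * ((e 1 * e 2) * b)) + ((9 : ℤ) • (((v * e 0) * (a * (e 1 * e 2))) * b) + ((-3 : ℤ) • ((((v * e 0) * a) * (e 1 * e 2)) * b) + ((-3 : ℤ) • ((e 0 * a) * ((v * (e 1 * e 2)) * b)) + ((3 : ℤ) • ((e 0 * ((v * a) * (e 1 * e 2))) * b) + ((15 : ℤ) • ((((e 0 * a) * b) * v) * (e 1 * e 2))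 + ((9 : ℤ) • (((e 0 * a) * b) * (v * (e 1 * e 2))) + ((9 : ℤ) • ((e 0 * (v * a)) * (b * (e 1 * e 2))) + ((-9 : ℤ) • (((v * e 0) * (a * b)) * (e 1 * e 2)) + ((3 : ℤ) • ((((v * e 0) * a) * b) * (e 1 * e 2)) + ((3 : ℤ) • ((e 0 * a) * ((v * b) * (e 1 * e 2))) + ((-3 : ℤ) • ((e 0 * ((v * a) * b)) * (e 1 * e 2)) + ((15 : ℤ) • ((((e 0 * (e 1 * e 2)) * a) * v) * b) + ((9 : ℤ) • (((e 0 * (e 1 * e 2)) * a) * (v * b)) + ((9 : ℤ) • ((e 0 * (v * (e 1 * e 2))) * (a * b)) + ((-9 : ℤ) • (((v * e 0) * ((e 1 * e 2) * a)) * b) + ((3 : ℤ) • ((((v * e 0) * (e 1 * e 2)) * a) * b) + ((3 : ℤ) • ((e 0 * (e 1 * e 2)) * ((v * a) * b)) + ((-3 : ℤ) • ((e 0 * ((v * (e 1 * e 2)) * a)) * b) + ((-15 : ℤ) • ((((e 0 * (e 1 * e 2)) * b) * v) * a) + ((-9 : ℤ) • (((e 0 * (e 1 * e 2)) * b) * (v * a)) + ((-9 : ℤ) • ((e 0 * (v * (e 1 * e 2))) * (b * a)) + ((9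 : ℤ) • (((v * e 0) * ((e 1 * e 2) * b)) * a) + ((-3 : ℤ) • ((((v * e 0) * (e 1 * e 2)) * b) * a) + ((-3 : ℤ) • ((e 0 * (e 1 * e 2)) * ((v * b) * a)) + ((3 : ℤ) • ((e 0 * ((v * (e 1 * e 2)) * b)) * a) + ((-15 : ℤ) • ((((e 0 * b) * a) * v) * (e 1 * e 2)) + ((-9 : ℤ) • (((e 0 * b) * a) * (v * (e 1 * e 2))) + ((-9 : ℤ) • ((e 0 * (v * b)) * (a * (e 1 * e 2))) + ((9 : ℤ) • (((v * e 0) * (b * a)) * (e 1 * e 2)) + ((-3 : ℤ) • ((((v * e 0) * b) * a) * (e 1 * e 2)) + ((-3 : ℤ) • ((e 0 * b) * ((v * a) * (e 1 * e 2))) + ((3 : ℤ) • ((e 0 * ((v * b) * a)) * (e 1 * e 2)) + ((15 : ℤ) • ((((e 0 * b) * (e 1 * e 2)) * v) * a) + ((9 : ℤ) • (((e 0 * b) * (e 1 * e 2)) * (v * a)) + ((9 : ℤ) • ((e 0 * (v * b)) * ((e 1 * e 2) * a)) + ((-9 : ℤ) • (((v * e 0) * (b * (e 1 * e 2))) * a) + ((3 : ℤ) • ((((v * e 0) * b) * (e 1 * e 2)) * a) + ((3 : ℤ)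 • ((e 0 * b) * ((v * (e 1 * e 2)) * a)) + ((-3 : ℤ) • ((e 0 * ((v * b) * (e 1 * e 2))) * a) + ((15 : ℤ) • (((((e 0 * e 1) * a) * e 2) * v) * b) + ((9 : ℤ) • ((((e 0 * e 1) * a) * e 2) * (v * b)) + ((9 : ℤ) • (((e 0 * e 1) * (v * a)) * (e 2 * b)) + ((-9 : ℤ) • (((v * (e 0 * e 1)) * (a * e 2)) * b) + ((3 : ℤ) • ((((v * (e 0 * e 1)) * a) * e 2) * b) + ((3 : ℤ) • (((e 0 * e 1) * a) * ((v * e 2) * b)) + ((-3 : ℤ) • (((e 0 * e 1) * ((v * a) * e 2)) * b) + ((-15 : ℤ) • (((((e 0 * e 1) * a) * b) * v) * e 2) + ((-9 : ℤ) • ((((e 0 * e 1) * a) * b) * (v * e 2)) + ((-9 : ℤ) • (((e 0 * e 1) * (v * a)) * (b * e 2)) + ((9 : ℤ) • (((v * (e 0 * e 1)) * (a * b)) * e 2) + ((-3 : ℤ) • ((((v * (e 0 * e 1)) * a) * b) * e 2) + ((-3 : ℤ) • (((e 0 * e 1) * a) * ((v * b) * e 2)) + ((3 : ℤ) • (((e 0 * e 1) * ((v * a) * b)) * e 2) + ((-15 : ℤ) •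 (((((e 0 * e 1) * e 2) * a) * v) * b) + ((-9 : ℤ) • ((((e 0 * e 1) * e 2) * a) * (v * b)) + ((-9 : ℤ) • (((e 0 * e 1) * (v * e 2)) * (a * b)) + ((9 : ℤ) • (((v * (e 0 * e 1)) * (e 2 * a)) * b) + ((-3 : ℤ) • ((((v * (e 0 * e 1)) * e 2) * a) * b) + ((-3 : ℤ) • (((e 0 * e 1) * e 2) * ((v * a) * b)) + ((3 : ℤ) • (((e 0 * e 1) * ((v * e 2) * a)) * b) + ((15 : ℤ) • (((((e 0 * e 1) * e 2) * b) * v) * a) + ((9 : ℤ) • ((((e 0 * e 1) * e 2) * b) * (v * a)) + ((9 : ℤ) • (((e 0 * e 1) * (v * e 2)) * (b * a)) + ((-9 : ℤ) • (((v * (e 0 * e 1)) * (e 2 * b)) * a) + ((3 : ℤ) • ((((v * (e 0 * e 1)) * e 2) * b) * a) + ((3 : ℤ) • (((e 0 * e 1) * e 2) * ((v * b) * a)) + ((-3 : ℤ) • (((e 0 * e 1) * ((v * e 2) * b)) * a) + ((15 : ℤ) • (((((e 0 * e 1) * b) * a) * v) * e 2) + ((9 : ℤ) • ((((e 0 * e 1) * b) * a) * (v * e 2)) + ((9 : ℤ) • (((e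 0 * e 1) * (v * b)) * (a * e 2)) + ((-9 : ℤ) • (((v * (e 0 * e 1)) * (b * a)) * e 2) + ((3 : ℤ) • ((((v * (e 0 * e 1)) * b) * a) * e 2) + ((3 : ℤ) • (((e 0 * e 1) * b) * ((v * a) * e 2)) + ((-3 : ℤ) • (((e 0 * e 1) * ((v * b) * a)) * e 2) + ((-15 : ℤ) • (((((e 0 * e 1) * b) * e 2) * v) * a) + ((-9 : ℤ) • ((((e 0 * e 1) * b) * e 2) * (v * a)) + ((-9 : ℤ) • (((e 0 * e 1) * (v * b)) * (e 2 * a)) + ((9 : ℤ) • (((v * (e 0 * e 1)) * (b * e 2)) * a) + ((-3 : ℤ) • ((((v * (e 0 * e 1)) * b) * e 2) * a) + ((-3 : ℤ) • (((e 0 * e 1) * b) * ((v * e 2) * a)) + ((3 : ℤ) • (((e 0 * e 1) * ((v * b) * e 2)) * a) + ((-15 : ℤ) • ((((b * a) * e 0) * v) * (e 1 * e 2)) + ((-9 : ℤ) • (((b * a) * e 0) * (v * (e 1 * e 2))) + ((-9 : ℤ) • ((b * (v * a)) * (e 0 * (e 1 * e 2))) + ((9 : ℤ) • (((v * b) * (a * e 0)) * (e 1 * e 2)) + ((-3 : ℤ) • ((((v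 * b) * a) * e 0) * (e 1 * e 2)) + ((-3 : ℤ) • ((b * a) * ((v * e 0) * (e 1 * e 2))) + ((3 : ℤ) • ((b * ((v * a) * e 0)) * (e 1 * e 2)) + ((15 : ℤ) • ((((b * a) * (e 0 * e 1)) * v) * e 2) + ((9 : ℤ) • (((b * a) * (e 0 * e 1)) * (v * e 2)) + ((9 : ℤ) • ((b * (v * a)) * ((e 0 * e 1) * e 2)) + ((-9 : ℤ) • (((v * b) * (a * (e 0 * e 1))) * e 2) + ((3 : ℤ) • ((((v * b) * a) * (e 0 * e 1)) * e 2) + ((3 : ℤ) • ((b * a) * ((v * (e 0 * e 1)) * e 2)) + ((-3 : ℤ) • ((b * ((v * a) * (e 0 * e 1))) * e 2) + ((15 : ℤ) • ((((b * e 0) * a) * v) * (e 1 * e 2)) + ((9 : ℤ) • (((b * e 0) * a) * (v * (e 1 * e 2))) + ((9 : ℤ) • ((b * (v * e 0)) * (a * (e 1 * e 2))) + ((-9 : ℤ) • (((v * b) * (e 0 * a)) * (e 1 * e 2)) + ((3 : ℤ) • ((((v * b) * e 0) * a) * (e 1 * e 2)) + ((3 : ℤ) • ((b * e 0) * ((v * a) * (e 1 * e 2))) + ((-3 : ℤ) • ((b * ((v *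 e 0) * a)) * (e 1 * e 2)) + ((-15 : ℤ) • ((((b * e 0) * (e 1 * e 2)) * v) * a) + ((-9 : ℤ) • (((b * e 0) * (e 1 * e 2)) * (v * a)) + ((-9 : ℤ) • ((b * (v * e 0)) * ((e 1 * e 2) * a)) + ((9 : ℤ) • (((v * b) * (e 0 * (e 1 * e 2))) * a) + ((-3 : ℤ) • ((((v * b) * e 0) * (e 1 * e 2)) * a) + ((-3 : ℤ) • ((b * e 0) * ((v * (e 1 * e 2)) * a)) + ((3 : ℤ) • ((b * ((v * e 0) * (e 1 * e 2))) * a) + ((-15 : ℤ) • ((((b * (e 0 * e 1)) * a) * v) * e 2) + ((-9 : ℤ) • (((b * (e 0 * e 1)) * a) * (v * e 2)) + ((-9 : ℤ) • ((b * (v * (e 0 * e 1))) * (a * e 2)) + ((9 : ℤ) • (((v * b) * ((e 0 * e 1) * a)) * e 2) + ((-3 : ℤ) • ((((v * b) * (e 0 * e 1)) * a) * e 2) + ((-3 : ℤ) • ((b * (e 0 * e 1)) * ((v * a) * e 2)) + ((3 : ℤ) • ((b * ((v * (e 0 * e 1)) * a)) * e 2) + ((15 : ℤ) • ((((b * (e 0 * e 1)) * e 2) * v) * a) + ((9 : ℤ) • (((b * (e 0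 * e 1)) * e 2) * (v * a)) + ((9 : ℤ) • ((b * (v * (e 0 * e 1))) * (e 2 * a)) + ((-9 : ℤ) • (((v * b) * ((e 0 * e 1) * e 2)) * a) + ((3 : ℤ) • ((((v * b) * (e 0 * e 1)) * e 2) * a) + ((3 : ℤ) • ((b * (e 0 * e 1)) * ((v * e 2) * a)) + ((-3 : ℤ) • ((b * ((v * (e 0 * e 1)) * e 2)) * a) + ((-12 : ℤ) • ((v * a) * (((b * e 0) * e 1) * e 2)) + ((-12 : ℤ) • ((v * (((a * b) * e 0) * e 1)) * e 2) + ((12 : ℤ) • ((v * a) * (((e 0 * b) * e 1) * e 2)) + ((12 : ℤ) • ((v * (((a * e 0) * b) * e 1)) * e 2) + ((-12 : ℤ) • ((v * a) * (((e 0 * e 1) * b) * e 2)) + ((-12 : ℤ) • ((v * (((a * e 0) * e 1) * b)) * e 2) + ((12 : ℤ) • ((v * a) * (((e 0 * e 1) * e 2) * b)) + ((12 : ℤ) • ((v * (((a * e 0) * e 1) * e 2)) * b) + ((12 : ℤ) • ((v * b) * (((a * e 0) * e 1) * e 2)) + ((12 : ℤ) • ((v * (((b * a) * e 0) * e 1)) * e 2) + ((-12 : ℤ) • ((v * b)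 * (((e 0 * a) * e 1) * e 2)) + ((-12 : ℤ) • ((v * (((b * e 0) * a) * e 1)) * e 2) + ((12 : ℤ) • ((v * b) * (((e 0 * e 1) * a) * e 2)) + ((12 : ℤ) • ((v * (((b * e 0) * e 1) * a)) * e 2) + ((-12 : ℤ) • ((v * b) * (((e 0 * e 1) * e 2) * a)) + ((-12 : ℤ) • ((v * (((b * e 0) * e 1) * e 2)) * a) + ((-12 : ℤ) • ((v * e 0) * (((a * b) * e 1) * e 2)) + ((-12 : ℤ) • ((v * (((e 0 * a) * b) * e 1)) * e 2) + ((12 : ℤ) • ((v * e 0) * (((a * e 1) * b) * e 2)) + ((12 : ℤ) • ((v * (((e 0 * a) * e 1) * b)) * e 2) + ((-12 : ℤ) • ((v * e 0) * (((a * e 1) * e 2) * b)) + ((-12 : ℤ) • ((v * (((e 0 * a) * e 1) * e 2)) * b) + ((12 : ℤ) • ((v * e 0) * (((b * a) * e 1) * e 2)) + ((12 : ℤ) • ((v * (((e 0 * b) * a) * e 1)) * e 2) + ((-12 : ℤ) • ((v * e 0) * (((b * e 1) * a) * e 2)) + ((-12 : ℤ) • ((v * (((e 0 * b) * e 1) * a)) * e 2) + ((12 : ℤ)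 • ((v * e 0) * (((b * e 1) * e 2) * a)) + ((12 : ℤ) • ((v * (((e 0 * b) * e 1) * e 2)) * a) + ((-12 : ℤ) • ((v * e 0) * (((e 1 * a) * b) * e 2)) + ((-12 : ℤ) • ((v * (((e 0 * e 1) * a) * b)) * e 2) + ((12 : ℤ) • ((v * e 0) * (((e 1 * a) * e 2) * b)) + ((12 : ℤ) • ((v * (((e 0 * e 1) * a) * e 2)) * b) + ((12 : ℤ) • ((v * e 0) * (((e 1 * b) * a) * e 2)) + ((12 : ℤ) • ((v * (((e 0 * e 1) * b) * a)) * e 2) + ((-12 : ℤ) • ((v * e 0) * (((e 1 * b) * e 2) * a)) + ((-12 : ℤ) • ((v * (((e 0 * e 1) * b) * e 2)) * a) + ((-12 : ℤ) • ((v * e 0) * (((e 1 * e 2) * a) * b)) + ((-12 : ℤ) • ((v * (((e 0 * e 1) * e 2) * a)) * b) + ((12 : ℤ) • ((v * e 0) * (((e 1 * e 2) * b) * a)) + ((12 : ℤ) • ((v * (((e 0 * e 1) * e 2) * b)) * a) + 0)))))))))))))))))))))))))))))))))))))))))))))))))))))))))))))))))))))))))))))))))))))))))))))))))))))))))))))))))))))))))))))))))))))))))))))))))))))))))))))))))))))))))))))))))))))))))))))))))))))))))))))))))))))))))))))))))))))))))))))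 s = 0 :=
  cert_alt_one' F hM C5.P C5.cert 1 C5.target C5.ok 1 (K := 3) (by decide)
    (lett [a, b, v]) s


set_option maxHeartbeats 4000000 in
theorem idC5 (F : Type) [Field F] [CharZero F] [Module F M] [IsScalarTower F M M]
    [SMulCommClass F M M] (hM : IsMalcev M) (a b v : M) (x : Fin 3 → M) :
    alt 3 (fun t => T ![a, b, t 0, t 1 * t 2] v) x =
      (4 : ℤ) • T (Fin.cons (a * b) x) v
        + (12 : ℤ) • kap v (Fin.cons a (Fin.cons b x)) := by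
  have h := C5.form F hM a b v x
  rw [← sub_eq_zero, ← h, T_m, kap_eq, alt_cons5, alt_cons4, T, alt_cons4]
  simp only [← alt_zsmul, ← alt_add, ← alt_sub]
  congr 1
  funext t
  simp only [w5, U, kl, Matrix.cons_val]
  abel

set_option maxRecDepth 40000 in
set_option maxHeartbeats 4000000 in
theorem C6.form (F : Type) [Field F] [CharZero F] [Module F M] [IsScalarTower F M M]
    [SMulCommClass F M M] (hM : IsMalcev M) (z w v : M) (s : Fin 3 → M) :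
    alt 3 (fun e =>
      ((-15 : ℤ) • (((((z * w) * e 0) * e 1) * v) * e 2) + ((-9 : ℤ) • ((((z * w) * e 0) * e 1) * (v * e 2)) + ((-9 : ℤ) • (((z * w) * (v * e 0)) * (e 1 * e 2)) + ((9 : ℤ) • (((v * (z * w)) * (e 0 * e 1)) * e 2) + ((-3 : ℤ) • ((((v * (z * w)) * e 0) * e 1) * e 2) + ((-3 : ℤ) • (((z * w) * e 0) * ((v * e 1) * e 2)) + ((3 : ℤ) • (((z * w) * ((v * e 0) * e 1)) * e 2) + ((15 : ℤ) • ((((e 0 * (z * w)) * e 1) * v) * e 2) + ((9 : ℤ) • (((e 0 * (z * w)) * e 1) * (v * e 2)) + ((9 : ℤ) • ((e 0 * (v * (z * w))) * (e 1 * e 2)) + ((-9 : ℤ) • (((v * e 0) * ((z * w) * e 1)) * e 2) + ((3 : ℤ) • ((((v * e 0) * (z * w)) * e 1) * e 2) + ((3 : ℤ) • ((e 0 * (z * w)) * ((v * e 1) * e 2)) + ((-3 : ℤ) • ((e 0 * ((v * (z * w)) * e 1)) * e 2) + ((-15 : ℤ) • ((((e 0 * e 1) * (z * w)) * v) * e 2) + ((-9 : ℤ) • (((e 0 * e 1) *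 (z * w)) * (v * e 2)) + ((-9 : ℤ) • ((e 0 * (v * e 1)) * ((z * w) * e 2)) + ((9 : ℤ) • (((v * e 0) * (e 1 * (z * w))) * e 2) + ((-3 : ℤ) • ((((v * e 0) * e 1) * (z * w)) * e 2) + ((-3 : ℤ) • ((e 0 * e 1) * ((v * (z * w)) * e 2)) + ((3 : ℤ) • ((e 0 * ((v * e 1) * (z * w))) * e 2) + ((-39 : ℤ) • ((((e 0 * e 1) * e 2) * v) * (z * w)) + ((9 : ℤ) • (((e 0 * e 1) * e 2) * (v * (z * w))) + ((9 : ℤ) • ((e 0 * (v * e 1)) * (e 2 * (z * w))) + ((-9 : ℤ) • (((v * e 0) * (e 1 * e 2)) * (z * w)) + ((3 : ℤ) • ((((v * e 0) * e 1) * e 2) * (z * w)) + ((3 : ℤ) • ((e 0 * e 1) * ((v * e 2) * (z * w))) + ((-3 : ℤ) • ((e 0 * ((v * e 1) * e 2)) * (z * w)) + ((54 : ℤ) • ((((e 0 * e 1) * e 2) * z) * (w * v)) + ((18 : ℤ) • (((((e 0 * e 1) * e 2) * z) * w) * v) + ((18 : ℤ) • ((w * v) * (((e 0 * e 1) * e 2) * z)) + ((15 : ℤ) • ((v * (((e 0 * e 1)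 * e 2) * z)) * w) + ((-18 : ℤ) • (((((e 0 * e 1) * e 2) * v) * z) * w) + ((-18 : ℤ) • ((z * w) * (((e 0 * e 1) * e 2) * v)) + ((-18 : ℤ) • ((w * (((e 0 * e 1) * e 2) * v)) * z) + ((54 : ℤ) • ((((e 0 * e 1) * e 2) * w) * (v * z)) + ((18 : ℤ) • (((((e 0 * e 1) * e 2) * w) * v) * z) + ((21 : ℤ) • ((v * z) * (((e 0 * e 1) * e 2) * w)) + ((18 : ℤ) • ((z * (((e 0 * e 1) * e 2) * w)) * v) + ((-3 : ℤ) • ((v * z) * (((w * e 0) * e 1) * e 2)) + ((-3 : ℤ) • ((v * (((z * w) * e 0) * e 1)) * e 2) + ((3 : ℤ) • ((v * z) * (((e 0 * w) * e 1) * e 2)) + ((3 : ℤ) • ((v * (((z * e 0) * w) * e 1)) * e 2) + ((-3 : ℤ) • ((v * z) * (((e 0 * e 1) * w) * e 2)) + ((-3 : ℤ) • ((v * (((z * e 0) * e 1) * w)) * e 2) + ((3 : ℤ) • ((v * (((z * e 0) * e 1) * e 2)) * w) + ((3 : ℤ) • ((v * w) * (((z * e 0) * e 1) * e 2)) + ((3 : ℤ) • ((v * (((w * z) * e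 0) * e 1)) * e 2) + ((-3 : ℤ) • ((v * w) * (((e 0 * z) * e 1) * e 2)) + ((-3 : ℤ) • ((v * (((w * e 0) * z) * e 1)) * e 2) + ((3 : ℤ) • ((v * w) * (((e 0 * e 1) * z) * e 2)) + ((3 : ℤ) • ((v * (((w * e 0) * e 1) * z)) * e 2) + ((-3 : ℤ) • ((v * w) * (((e 0 * e 1) * e 2) * z)) + ((-3 : ℤ) • ((v * (((w * e 0) * e 1) * e 2)) * z) + ((-3 : ℤ) • ((v * e 0) * (((z * w) * e 1) * e 2)) + ((-3 : ℤ) • ((v * (((e 0 * z) * w) * e 1)) * e 2) + ((3 : ℤ) • ((v * e 0) * (((z * e 1) * w) * e 2)) + ((3 : ℤ) • ((v * (((e 0 * z) * e 1) * w)) * e 2) + ((-3 : ℤ) • ((v * e 0) * (((z * e 1) * e 2) * w)) + ((-3 : ℤ) • ((v * (((e 0 * z) * e 1) * e 2)) * w) + ((3 : ℤ) • ((v * e 0) * (((w * z) * e 1) * e 2)) + ((3 : ℤ) • ((v * (((e 0 * w) * z) * e 1)) * e 2) + ((-3 : ℤ) • ((v * e 0) * (((w * e 1) * z) * e 2)) + ((-3 : ℤ) • ((v * (((e 0 * w) * e 1)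 * z)) * e 2) + ((3 : ℤ) • ((v * e 0) * (((w * e 1) * e 2) * z)) + ((3 : ℤ) • ((v * (((e 0 * w) * e 1) * e 2)) * z) + ((-3 : ℤ) • ((v * e 0) * (((e 1 * z) * w) * e 2)) + ((-3 : ℤ) • ((v * (((e 0 * e 1) * z) * w)) * e 2) + ((3 : ℤ) • ((v * e 0) * (((e 1 * z) * e 2) * w)) + ((3 : ℤ) • ((v * (((e 0 * e 1) * z) * e 2)) * w) + ((3 : ℤ) • ((v * e 0) * (((e 1 * w) * z) * e 2)) + ((3 : ℤ) • ((v * (((e 0 * e 1) * w) * z)) * e 2) + ((-3 : ℤ) • ((v * e 0) * (((e 1 * w) * e 2) * z)) + ((-3 : ℤ) • ((v * (((e 0 * e 1) * w) * e 2)) * z) + ((-3 : ℤ) • ((v * e 0) * (((e 1 * e 2) * z) * w)) + ((3 : ℤ) • ((v * e 0) * (((e 1 * e 2) * w) * z)) + ((3 : ℤ) • ((v * (((e 0 * e 1) * e 2) * w)) * z) + 0)))))))))))))))))))))))))))))))))))))))))))))))))))))))))))))))))))))))))))))) s = 0 :=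
  cert_alt_one' F hM C6.P C6.cert 4 C6.target C6.ok 1 (K := 3) (by decide)
    (lett [z, w, v]) s


set_option maxHeartbeats 4000000 in
theorem idC6 (F : Type) [Field F] [CharZero F] [Module F M] [IsScalarTower F M M]
    [SMulCommClass F M M] (hM : IsMalcev M) (z w v : M) (x : Fin 3 → M) :
    T (Fin.cons (z * w) x) v = - Xi (J3 (x 0) (x 1) (x 2)) z w v
      - (3 : ℤ) • kap v (Fin.cons z (Fin.cons w x)) := by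
  have h := C6.form F hM z w v x
  have h1 : Xi (J3 (x 0) (x 1) (x 2)) z w v = alt 3 (fun t =>
      - ((54 : ℤ) • ((((t 0 * t 1) * t 2) * z) * (w * v))
          + (18 : ℤ) • J3 (((t 0 * t 1) * t 2) * z) w v)
      + ((54 : ℤ) • ((((t 0 * t 1) * t 2) * v) * (z * w))
          + (18 : ℤ) • J3 (((t 0 * t 1) * t 2) * v) z w)
      - ((54 : ℤ) • ((((t 0 * t 1) * t 2) * w) * (v * z))
          + (18 : ℤ) • J3 (((t 0 * t 1) * t 2) * w) v z)) x := by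
    have e1 : Xi (J3 (x 0) (x 1) (x 2)) z w v =
      - ((54 : ℤ) • ((((2 : ℤ) • J3 (x 0) (x 1) (x 2)) * z) * (w * v))
        + (18 : ℤ) • J3 (((2 : ℤ) • J3 (x 0) (x 1) (x 2)) * z) w v)
      + ((54 : ℤ) • ((((2 : ℤ) • J3 (x 0) (x 1) (x 2)) * v) * (z * w))
        + (18 : ℤ) • J3 (((2 : ℤ) • J3 (x 0) (x 1) (x 2)) * v) z w)
      - ((54 : ℤ) • ((((2 : ℤ) • J3 (x 0) (x 1) (x 2)) * w) * (v * z))
        + (18 : ℤ) • J3 (((2 : ℤ) • J3 (x 0) (x 1) (x 2)) * w) v z) := by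
      generalize J3 (x 0) (x 1) (x 2) = j
      simp only [Xi, J3, smul_mul_assoc, mul_smul_comm, ← smul_add, smul_smul]
      norm_num
    rw [e1, J3_alt hM]
    simp only [J3, mul_right_alt, mul_left_alt, ← alt_zsmul, ← alt_add, ← alt_sub, ← alt_neg]
  rw [← sub_eq_zero, ← neg_eq_zero, ← h, h1, kap_eq, alt_cons5, alt_cons4, T, alt_cons4]
  simp only [← alt_zsmul, ← alt_add, ← alt_sub, ← alt_neg]
  congr 1
  funext t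
  simp only [w5, kl, Matrix.cons_val, J3]
  abel

set_option maxRecDepth 40000 in
set_option maxHeartbeats 4000000 in
theorem C4.form (F : Type) [Field F] [CharZero F] [Module F M] [IsScalarTower F M M]
    [SMulCommClass F M M] (hM : IsMalcev M) (y z c : M) (s : Fin 3 → M) :
    alt 3 (fun e =>
      ((87 : ℤ) • ((((c * e 0) * (e 1 * e 2)) * z) * y) + ((9 : ℤ) • (((c * e 0) * (e 1 * e 2)) * (z * y)) + ((9 : ℤ) • ((c * (z * e 0)) * ((e 1 * e 2) * y)) + ((-9 : ℤ) • (((z * c) * (e 0 * (e 1 * e 2))) * y) + ((3 : ℤ) • ((((z * c) * e 0) * (e 1 * e 2)) * y) + ((3 : ℤ) • ((c * e 0) * ((z * (e 1 * e 2)) * y)) + ((-3 : ℤ) • ((c * ((z * e 0) * (e 1 * e 2))) * y) + ((-15 : ℤ) • ((((c * e 0) * y) * z) * (e 1 * e 2)) + ((-9 : ℤ) • (((c * e 0) * y) * (z * (e 1 * e 2))) + ((-9 : ℤ) • ((c * (z * e 0)) * (y * (e 1 * e 2))) + ((9 : ℤ)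 • (((z * c) * (e 0 * y)) * (e 1 * e 2)) + ((-3 : ℤ) • ((((z * c) * e 0) * y) * (e 1 * e 2)) + ((-3 : ℤ) • ((c * e 0) * ((z * y) * (e 1 * e 2))) + ((3 : ℤ) • ((c * ((z * e 0) * y)) * (e 1 * e 2)) + ((-15 : ℤ) • ((((c * (e 0 * e 1)) * e 2) * z) * y) + ((-9 : ℤ) • (((c * (e 0 * e 1)) * e 2) * (z * y)) + ((-9 : ℤ) • ((c * (z * (e 0 * e 1))) * (e 2 * y)) + ((9 : ℤ) • (((z * c) * ((e 0 * e 1) * e 2)) * y) + ((-3 : ℤ) • ((((z * c) * (e 0 * e 1)) * e 2) * y) + ((-3 : ℤ) • ((c * (e 0 * e 1)) * ((z * e 2) * y)) + ((3 : ℤ) • ((c * ((z * (e 0 * e 1)) * e 2)) * y) + ((15 : ℤ) • ((((c * (e 0 * e 1)) * y) * z) * e 2) + ((9 : ℤ) • (((c * (e 0 * e 1)) * y) * (z * e 2)) + ((9 : ℤ) • ((c * (z * (e 0 * e 1))) * (y * e 2)) + ((-9 : ℤ) • (((z * c) * ((e 0 * e 1) * y)) * e 2) + ((3 : ℤ) • ((((z * c) * (e 0 * e 1)) * y) * e 2) + ((3 : ℤ) • ((c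 * (e 0 * e 1)) * ((z * y) * e 2)) + ((-3 : ℤ) • ((c * ((z * (e 0 * e 1)) * y)) * e 2) + ((15 : ℤ) • ((((c * y) * e 0) * z) * (e 1 * e 2)) + ((9 : ℤ) • (((c * y) * e 0) * (z * (e 1 * e 2))) + ((9 : ℤ) • ((c * (z * y)) * (e 0 * (e 1 * e 2))) + ((-9 : ℤ) • (((z * c) * (y * e 0)) * (e 1 * e 2)) + ((3 : ℤ) • ((((z * c) * y) * e 0) * (e 1 * e 2)) + ((3 : ℤ) • ((c * y) * ((z * e 0) * (e 1 * e 2))) + ((-3 : ℤ) • ((c * ((z * y) * e 0)) * (e 1 * e 2)) + ((-15 : ℤ) • ((((c * y) * (e 0 * e 1)) * z) * e 2) + ((-9 : ℤ) • (((c * y) * (e 0 * e 1)) * (z * e 2)) + ((-9 : ℤ) • ((c * (z * y)) * ((e 0 * e 1) * e 2)) + ((9 : ℤ) • (((z * c) * (y * (e 0 * e 1))) * e 2) + ((-3 : ℤ) • ((((z * c) * y) * (e 0 * e 1)) * e 2) + ((-3 : ℤ) • ((c * y) * ((z * (e 0 * e 1)) * e 2)) + ((3 : ℤ) • ((c * ((z * y) * (e 0 * e 1))) * e 2) + ((-15 : ℤ) • ((((e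 0 * c) * (e 1 * e 2)) * z) * y) + ((-9 : ℤ) • (((e 0 * c) * (e 1 * e 2)) * (z * y)) + ((-9 : ℤ) • ((e 0 * (z * c)) * ((e 1 * e 2) * y)) + ((9 : ℤ) • (((z * e 0) * (c * (e 1 * e 2))) * y) + ((-3 : ℤ) • ((((z * e 0) * c) * (e 1 * e 2)) * y) + ((-3 : ℤ) • ((e 0 * c) * ((z * (e 1 * e 2)) * y)) + ((3 : ℤ) • ((e 0 * ((z * c) * (e 1 * e 2))) * y) + ((15 : ℤ) • ((((e 0 * c) * y) * z) * (e 1 * e 2)) + ((9 : ℤ) • (((e 0 * c) * y) * (z * (e 1 * e 2))) + ((9 : ℤ) • ((e 0 * (z * c)) * (y * (e 1 * e 2))) + ((-9 : ℤ) • (((z * e 0) * (c * y)) * (e 1 * e 2)) + ((3 : ℤ) • ((((z * e 0) * c) * y) * (e 1 * e 2)) + ((3 : ℤ) • ((e 0 * c) * ((z * y) * (e 1 * e 2))) + ((-3 : ℤ) • ((e 0 * ((z * c) * y)) * (e 1 * e 2)) + ((87 : ℤ) • ((((e 0 * (e 1 * e 2)) * c) * z) * y) + ((9 : ℤ) • (((e 0 * (e 1 * e 2)) * c) * (z * y)) + ((9 : ℤ) • ((e 0 * (z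 * (e 1 * e 2))) * (c * y)) + ((-9 : ℤ) • (((z * e 0) * ((e 1 * e 2) * c)) * y) + ((3 : ℤ) • ((((z * e 0) * (e 1 * e 2)) * c) * y) + ((3 : ℤ) • ((e 0 * (e 1 * e 2)) * ((z * c) * y)) + ((-3 : ℤ) • ((e 0 * ((z * (e 1 * e 2)) * c)) * y) + ((-15 : ℤ) • ((((e 0 * (e 1 * e 2)) * y) * z) * c) + ((-9 : ℤ) • (((e 0 * (e 1 * e 2)) * y) * (z * c)) + ((-9 : ℤ) • ((e 0 * (z * (e 1 * e 2))) * (y * c)) + ((9 : ℤ) • (((z * e 0) * ((e 1 * e 2) * y)) * c) + ((-39 : ℤ) • ((((z * e 0) * (e 1 * e 2)) * y) * c) + ((-3 : ℤ) • ((e 0 * (e 1 * e 2)) * ((z * y) * c)) + ((3 : ℤ) • ((e 0 * ((z * (e 1 * e 2)) * y)) * c) + ((-15 : ℤ) • ((((e 0 * y) * c) * z) * (e 1 * e 2)) + ((-9 : ℤ) • (((e 0 * y) * c) * (z * (e 1 * e 2))) + ((-9 : ℤ) • ((e 0 * (z * y)) * (c * (e 1 * e 2))) + ((9 : ℤ) • (((z * e 0) * (y * c)) * (e 1 * e 2)) + ((-3 : ℤ) • ((((z * e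 0) * y) * c) * (e 1 * e 2)) + ((-3 : ℤ) • ((e 0 * y) * ((z * c) * (e 1 * e 2))) + ((3 : ℤ) • ((e 0 * ((z * y) * c)) * (e 1 * e 2)) + ((15 : ℤ) • ((((e 0 * y) * (e 1 * e 2)) * z) * c) + ((9 : ℤ) • (((e 0 * y) * (e 1 * e 2)) * (z * c)) + ((9 : ℤ) • ((e 0 * (z * y)) * ((e 1 * e 2) * c)) + ((-9 : ℤ) • (((z * e 0) * (y * (e 1 * e 2))) * c) + ((3 : ℤ) • ((((z * e 0) * y) * (e 1 * e 2)) * c) + ((3 : ℤ) • ((e 0 * y) * ((z * (e 1 * e 2)) * c)) + ((-3 : ℤ) • ((e 0 * ((z * y) * (e 1 * e 2))) * c) + ((87 : ℤ) • (((((e 0 * e 1) * c) * e 2) * z) * y) + ((9 : ℤ) • ((((e 0 * e 1) * c) * e 2) * (z * y)) + ((9 : ℤ) • (((e 0 * e 1) * (z * c)) * (e 2 * y)) + ((-9 : ℤ) • (((z * (e 0 * e 1)) * (c * e 2)) * y) + ((3 : ℤ) • ((((z * (e 0 * e 1)) * c) * e 2) * y) + ((3 : ℤ) • (((e 0 * e 1) * c) * ((z * e 2) * y)) + ((-3 : ℤ) • (((e 0 * e 1) *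 ((z * c) * e 2)) * y) + ((-15 : ℤ) • (((((e 0 * e 1) * c) * y) * z) * e 2) + ((-9 : ℤ) • ((((e 0 * e 1) * c) * y) * (z * e 2)) + ((-9 : ℤ) • (((e 0 * e 1) * (z * c)) * (y * e 2)) + ((9 : ℤ) • (((z * (e 0 * e 1)) * (c * y)) * e 2) + ((-3 : ℤ) • ((((z * (e 0 * e 1)) * c) * y) * e 2) + ((-3 : ℤ) • (((e 0 * e 1) * c) * ((z * y) * e 2)) + ((3 : ℤ) • (((e 0 * e 1) * ((z * c) * y)) * e 2) + ((-15 : ℤ) • (((((e 0 * e 1) * e 2) * c) * z) * y) + ((-9 : ℤ) • ((((e 0 * e 1) * e 2) * c) * (z * y)) + ((-9 : ℤ) • (((e 0 * e 1) * (z * e 2)) * (c * y)) + ((9 : ℤ) • (((z * (e 0 * e 1)) * (e 2 * c)) * y) + ((-3 : ℤ) • ((((z * (e 0 * e 1)) * e 2) * c) * y) + ((-3 : ℤ) • (((e 0 * e 1) * e 2) * ((z * c) * y)) + ((3 : ℤ) • (((e 0 * e 1) * ((z * e 2) * c)) * y) + ((15 : ℤ) • (((((e 0 * e 1) * e 2) * y) * z) * c) + ((9 : ℤ) • ((((e 0 * e 1) *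 e 2) * y) * (z * c)) + ((9 : ℤ) • (((e 0 * e 1) * (z * e 2)) * (y * c)) + ((-9 : ℤ) • (((z * (e 0 * e 1)) * (e 2 * y)) * c) + ((3 : ℤ) • ((((z * (e 0 * e 1)) * e 2) * y) * c) + ((3 : ℤ) • (((e 0 * e 1) * e 2) * ((z * y) * c)) + ((9 : ℤ) • (((e 0 * e 1) * ((z * e 2) * y)) * c) + ((15 : ℤ) • (((((e 0 * e 1) * y) * c) * z) * e 2) + ((9 : ℤ) • ((((e 0 * e 1) * y) * c) * (z * e 2)) + ((9 : ℤ) • (((e 0 * e 1) * (z * y)) * (c * e 2)) + ((-9 : ℤ) • (((z * (e 0 * e 1)) * (y * c)) * e 2) + ((3 : ℤ) • ((((z * (e 0 * e 1)) * y) * c) * e 2) + ((3 : ℤ) • (((e 0 * e 1) * y) * ((z * c) * e 2)) + ((-3 : ℤ) • (((e 0 * e 1) * ((z * y) * c)) * e 2) + ((-15 : ℤ) • (((((e 0 * e 1) * y) * e 2) * z) * c) + ((-9 : ℤ) • ((((e 0 * e 1) * y) * e 2) * (z * c)) + ((-9 : ℤ) • (((e 0 * e 1) * (z * y)) * (e 2 * c)) + ((9 : ℤ) • (((z * (e 0 * e 1)) *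 (y * e 2)) * c) + ((-3 : ℤ) • ((((z * (e 0 * e 1)) * y) * e 2) * c) + ((-3 : ℤ) • (((e 0 * e 1) * y) * ((z * e 2) * c)) + ((-9 : ℤ) • (((e 0 * e 1) * ((z * y) * e 2)) * c) + ((-15 : ℤ) • ((((y * c) * e 0) * z) * (e 1 * e 2)) + ((-9 : ℤ) • (((y * c) * e 0) * (z * (e 1 * e 2))) + ((-9 : ℤ) • ((y * (z * c)) * (e 0 * (e 1 * e 2))) + ((9 : ℤ) • (((z * y) * (c * e 0)) * (e 1 * e 2)) + ((-3 : ℤ) • ((((z * y) * c) * e 0) * (e 1 * e 2)) + ((-3 : ℤ) • ((y * c) * ((z * e 0) * (e 1 * e 2))) + ((3 : ℤ) • ((y * ((z * c) * e 0)) * (e 1 * e 2)) + ((15 : ℤ) • ((((y * c) * (e 0 * e 1)) * z) * e 2) + ((9 : ℤ) • (((y * c) * (e 0 * e 1)) * (z * e 2)) + ((9 : ℤ) • ((y * (z * c)) * ((e 0 * e 1) * e 2)) + ((-9 : ℤ) • (((z * y) * (c * (e 0 * e 1))) * e 2) + ((3 : ℤ) • ((((z * y) * c) * (e 0 * e 1)) * e 2) + ((3 : ℤ) • ((y * c) * ((z * (e 0 *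 e 1)) * e 2)) + ((-3 : ℤ) • ((y * ((z * c) * (e 0 * e 1))) * e 2) + ((15 : ℤ) • ((((y * e 0) * c) * z) * (e 1 * e 2)) + ((9 : ℤ) • (((y * e 0) * c) * (z * (e 1 * e 2))) + ((9 : ℤ) • ((y * (z * e 0)) * (c * (e 1 * e 2))) + ((-9 : ℤ) • (((z * y) * (e 0 * c)) * (e 1 * e 2)) + ((3 : ℤ) • ((((z * y) * e 0) * c) * (e 1 * e 2)) + ((3 : ℤ) • ((y * e 0) * ((z * c) * (e 1 * e 2))) + ((-3 : ℤ) • ((y * ((z * e 0) * c)) * (e 1 * e 2)) + ((-15 : ℤ) • ((((y * e 0) * (e 1 * e 2)) * z) * c) + ((-9 : ℤ) • (((y * e 0) * (e 1 * e 2)) * (z * c)) + ((-9 : ℤ) • ((y * (z * e 0)) * ((e 1 * e 2) * c)) + ((9 : ℤ) • (((z * y) * (e 0 * (e 1 * e 2))) * c) + ((-3 : ℤ) • ((((z * y) * e 0) * (e 1 * e 2)) * c) + ((-3 : ℤ) • ((y * e 0) * ((z * (e 1 * e 2)) * c)) + ((3 : ℤ) • ((y * ((z * e 0) * (e 1 * e 2))) * c) + ((-15 : ℤ) • ((((y * (e 0 * e 1)) * c)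 * z) * e 2) + ((-9 : ℤ) • (((y * (e 0 * e 1)) * c) * (z * e 2)) + ((-9 : ℤ) • ((y * (z * (e 0 * e 1))) * (c * e 2)) + ((9 : ℤ) • (((z * y) * ((e 0 * e 1) * c)) * e 2) + ((-3 : ℤ) • ((((z * y) * (e 0 * e 1)) * c) * e 2) + ((-3 : ℤ) • ((y * (e 0 * e 1)) * ((z * c) * e 2)) + ((3 : ℤ) • ((y * ((z * (e 0 * e 1)) * c)) * e 2) + ((15 : ℤ) • ((((y * (e 0 * e 1)) * e 2) * z) * c) + ((9 : ℤ) • (((y * (e 0 * e 1)) * e 2) * (z * c)) + ((9 : ℤ) • ((y * (z * (e 0 * e 1))) * (e 2 * c)) + ((135 : ℤ) • (((z * y) * ((e 0 * e 1) * e 2)) * c) + ((39 : ℤ) • ((((z * y) * (e 0 * e 1)) * e 2) * c) + ((3 : ℤ) • ((y * (e 0 * e 1)) * ((z * e 2) * c)) + ((-3 : ℤ) • ((y * ((z * (e 0 * e 1)) * e 2)) * c) + ((216 : ℤ) • (y * (((c * e 0) * (e 1 * e 2)) * z)) + ((72 : ℤ) • ((y * ((c * e 0) * (e 1 * e 2))) * z) + ((72 : ℤ) • ((z * y) * ((c * e 0) * (e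 1 * e 2))) + ((216 : ℤ) • (y * (((e 0 * (e 1 * e 2)) * c) * z)) + ((72 : ℤ) • ((y * ((e 0 * (e 1 * e 2)) * c)) * z) + ((72 : ℤ) • ((z * y) * ((e 0 * (e 1 * e 2)) * c)) + ((216 : ℤ) • (y * ((((e 0 * e 1) * c) * e 2) * z)) + ((60 : ℤ) • ((y * (((e 0 * e 1) * c) * e 2)) * z) + ((60 : ℤ) • ((z * y) * (((e 0 * e 1) * c) * e 2)) + ((-60 : ℤ) • (((((y * e 0) * e 1) * z) * e 2) * c) + ((-36 : ℤ) • ((((y * e 0) * e 1) * (z * e 2)) * c) + ((-36 : ℤ) • (((y * (z * e 0)) * (e 1 * e 2)) * c) + ((-12 : ℤ) • (((((z * y) * e 0) * e 1) * e 2) * c) + ((-12 : ℤ) • (((y * e 0) * ((z * e 1) * e 2)) * c) + ((12 : ℤ) • (((y * ((z * e 0) * e 1)) * e 2) * c) + ((60 : ℤ) • (((((e 0 * y) * e 1) * z) * e 2) * c) + ((36 : ℤ) • ((((e 0 * y) * e 1) * (z * e 2)) * c) + ((36 : ℤ) • (((e 0 * (z * y)) * (e 1 * e 2)) * c) + ((-36 : ℤ) • ((((z * e 0) * (y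 * e 1)) * e 2) * c) + ((12 : ℤ) • (((((z * e 0) * y) * e 1) * e 2) * c) + ((12 : ℤ) • (((e 0 * y) * ((z * e 1) * e 2)) * c) + ((-12 : ℤ) • (((e 0 * ((z * y) * e 1)) * e 2) * c) + ((-60 : ℤ) • (((((e 0 * e 1) * y) * z) * e 2) * c) + ((-36 : ℤ) • ((((e 0 * e 1) * y) * (z * e 2)) * c) + ((-36 : ℤ) • (((e 0 * (z * e 1)) * (y * e 2)) * c) + ((36 : ℤ) • ((((z * e 0) * (e 1 * y)) * e 2) * c) + ((-12 : ℤ) • (((((z * e 0) * e 1) * y) * e 2) * c) + ((12 : ℤ) • (((e 0 * ((z * e 1) * y)) * e 2) * c) + ((204 : ℤ) • (((((e 0 * e 1) * e 2) * z) * y) * c) + ((36 : ℤ) • ((((e 0 * e 1) * e 2) * (z * y)) * c) + ((36 : ℤ) • (((e 0 * (z * e 1)) * (e 2 * y)) * c) + ((12 : ℤ) • (((((z * e 0) * e 1) * e 2) * y) * c) + ((-12 : ℤ) • (((e 0 * ((z * e 1) * e 2)) * y) * c) + ((420 : ℤ) • ((y * (((e 0 * e 1) * e 2) * z)) * c) + ((144 : ℤ) • (((y *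 ((e 0 * e 1) * e 2)) * z) * c) + ((-12 : ℤ) • ((y * z) * (((c * e 0) * e 1) * e 2)) + ((-12 : ℤ) • ((y * (((z * c) * e 0) * e 1)) * e 2) + ((12 : ℤ) • ((y * z) * (((e 0 * c) * e 1) * e 2)) + ((12 : ℤ) • ((y * (((z * e 0) * c) * e 1)) * e 2) + ((-12 : ℤ) • ((y * z) * (((e 0 * e 1) * c) * e 2)) + ((-12 : ℤ) • ((y * (((z * e 0) * e 1) * c)) * e 2) + ((12 : ℤ) • ((y * z) * (((e 0 * e 1) * e 2) * c)) + ((12 : ℤ) • ((y * (((z * e 0) * e 1) * e 2)) * c) + ((12 : ℤ) • ((y * c) * (((z * e 0) * e 1) * e 2)) + ((12 : ℤ) • ((y * (((c * z) * e 0) * e 1)) * e 2) + ((-12 : ℤ) • ((y * c) * (((e 0 * z) * e 1) * e 2)) + ((-12 : ℤ) • ((y * (((c * e 0) * z) * e 1)) * e 2) + ((12 : ℤ) • ((y * c) * (((e 0 * e 1) * z) * e 2)) + ((12 : ℤ) • ((y * (((c * e 0) * e 1) * z)) * e 2) + ((-12 : ℤ) • ((y * c) * (((e 0 * e 1) * e 2) * z)) + ((-12 : ℤ)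 • ((y * (((c * e 0) * e 1) * e 2)) * z) + ((-12 : ℤ) • ((y * e 0) * (((z * c) * e 1) * e 2)) + ((-12 : ℤ) • ((y * (((e 0 * z) * c) * e 1)) * e 2) + ((12 : ℤ) • ((y * e 0) * (((z * e 1) * c) * e 2)) + ((12 : ℤ) • ((y * (((e 0 * z) * e 1) * c)) * e 2) + ((-12 : ℤ) • ((y * e 0) * (((z * e 1) * e 2) * c)) + ((-12 : ℤ) • ((y * (((e 0 * z) * e 1) * e 2)) * c) + ((12 : ℤ) • ((y * e 0) * (((c * z) * e 1) * e 2)) + ((12 : ℤ) • ((y * (((e 0 * c) * z) * e 1)) * e 2) + ((-12 : ℤ) • ((y * e 0) * (((c * e 1) * z) * e 2)) + ((-12 : ℤ) • ((y * (((e 0 * c) * e 1) * z)) * e 2) + ((12 : ℤ) • ((y * e 0) * (((c * e 1) * e 2) * z)) + ((12 : ℤ) • ((y * (((e 0 * c) * e 1) * e 2)) * z) + ((-12 : ℤ) • ((y * e 0) * (((e 1 * z) * c) * e 2)) + ((-12 : ℤ) • ((y * (((e 0 * e 1) * z) * c)) * e 2) + ((12 : ℤ) • ((y * e 0) * (((e 1 * z) * e 2) * c)) +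 ((12 : ℤ) • ((y * (((e 0 * e 1) * z) * e 2)) * c) + ((12 : ℤ) • ((y * e 0) * (((e 1 * c) * z) * e 2)) + ((12 : ℤ) • ((y * (((e 0 * e 1) * c) * z)) * e 2) + ((-12 : ℤ) • ((y * e 0) * (((e 1 * c) * e 2) * z)) + ((-12 : ℤ) • ((y * e 0) * (((e 1 * e 2) * z) * c)) + ((12 : ℤ) • ((y * e 0) * (((e 1 * e 2) * c) * z)) + ((12 : ℤ) • ((y * (((e 0 * e 1) * e 2) * c)) * z) + ((-12 : ℤ) • ((z * y) * (((c * e 0) * e 1) * e 2)) + ((-12 : ℤ) • ((z * (((y * c) * e 0) * e 1)) * e 2) + ((12 : ℤ) • ((z * y) * (((e 0 * c) * e 1) * e 2)) + ((12 : ℤ) • ((z * (((y * e 0) * c) * e 1)) * e 2) + ((-12 : ℤ) • ((z * (((y * e 0) * e 1) * c)) * e 2) + ((12 : ℤ) • ((z * y) * (((e 0 * e 1) * e 2) * c)) + ((12 : ℤ) • ((z * (((y * e 0) * e 1) * e 2)) * c) + ((12 : ℤ) • ((z * c) * (((y * e 0) * e 1) * e 2)) + ((12 : ℤ) • ((z * (((c * y) * e 0) * e 1)) *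 e 2) + ((-12 : ℤ) • ((z * c) * (((e 0 * y) * e 1) * e 2)) + ((-12 : ℤ) • ((z * (((c * e 0) * y) * e 1)) * e 2) + ((12 : ℤ) • ((z * c) * (((e 0 * e 1) * y) * e 2)) + ((12 : ℤ) • ((z * (((c * e 0) * e 1) * y)) * e 2) + ((-12 : ℤ) • ((z * c) * (((e 0 * e 1) * e 2) * y)) + ((-12 : ℤ) • ((z * (((c * e 0) * e 1) * e 2)) * y) + ((-12 : ℤ) • ((z * e 0) * (((y * c) * e 1) * e 2)) + ((-12 : ℤ) • ((z * (((e 0 * y) * c) * e 1)) * e 2) + ((12 : ℤ) • ((z * e 0) * (((y * e 1) * c) * e 2)) + ((12 : ℤ) • ((z * (((e 0 * y) * e 1) * c)) * e 2) + ((-12 : ℤ) • ((z * e 0) * (((y * e 1) * e 2) * c)) + ((-12 : ℤ) • ((z * (((e 0 * y) * e 1) * e 2)) * c) + ((12 : ℤ) • ((z * e 0) * (((c * y) * e 1) * e 2)) + ((12 : ℤ) • ((z * (((e 0 * c) * y) * e 1)) * e 2) + ((-12 : ℤ) • ((z * e 0) * (((c * e 1) * y) * e 2)) + ((-12 : ℤ) • ((z * (((e 0 * c) *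 e 1) * y)) * e 2) + ((12 : ℤ) • ((z * e 0) * (((c * e 1) * e 2) * y)) + ((12 : ℤ) • ((z * (((e 0 * c) * e 1) * e 2)) * y) + ((-12 : ℤ) • ((z * e 0) * (((e 1 * y) * c) * e 2)) + ((-12 : ℤ) • ((z * (((e 0 * e 1) * y) * c)) * e 2) + ((12 : ℤ) • ((z * e 0) * (((e 1 * y) * e 2) * c)) + ((12 : ℤ) • ((z * (((e 0 * e 1) * y) * e 2)) * c) + ((12 : ℤ) • ((z * e 0) * (((e 1 * c) * y) * e 2)) + ((12 : ℤ) • ((z * (((e 0 * e 1) * c) * y)) * e 2) + ((-12 : ℤ) • ((z * e 0) * (((e 1 * c) * e 2) * y)) + ((-12 : ℤ) • ((z * (((e 0 * e 1) * c) * e 2)) * y) + ((-12 : ℤ) • ((z * e 0) * (((e 1 * e 2) * y) * c)) + ((-12 : ℤ) • ((z * (((e 0 * e 1) * e 2) * y)) * c) + ((12 : ℤ) • ((z * e 0) * (((e 1 * e 2) * c) * y)) + ((12 : ℤ) • ((z * (((e 0 * e 1) * e 2) * c)) * y) + 0)))))))))))))))))))))))))))))))))))))))))))))))))))))))))))))))))))))))))))))))))))))))))))))))))))))))))))))))))))))))))))))))))))))))))))))))))))))))))))))))))))))))))))))))))))))))))))))))))))))))))))))))))))))))))))))))))))))))))))))))))))))))))))))))))))))))))))))))))))))))))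 s = 0 :=
  cert_alt_one' F hM C4.P C4.cert 1 C4.target C4.ok 1 (K := 3) (by decide)
    (lett [y, z, c]) s


/-- the alternating sum of `Q` with arguments `c, t 0, t 1 * t 2` -/
theorem Q_m (y z c : M) (x : Fin 3 → M) :
    alt 3 (fun t => Q y z ![c, t 0, t 1 * t 2]) x =
      alt 3 (fun t => - (U y c (t 0) (t 1 * t 2) z - U y c (t 0 * t 1) (t 2) z)
        + (216 : ℤ) • (y * (((c * t 0) * (t 1 * t 2) + (t 0 * (t 1 * t 2)) * c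
          + ((t 0 * t 1) * c) * t 2) * z))
        + (72 : ℤ) • J3 y ((c * t 0) * (t 1 * t 2) + (t 0 * (t 1 * t 2)) * c
          + ((t 0 * t 1) * c) * t 2) z) x := by
  have h1 := alt_J3m c ((AddMonoidHom.mulLeft y).comp (AddMonoidHom.mulRight z)) x
  have h2 := alt_J3m c ((AddMonoidHom.mulRight z).comp (AddMonoidHom.mulLeft y)
    + (AddMonoidHom.mulRight y).comp (AddMonoidHom.mulRight z)
    + (AddMonoidHom.mulLeft (z * y))) x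
  have h3 := T_m y c z x
  have h4 : ∀ t : Fin 3 → M, Q y z ![c, t 0, t 1 * t 2] =
      - T ![y, c, t 0, t 1 * t 2] z + (216 : ℤ) • (y * (J3 c (t 0) (t 1 * t 2) * z))
        + (72 : ℤ) • J3 y (J3 c (t 0) (t 1 * t 2)) z := fun t => rfl
  simp only [h4]
  rw [alt_add, alt_add, alt_neg, alt_zsmul, alt_zsmul, alt_add, alt_add, alt_neg, alt_zsmul,
    alt_zsmul]
  rw [h3]
  congr 1
  · congr 2
  · congr 1

set_option maxRecDepth 40000 in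
set_option maxHeartbeats 4000000 in
theorem idC4 (F : Type) [Field F] [CharZero F] [Module F M] [IsScalarTower F M M]
    [SMulCommClass F M M] (hM : IsMalcev M) (y z c : M) (x : Fin 3 → M) :
    alt 3 (fun t => Q y z ![c, t 0, t 1 * t 2]) x + (4 : ℤ) • (Q y z x * c) =
      (12 : ℤ) • (kap y (Fin.cons z (Fin.cons c x)) + kap z (Fin.cons y (Fin.cons c x))) := by
  have h := C4.form F hM y z c x
  rw [← sub_eq_zero, ← h, Q_m, Q_alt hM, mul_right_alt, kap_eq, alt_cons5, alt_cons4, kap_eq,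
    alt_cons5, alt_cons4]
  simp only [← alt_zsmul, ← alt_add, ← alt_sub, ← alt_neg]
  congr 1
  funext t
  simp only [w5, U, kl, Matrix.cons_val, J3, mul_add, add_mul, sub_mul, neg_mul, smul_mul_assoc]
  abel

end Pool.Agent.MAL
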