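import Pool.Agent.MAL.Envelope

/-!
Transfer: a super-identity in the Grassmann envelope gives an alternating multilinear identity.
-/

open scoped TensorProduct

namespace Pool.Agent.MAL.Cert

/-- number of odd leaves -/
def Tr.no (P : ℕ → Bool) : Tr → ℕ
  | .lf i => bif P i then 1 else 0
  | .nd a b => a.no P + b.no P

/-- the odd leaves, from left to right -/
def Tr.ol (P : ℕ → Bool) : Tr → List ℕ
  | .lf i => bif P i then [i] else []
  | .nd a b => a.ol P ++ b.ol P

/-- value of a word: even letters `l i`, the odd leaves are replaced, from left to right, by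
`y k, y (k + 1), ..` -/
def Tr.ev {S : Type*} [Mul S] (P : ℕ → Bool) (l y : ℕ → S) : ℕ → Tr → S
  | k, .lf i => bif P i then y k else l i
  | k, .nd a b => a.ev P l y k * b.ev P l y (k + a.no P)

theorem Tr.ol_length (P : ℕ → Bool) : ∀ t : Tr, (t.ol P).length = t.no P
  | .lf i => by simp only [Tr.ol, Tr.no]; cases P i <;> rfl
  | .nd a b => by simp only [Tr.ol, Tr.no, List.length_append, Tr.ol_length P a, Tr.ol_length P b]

theorem Tr.ev_congr {S : Type*} [Mul S] (P : ℕ → Bool) (l y y' : ℕ → S) :
    ∀ (t : Tr) (k k' : ℕ), (∀ n < t.no P, y (k + n) = y' (k' + n)) →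
      t.ev P l y k = t.ev P l y' k'
  | .lf i, k, k', h => by
    simp only [Tr.ev, Tr.no] at h ⊢
    cases hP : P i with
    | false => rfl
    | true => simpa [hP] using h 0 (by simp [hP])
  | .nd a b, k, k', h => by
    simp only [Tr.ev]
    rw [Tr.ev_congr P l y y' a k k' (fun n hn => h n (by simp only [Tr.no]; omega)),
      Tr.ev_congr P l y y' b (k + a.no P) (k' + a.no P) (fun n hn => by
        have := h (a.no P + n) (by simp only [Tr.no]; omega)
        rwa [← add_assoc, ← add_assoc] at this)]

theorem Tr.val_eq_ev {S : Type*} [Mul S] (P : ℕ → Bool) (v y : ℕ → S) :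
    ∀ (t : Tr) (k : ℕ), (∀ n (h : n < (t.ol P).length), y (k + n) = v ((t.ol P)[n])) →
      t.val v = t.ev P v y k
  | .lf i, k, h => by
    simp only [Tr.ev, Tr.ol, Tr.val] at h ⊢
    cases hP : P i with
    | false => rfl
    | true =>
      have := h 0 (by simp [hP])
      simp only [hP, cond_true, add_zero] at this ⊢
      simpa using this.symm
  | .nd a b, k, h => by
    simp only [Tr.ev, Tr.val]
    rw [Tr.val_eq_ev P v y a k (fun n hn => by
        have := h n (by simp only [Tr.ol, List.length_append]; omega)
        rw [this]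
        simp only [Tr.ol]
        rw [List.getElem_append_left hn]),
      Tr.val_eq_ev P v y b (k + a.no P) (fun n hn => by
        have := h (a.no P + n) (by
          simp only [Tr.ol, List.length_append, Tr.ol_length P a] at hn ⊢; omega)
        rw [← add_assoc] at this
        rw [this]
        simp only [Tr.ol]
        rw [List.getElem_append_right (by rw [Tr.ol_length]; omega)]
        simp only [Tr.ol_length, Nat.add_sub_cancel_left])]

section Multi

variable {F : Type*} [Field F] {S : Type*} [NonUnitalNonAssocRing S] [Module F S]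
  [IsScalarTower F S S] [SMulCommClass F S S]

omit [Module F S] [IsScalarTower F S S] [SMulCommClass F S S] in
theorem Tr.ev_update_out (P : ℕ → Bool) (l y : ℕ → S) (i : ℕ) (a : S) (t : Tr) (k : ℕ)
    (h : i < k ∨ k + t.no P ≤ i) : t.ev P l (Function.update y i a) k = t.ev P l y k := by
  apply Tr.ev_congr
  intro n hn
  rw [Function.update_of_ne]
  omega

theorem Tr.ev_update_add (P : ℕ → Bool) (l y : ℕ → S) (i : ℕ) (a b : S) :
    ∀ (t : Tr) (k : ℕ), k ≤ i → i < k + t.no P →
      t.ev P l (Function.update y i (a + b)) k =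
        t.ev P l (Function.update y i a) k + t.ev P l (Function.update y i b) k
  | .lf j, k, h1, h2 => by
    simp only [Tr.ev, Tr.no] at h2 ⊢
    cases hP : P j with
    | false => rw [hP] at h2; simp at h2; omega
    | true =>
      rw [hP] at h2
      have : k = i := by simp at h2; omega
      subst this
      simp
  | .nd t u, k, h1, h2 => by
    simp only [Tr.ev, Tr.no] at h2 ⊢
    by_cases h : i < k + t.no P
    · rw [Tr.ev_update_add P l y i a b t k h1 h,
        Tr.ev_update_out P l y i _ u _ (Or.inl h), Tr.ev_update_out P l y i _ u _ (Or.inl h),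
        Tr.ev_update_out P l y i _ u _ (Or.inl h), add_mul]
    · have h' : k + t.no P ≤ i := by omega
      rw [Tr.ev_update_add P l y i a b u (k + t.no P) h' (by omega),
        Tr.ev_update_out P l y i _ t _ (Or.inr h'), Tr.ev_update_out P l y i _ t _ (Or.inr h'),
        Tr.ev_update_out P l y i _ t _ (Or.inr h'), mul_add]

theorem Tr.ev_update_smul (P : ℕ → Bool) (l y : ℕ → S) (i : ℕ) (c : F) (a : S) :
    ∀ (t : Tr) (k : ℕ), k ≤ i → i < k + t.no P →
      t.ev P l (Function.update y i (c • a)) k = c • t.ev P l (Function.update y i a) k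
  | .lf j, k, h1, h2 => by
    simp only [Tr.ev, Tr.no] at h2 ⊢
    cases hP : P j with
    | false => rw [hP] at h2; simp at h2; omega
    | true =>
      rw [hP] at h2
      have : k = i := by simp at h2; omega
      subst this
      simp
  | .nd t u, k, h1, h2 => by
    simp only [Tr.ev, Tr.no] at h2 ⊢
    by_cases h : i < k + t.no P
    · rw [Tr.ev_update_smul P l y i c a t k h1 h,
        Tr.ev_update_out P l y i _ u _ (Or.inl h), Tr.ev_update_out P l y i _ u _ (Or.inl h),
        smul_mul_assoc]
    · have h' : k + t.no P ≤ i := by omega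
      rw [Tr.ev_update_smul P l y i c a u (k + t.no P) h' (by omega),
        Tr.ev_update_out P l y i _ t _ (Or.inr h'), Tr.ev_update_out P l y i _ t _ (Or.inr h'),
        mul_smul_comm]

/-- extension by `0` -/
def ext0 {K : ℕ} {A : Type*} [Zero A] (y : Fin K → A) : ℕ → A :=
  fun n => if h : n < K then y ⟨n, h⟩ else 0

omit [Module F S] [IsScalarTower F S S] [SMulCommClass F S S] in
theorem ext0_update {K : ℕ} [DecidableEq (Fin K)] (y : Fin K → S) (i : Fin K) (a : S) :
    ext0 (Function.update y i a) = Function.update (ext0 y) i a := by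
  funext n
  unfold ext0
  by_cases hn : n < K
  · rw [dif_pos hn]
    by_cases h : n = i
    · subst h
      simp
    · rw [Function.update_of_ne h, dif_pos hn, Function.update_of_ne]
      intro h'
      apply h
      rw [← h']
  · rw [dif_neg hn, Function.update_of_ne, dif_neg hn]
    intro h; exact hn (h ▸ i.2)

/-- a word with exactly `K` odd leaves as a multilinear map -/
def Tr.evM {K : ℕ} (P : ℕ → Bool) (l : ℕ → S) (t : Tr) (ht : t.no P = K) :
    MultilinearMap F (fun _ : Fin K => S) S where
  toFun y := t.ev P l (ext0 y) 0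
  map_update_add' := by
    intro _ y i a b
    rw [ext0_update, ext0_update, ext0_update]
    exact Tr.ev_update_add P l _ i a b t 0 (Nat.zero_le _) (by rw [ht, zero_add]; exact i.2)
  map_update_smul' := by
    intro _ y i c a
    rw [ext0_update, ext0_update]
    exact Tr.ev_update_smul P l _ i c a t 0 (Nat.zero_le _) (by rw [ht, zero_add]; exact i.2)

end Multi

section Main

variable {F : Type} [Field F] {M : Type} [NonUnitalNonAssocRing M] [Module F M]
  [IsScalarTower F M M] [SMulCommClass F M M] {K : ℕ}

/-- value of a word in pure tensors -/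
theorem Tr.ev_tm {V : Type} [AddCommGroup V] [Module F V] (P : ℕ → Bool) (l y : ℕ → M)
    (w : ℕ → ExteriorAlgebra F V) :
    ∀ (t : Tr) (k : ℕ), t.ev P (fun i => tm F (l i) (1 : ExteriorAlgebra F V))
      (fun n => tm F (y n) (w n)) k =
      tm F (t.ev P l y k) ((List.range' k (t.no P)).map w).prod
  | .lf i, k => by
    simp only [Tr.ev, Tr.no]
    cases P i <;> simp
  | .nd a b, k => by
    simp only [Tr.ev, Tr.no]
    rw [Tr.ev_tm P l y w a k, Tr.ev_tm P l y w b (k + a.no P), tm_mul,
      ← List.prod_append, ← List.map_append, List.range'_append_1]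

/-- the functional -/
noncomputable def Phi (F : Type) [Field F] (K : ℕ) : ExteriorAlgebra F (Fin K → F) →ₗ[F] F :=
  ExteriorAlgebra.liftAlternating (R := F)
    (Pi.single (M := fun i : ℕ => (Fin K → F) [⋀^Fin i]→ₗ[F] F) K Matrix.detRowAlternating)

theorem Phi_apply (v : Fin K → (Fin K → F)) :
    Phi F K (ExteriorAlgebra.ιMulti F K v) = Matrix.det v := by
  unfold Phi
  rw [ExteriorAlgebra.liftAlternating_apply_ιMulti, Pi.single_eq_same]
  rfl

/-- extraction of the coefficient -/
noncomputable def ex (F : Type) [Field F] (M : Type) [NonUnitalNonAssocRing M] [Module F M]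
    [IsScalarTower F M M] [SMulCommClass F M M] (K : ℕ) : Env F M (Fin K → F) →ₗ[F] M :=
  (TensorProduct.rid F M).toLinearMap ∘ₗ LinearMap.lTensor M (Phi F K)

theorem ex_tm (m : M) (u : ExteriorAlgebra F (Fin K → F)) :
    ex F M K (tm F m u) = Phi F K u • m := by
  have h : ex F M K (tm F m u)
      = (TensorProduct.rid F M) (LinearMap.lTensor M (Phi F K) (m ⊗ₜ[F] u)) := rfl
  rw [h, LinearMap.lTensor_tmul, TensorProduct.rid_tmul]

theorem Tr.ev_congr_l {S : Type*} [Mul S] (P : ℕ → Bool) (l l' y : ℕ → S)
    (h : ∀ i, P i = false → l i = l' i) :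
    ∀ (t : Tr) (k : ℕ), t.ev P l y k = t.ev P l' y k
  | .lf i, k => by
    simp only [Tr.ev]
    cases hP : P i with
    | false => exact h i hP
    | true => rfl
  | .nd a b, k => by
    simp only [Tr.ev]
    rw [Tr.ev_congr_l P l l' y h a k, Tr.ev_congr_l P l l' y h b _]

/-- the letters in the envelope: even letters `l j ⊗ 1`, odd letters
`∑ x_i ⊗ e_i` over the `i` of kind `j`. -/
noncomputable def envv (P : ℕ → Bool) (kind : Fin K → ℕ) (l : ℕ → M) (x : Fin K → M) :
    ℕ → Env F M (Fin K → F) :=
  fun j => bif P j then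
    ∑ i ∈ Finset.univ.filter (fun i : Fin K => kind i = j),
      tm F (x i) (ExteriorAlgebra.ι F (Pi.single i (1 : F)))
  else tm F (l j) 1

theorem envv_mem (P : ℕ → Bool) (kind : Fin K → ℕ) (l : ℕ → M) (x : Fin K → M) (j : ℕ) :
    envv (F := F) P kind l x j ∈ Hp F M (Fin K → F) (P j) := by
  unfold envv
  cases hP : P j with
  | false =>
    have := mem_Hp (F := F) (p := false) (l j) ([] : List (Fin K → F)) (by simp)
    simpa [wl_nil] using this
  | true =>
    simp only [cond_true]
    apply sum_mem
    intro i _
    have := mem_Hp (F := F) (p := true) (x i) [(Pi.single i (1 : F) : Fin K → F)] (by simp)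
    simpa [wl_cons, wl_nil] using this

theorem det_single (r : Fin K → Fin K) (h : ¬ Function.Injective r) :
    Matrix.det (fun n => (Pi.single (r n) (1 : F) : Fin K → F)) = 0 := by
  unfold Function.Injective at h
  push Not at h
  obtain ⟨a, b, hab, hne⟩ := h
  exact Matrix.det_zero_of_row_eq hne (by simp only [hab])

theorem det_perm (s : Equiv.Perm (Fin K)) :
    Matrix.det (fun n => (Pi.single (s n) (1 : F) : Fin K → F)) = (Equiv.Perm.sign s : ℤ) := by
  have h := Matrix.det_permute s (1 : Matrix (Fin K) (Fin K) F)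
  rw [Matrix.det_one, mul_one] at h
  rw [← h]
  congr 1
  ext i j
  rw [Matrix.submatrix_apply, Matrix.one_apply, Pi.single_apply]
  simp only [id, eq_comm]

theorem sum_perm {A : Type*} [AddCommMonoid A] (H : (Fin K → Fin K) → A)
    (h : ∀ r, ¬ Function.Injective r → H r = 0) :
    ∑ r, H r = ∑ s : Equiv.Perm (Fin K), H s := by
  classical
  have h1 : ∑ r, H r = ∑ r ∈ Finset.univ.filter (fun r : Fin K → Fin K => Function.Injective r),
      H r := by
    rw [Finset.sum_filter]
    refine Finset.sum_congr rfl fun r _ => ?_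
    split_ifs with hr
    · rfl
    · exact h r hr
  rw [h1]
  symm
  refine Finset.sum_nbij (fun s => ⇑s) ?_ ?_ ?_ ?_
  · intro s _
    rw [Finset.mem_filter]
    exact ⟨Finset.mem_univ _, s.injective⟩
  · intro s _ s' _ hss
    exact DFunLike.coe_injective hss
  · intro r hr
    rw [Finset.coe_filter] at hr
    have hb : Function.Bijective r := Finite.injective_iff_bijective.mp hr.2
    exact ⟨Equiv.ofBijective r hb, by simp, rfl⟩
  · intro s _
    rfl

theorem prod_ofFn (r : Fin K → Fin K) :
    ((List.range' 0 K).map (ext0 (fun n => ExteriorAlgebra.ι F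
      (Pi.single (r n) (1 : F) : Fin K → F)))).prod =
      ExteriorAlgebra.ιMulti F K (fun n => (Pi.single (r n) (1 : F) : Fin K → F)) := by
  rw [ExteriorAlgebra.ιMulti_apply]
  congr 1
  apply List.ext_getElem
  · simp
  · intro n h1 h2
    simp only [List.length_map, List.length_range'] at h1
    simp [ext0, h1]

theorem ex_val (P : ℕ → Bool) (kind : Fin K → ℕ) (l : ℕ → M) (x : Fin K → M) (t : Tr)
    (ht : t.no P = K) :
    ex F M K (t.val (envv P kind l x)) = ∑ s : Equiv.Perm (Fin K),
      if List.ofFn (fun n => kind (s n)) = t.ol P then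
        (Equiv.Perm.sign s : ℤ) • t.ev P l (ext0 (fun n => x (s n))) 0 else 0 := by
  classical
  have hlen : (t.ol P).length = K := by rw [Tr.ol_length, ht]
  have h1 := Tr.val_eq_ev P (envv (F := F) P kind l x)
    (ext0 (fun n : Fin K => ∑ i ∈ Finset.univ.filter
      (fun i : Fin K => kind i = (t.ol P)[(n : ℕ)]'(by rw [hlen]; exact n.2)),
        tm F (x i) (ExteriorAlgebra.ι F (Pi.single i (1 : F))))) t 0 (by
      intro n hn
      have hn' : n < K := by rw [← hlen]; exact hn
      have hodd : P ((t.ol P)[n]) = true := by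
        have : ∀ t : Tr, ∀ j ∈ t.ol P, P j = true := by
          intro t
          induction t with
          | lf i =>
            intro j hj
            simp only [Tr.ol] at hj
            cases hP : P i with
            | false => rw [hP] at hj; simp at hj
            | true => rw [hP] at hj; simp at hj; rw [hj, hP]
          | nd a b iha ihb =>
            intro j hj
            simp only [Tr.ol, List.mem_append] at hj
            rcases hj with hj | hj
            · exact iha j hj
            · exact ihb j hj
        exact this t _ (List.getElem_mem hn)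
      unfold ext0 envv
      simp only [zero_add]
      rw [dif_pos hn', hodd]
      rfl)
  rw [h1, Tr.ev_congr_l P (envv P kind l x) (fun i => tm F (l i) 1) _ (by
    intro i hi
    unfold envv
    rw [hi]; rfl)]
  have h2 := (Tr.evM (F := F) P (fun i => tm F (l i) (1 : ExteriorAlgebra F (Fin K → F)))
    t ht).map_sum_finset
    (fun (_ : Fin K) (i : Fin K) => tm F (x i) (ExteriorAlgebra.ι F
      (Pi.single i (1 : F) : Fin K → F)))
    (fun n : Fin K => Finset.univ.filter
      (fun i : Fin K => kind i = (t.ol P)[(n : ℕ)]'(by rw [hlen]; exact n.2)))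
  have h3 : ∀ z : Fin K → Env F M (Fin K → F),
      (Tr.evM (F := F) P (fun i => tm F (l i) (1 : ExteriorAlgebra F (Fin K → F))) t ht) z =
      t.ev P (fun i => tm F (l i) 1) (ext0 z) 0 := fun z => rfl
  rw [h3] at h2
  rw [h2, map_sum]
  have h4 : ∀ r : Fin K → Fin K,
      ex F M K ((Tr.evM (F := F) P (fun i => tm F (l i) (1 : ExteriorAlgebra F (Fin K → F))) t ht)
        (fun n => tm F (x (r n)) (ExteriorAlgebra.ι F (Pi.single (r n) (1 : F) : Fin K → F)))) =
      (Matrix.det (fun n => (Pi.single (r n) (1 : F) : Fin K → F))) •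
        t.ev P l (ext0 (fun n => x (r n))) 0 := by
    intro r
    rw [h3]
    have h5 : (ext0 (fun n => tm F (x (r n)) (ExteriorAlgebra.ι F
        (Pi.single (r n) (1 : F) : Fin K → F)))) =
        fun n => tm F (ext0 (fun n => x (r n)) n)
          (ext0 (fun n => ExteriorAlgebra.ι F (Pi.single (r n) (1 : F) : Fin K → F)) n) := by
      funext n
      unfold ext0
      split_ifs with h
      · rfl
      · rw [tm_zero_left]
    rw [h5, Tr.ev_tm, ht, ex_tm, prod_ofFn, Phi_apply]
  rw [Finset.sum_congr rfl (fun r _ => h4 r)]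
  have h6 : ∀ r : Fin K → Fin K, (r ∈ Fintype.piFinset (fun n : Fin K => Finset.univ.filter
      (fun i : Fin K => kind i = (t.ol P)[(n : ℕ)]'(by rw [hlen]; exact n.2))) ↔
      List.ofFn (fun n => kind (r n)) = t.ol P) := by
    intro r
    rw [Fintype.mem_piFinset]
    constructor
    · intro h
      apply List.ext_getElem
      · simp [hlen]
      · intro n h1 h2
        rw [List.getElem_ofFn]
        have := h ⟨n, by rw [← hlen]; exact h2⟩
        rw [Finset.mem_filter] at this
        exact this.2
    · intro h n
      rw [Finset.mem_filter]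
      refine ⟨Finset.mem_univ _, ?_⟩
      have h7 : ∀ (L : List ℕ) (hL : List.ofFn (fun n => kind (r n)) = L) (hn : (n : ℕ) < L.length),
          kind (r n) = L[(n : ℕ)] := by
        intro L hL hn
        subst hL
        rw [List.getElem_ofFn]
      exact h7 _ h _
  have h8 : Fintype.piFinset (fun n : Fin K => Finset.univ.filter
      (fun i : Fin K => kind i = (t.ol P)[(n : ℕ)]'(by rw [hlen]; exact n.2))) =
      Finset.univ.filter (fun r : Fin K → Fin K => List.ofFn (fun n => kind (r n)) = t.ol P) := by
    ext r
    rw [h6, Finset.mem_filter]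
    exact ⟨fun h => ⟨Finset.mem_univ _, h⟩, fun h => h.2⟩
  rw [h8, Finset.sum_filter, sum_perm]
  · refine Finset.sum_congr rfl fun s _ => ?_
    split_ifs
    · rw [det_perm, Int.cast_smul_eq_zsmul]
    · rfl
  · intro r hr
    rw [det_single r hr, zero_smul, ite_self]

/-- **transfer** -/
theorem transfer (P : ℕ → Bool) (kind : Fin K → ℕ) (l : ℕ → M) (x : Fin K → M)
    (target : List (ℤ × Tr)) (hK : ∀ e ∈ target, e.2.no P = K)
    (h : (target.map fun e => e.1 • e.2.val (envv (F := F) P kind l x)).sum = 0) :
    (target.map fun e => e.1 • ∑ s : Equiv.Perm (Fin K),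
      if List.ofFn (fun n => kind (s n)) = e.2.ol P then
        (Equiv.Perm.sign s : ℤ) • e.2.ev P l (ext0 (fun n => x (s n))) 0 else 0).sum = 0 := by
  have h1 := congrArg (ex F M K) h
  rw [map_zero, map_list_sum, List.map_map] at h1
  refine Eq.trans (congrArg List.sum (List.map_congr_left ?_)) h1
  intro e he
  rw [Function.comp_apply, map_zsmul, ex_val P kind l x e.2 (hK e he)]

end Main

end Pool.Agent.MAL.Cert
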